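import Pool.Agent.QTG.StSk
import Pool.Agent.TQF.TLoc

/-!
# QTG, module LAU

Statement and proof: see `St_LAU` in `Pool/Agent/QTG/StSk.lean`.
-/

set_option autoImplicit false

namespace Pool.Agent.QTG

open Function MvPolynomial TensorProduct Pool.Agent.TQF Pool.Agent.Helper67.Bass
  Pool.Agent.Helper11

theorem thm_LAU : St_LAU := by
  intro B V _ _ _ ρ b u hu
  set ψ : MvPolynomial (Fin ρ) B →+* V := eval₂Hom b (fun k => (u k : V)) with hψ
  let s : MvPolynomial (Fin ρ) B := ∏ k, X k
  have hs : ψ s = ∏ k, (u k : V) := by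
    show ψ (∏ k, X k) = _
    rw [map_prod]
    refine Finset.prod_congr rfl (fun k _ => ?_)
    rw [hψ, eval₂Hom_X']
  have hsu : IsUnit (ψ s) := by
    rw [hs]
    have h1 : (∏ k, (u k : V)) = ((∏ k, u k : Vˣ) : V) := by
      rw [Units.coe_prod]
    rw [h1]
    exact Units.isUnit _
  let _ : Algebra (MvPolynomial (Fin ρ) B) V := ψ.toAlgebra
  have hloc : IsLocalization.Away s V := by
    refine TLoc_isLoc s hsu ?_ ?_
    · intro x
      obtain ⟨N, p, hp⟩ := hu.frac x
      refine ⟨N, p, ?_⟩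
      show ψ s ^ N * x = ψ p
      rw [hs, mul_comm, hp]
      rfl
    · intro p hp
      refine ⟨0, ?_⟩
      have h1 : p = 0 := hu.inj (by rw [map_zero]; exact hp)
      rw [h1, mul_zero]
  refine ⟨IsLocalization.isNoetherianRing (Submonoid.powers s) V inferInstance, fun h => ?_⟩
  exact FinGn.away s (h.mvPolynomial (Fin ρ))

end Pool.Agent.QTG
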