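import Pool.Agent.QTG.StSk
import Pool.Agent.TQF.QS
import Pool.Agent.TQF.QF

/-!
# QTG, module QF2 (helper98)

Statement and proof: see `St_QF2` in `Pool/Agent/QTG/StSk.lean`.
-/

set_option autoImplicit false
set_option linter.style.haveILetI false

namespace Pool.Agent.QTG

open Function MvPolynomial TensorProduct Pool.Agent.TQF Pool.Agent.Helper67.Bass
  Pool.Agent.Helper11
open scoped nonZeroDivisors

theorem QF2a_sum {n ρ : ℕ} (v : Option (Fin n) → Fin ρ → ℤ) (hv : v none = 0)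
    (i j : Option (Fin n)) (k : Fin ρ) :
    ∑ l, ((QF_eo i + QF_eo j) l : ℤ) * v (some l) k = v i k + v j k := by
  have h := QF_exp (n := n) (0 : Fin ρ → ℤ) v hv i j k
  rw [Pi.sub_apply, Pi.sub_apply, Pi.zero_apply] at h
  linarith

/-- the form of the coefficients -/
theorem QF2a_coeff {ι : Type} [AddCommGroup ι] {A : Type} [CommRing A] (𝒜 : ι → AddSubgroup A)
    {K : Type} [Field K] (π : A →+* K) {n ρ : ℕ} (m : Fin ρ → ι) (u : Fin ρ → K)
    (B0 : Subalgebra ℤ K)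
    (hform : ∀ (j : ι), ∀ a ∈ 𝒜 j, π a = 0 ∨ ∃ z : Fin ρ → ℤ, ∑ k, z k • m k = j ∧
        ∃ β ∈ B0, π a = β * ∏ k, u k ^ z k)
    (f : MvPolynomial (Fin n) A) (γ ω : ι) (α : Fin n → ι)
    (hf : f.totalDegree ≤ 2) (hH : Hom2 𝒜 f γ ω α)
    (w : Fin ρ → ℤ) (v : Option (Fin n) → Fin ρ → ℤ) (hv : v none = 0)
    (hvc : ∀ (i j : Option (Fin n)) (ζ : Fin ρ → ℤ),
        ∑ k, ζ k • m k = γ - wt ω α i - wt ω α j → ∀ k, 2 * ζ k = 2 * w k + v i k + v j k)
    (d : Fin n →₀ ℕ) :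
    ∃ β ∈ B0, π (f.coeff d) =
        β * ∏ k, u k ^ (w k + (∑ l, (d l : ℤ) * v (some l) k) / 2) ∧
      (f.coeff d = 0 → β = 0) ∧ (β ≠ 0 → ∀ k, (2 : ℤ) ∣ ∑ l, (d l : ℤ) * v (some l) k) := by
  by_cases h0 : π (f.coeff d) = 0
  · refine ⟨0, zero_mem _, ?_, fun _ => rfl, fun h => absurd rfl h⟩
    rw [h0, zero_mul]
  have hd0 : f.coeff d ≠ 0 := by
    intro h
    rw [h, map_zero] at h0
    exact h0 rfl
  have hdeg : d.degree ≤ 2 := by
    have h1 := MvPolynomial.le_totalDegree (MvPolynomial.mem_support_iff.2 hd0)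
    exact le_trans h1 hf
  obtain ⟨i, j, rfl⟩ := QF_two d hdeg
  have hh := hH (QF_eo i + QF_eo j)
  rw [sub_sub, QF_wt, ← sub_sub] at hh
  rcases hform _ _ hh with h | ⟨ζ, hζ, β, hβ, hb⟩
  · exact absurd h h0
  have e := hvc i j ζ hζ
  refine ⟨β, hβ, ?_, fun h => absurd h hd0, fun _ k => ?_⟩
  · rw [hb]
    congr 1
    refine Finset.prod_congr rfl fun k _ => ?_
    rw [QF2a_sum v hv i j k]
    congr 1
    have := e k
    omega
  · rw [QF2a_sum v hv i j k]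
    have := e k
    omega

theorem QF2a_mon {K : Type} [Field K] {ρ : ℕ} (V : Subring K) (u : Fin ρ → K) (uV : Fin ρ → Vˣ)
    (h : ∀ k, (((uV k : Vˣ) : V) : K) = u k) (a : Fin ρ → ℤ) :
    (((mon uV a : Vˣ) : V) : K) = ∏ k, u k ^ a k := by
  let φ : Vˣ →* Kˣ := Units.map (V.subtype : V →* K)
  have hφ : ∀ x : Vˣ, ((x : V) : K) = ((φ x : Kˣ) : K) := fun x => rfl
  unfold mon
  rw [hφ, map_prod, Units.coe_prod]
  refine Finset.prod_congr rfl fun k _ => ?_
  rw [map_zpow, Units.val_zpow_eq_zpow_val, ← h k]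
  rfl

theorem QF2a_units {K : Type} [Field K] {ρ : ℕ} (V : Subring K) (u : Fin ρ → K)
    (h0 : ∀ i, u i ≠ 0) (h1 : ∀ i, u i ∈ V) (h2 : ∀ i, (u i)⁻¹ ∈ V) :
    ∃ uV : Fin ρ → Vˣ, ∀ k, (((uV k : Vˣ) : V) : K) = u k :=
  ⟨fun k => ⟨⟨u k, h1 k⟩, ⟨(u k)⁻¹, h2 k⟩,
    Subtype.ext (mul_inv_cancel₀ (h0 k)), Subtype.ext (inv_mul_cancel₀ (h0 k))⟩, fun _ => rfl⟩

theorem QF2a_lau {K : Type} [Field K] {ρ : ℕ} (B1 V : Subring K) (u : Fin ρ → K)
    (hL : Lau B1 u V) (uV : Fin ρ → Vˣ) (h : ∀ k, (((uV k : Vˣ) : V) : K) = u k) :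
    IsLauR (Subring.inclusion hL.le) uV := by
  have hev : ∀ p : MvPolynomial (Fin ρ) B1,
      ((MvPolynomial.eval₂ (Subring.inclusion hL.le) (fun k => ((uV k : Vˣ) : V)) p : V) : K) =
        MvPolynomial.eval₂ B1.subtype u p := by
    intro p
    have h1 := MvPolynomial.eval₂_comp_left V.subtype (Subring.inclusion hL.le)
      (fun k => ((uV k : Vˣ) : V)) p
    have h2 : V.subtype.comp (Subring.inclusion hL.le) = B1.subtype := RingHom.ext fun _ => rfl
    have h3 : (V.subtype ∘ fun k => ((uV k : Vˣ) : V)) = u := funext h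
    rw [h2, h3] at h1
    exact h1
  refine ⟨fun p q hpq => ?_, fun x => ?_⟩
  · apply hL.inj
    show MvPolynomial.eval₂ B1.subtype u p = MvPolynomial.eval₂ B1.subtype u q
    rw [← hev p, ← hev q]
    exact congrArg Subtype.val hpq
  · obtain ⟨N, p, hp⟩ := hL.frac x x.2
    refine ⟨N, p, Subtype.ext ?_⟩
    rw [hev p, ← hp]
    have h4 : (((∏ k, ((uV k : Vˣ) : V) : V)) : K) = ∏ i, u i := by
      have h5 : (((∏ k, ((uV k : Vˣ) : V) : V)) : K) = V.subtype (∏ k, ((uV k : Vˣ) : V)) := rfl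
      rw [h5, map_prod]
      exact Finset.prod_congr rfl fun k _ => h k
    rw [← h4]
    rfl

theorem thm_QF2a (hC : St_QC2) (hG : St_TWG) : St_QF2 := by
  intro ι _ _ _ A _ _ 𝒜 _ K _ π hker hKr n f γ ω α hf hH
  obtain ⟨ρ, m, u, B0, hfg, hlin, hB0K, hfrac, hform, hlau⟩ := thm_QS ι A 𝒜 K π hker
  obtain ⟨w, v, hv, hvc⟩ := hC ι ρ n m hlin γ ω α
  choose β hβ hβ1 hβ2 hβ3 using QF2a_coeff 𝒜 π m u B0 hform f γ ω α hf hH w v hv hvc
  obtain ⟨f0, hf0, hf0d⟩ := QF_poly f (fun d => (⟨β d, hβ d⟩ : B0.toSubring))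
    (fun d hd => Subtype.ext (hβ2 d hd))
  have hpar : Par (fun l => v (some l)) f0 := by
    intro d hd k
    refine hβ3 d (fun h => hd ?_) k
    rw [hf0]
    exact Subtype.ext h
  -- the instances
  haveI h1 : Algebra.FiniteType ℤ B0 := (Subalgebra.fg_iff_finiteType B0).1 hfg
  haveI h2 : Algebra.FiniteType ℤ B0.toSubring := by
    let e : B0 →+* B0.toSubring :=
      { toFun := fun b => ⟨b.1, b.2⟩
        map_one' := rfl
        map_mul' := fun _ _ => rfl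
        map_zero' := rfl
        map_add' := fun _ _ => rfl }
    exact Algebra.FiniteType.of_surjective (RingHom.toIntAlgHom e) (fun b => ⟨⟨b.1, b.2⟩, rfl⟩)
  let ψ : B0.toSubring →+* K0 𝒜 π :=
    B0.toSubring.subtype.codRestrict (K0 𝒜 π) (fun b => hB0K _ b.2)
  letI : Algebra B0.toSubring (K0 𝒜 π) := ψ.toAlgebra
  have hψ : ∀ b : B0.toSubring, ((algebraMap B0.toSubring (K0 𝒜 π) b : K0 𝒜 π) : K) = (b : K) :=
    fun b => rfl
  haveI : IsFractionRing B0.toSubring (K0 𝒜 π) := by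
    refine (isLocalization_iff _ _).2 ⟨?_, ?_, ?_⟩
    · rintro ⟨b, hb⟩
      rw [isUnit_iff_ne_zero]
      intro h0
      have h3 : (b : K) = 0 := by
        have := congrArg (Subtype.val) h0
        exact this
      exact nonZeroDivisors.ne_zero hb (Subtype.ext h3)
    · rintro ⟨y, hy⟩
      obtain ⟨a, ha, b, hb, hb0, hab⟩ := hfrac y hy
      refine ⟨(⟨a, ha⟩, ⟨⟨b, hb⟩, ?_⟩), ?_⟩
      · rw [mem_nonZeroDivisors_iff_ne_zero]
        intro h0
        exact hb0 (congrArg (Subtype.val) h0)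
      · exact Subtype.ext hab
    · intro x y hxy
      refine ⟨1, ?_⟩
      have h3 : (x : K) = (y : K) := by
        rw [← hψ x, ← hψ y, hxy]
      rw [Subtype.ext h3]
  obtain ⟨x, hx, hFin⟩ := hG B0.toSubring (K0 𝒜 π) hKr n ρ (fun l => v (some l)) f0
    (hf0d.trans hf) hpar
  have hxK : (x : K) ≠ 0 := fun h0 => hx (Subtype.ext h0)
  obtain ⟨s, hsh, hs, hL⟩ := hlau x x.2 hxK
  refine ⟨s, hsh, hs, ?_⟩
  have h4 : ∀ r, B0.toSubring.subtype r ∈ aw B0.toSubring (x : K) x.2 := fun r => le_aw _ r.2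
  letI : Algebra B0.toSubring (aw B0.toSubring (x : K) x.2) :=
    (B0.toSubring.subtype.codRestrict _ h4).toAlgebra
  haveI : IsLocalization.Away x (aw B0.toSubring (x : K) x.2) := by
    apply isLocAway B0.toSubring.subtype Subtype.val_injective x hxK _ h4
    · exact inv_mem_aw _ hxK
    · rintro v ⟨k, hk⟩
      exact ⟨k, ⟨_, hk⟩, rfl⟩
  obtain ⟨uV, huV⟩ := QF2a_units (aw π.range (π s) ⟨s, rfl⟩) u hL.ne hL.mem hL.inv
  have hF := hFin (aw B0.toSubring (x : K) x.2) (aw π.range (π s) ⟨s, rfl⟩)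
    (Subring.inclusion hL.le) uV (QF2a_lau _ _ u hL uV huV)
  have hmon := QF2a_mon (aw π.range (π s) ⟨s, rfl⟩) u uV huV
  have heq : MvPolynomial.map (awHom π s) f =
      MvPolynomial.C ((mon uV w : (aw π.range (π s) ⟨s, rfl⟩)ˣ) : aw π.range (π s) ⟨s, rfl⟩) *
        twP (Subring.inclusion hL.le) uV (fun l => v (some l))
          (MvPolynomial.map (algebraMap B0.toSubring (aw B0.toSubring (x : K) x.2)) f0) := by
    ext d
    rw [MvPolynomial.coeff_map, MvPolynomial.coeff_C_mul, coeff_twP, MvPolynomial.coeff_map, hf0]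
    have goal : π (f.coeff d) = (∏ k, u k ^ w k) *
        (β d * ∏ k, u k ^ ((∑ l, (d l : ℤ) * v (some l) k) / 2)) := by
      rw [hβ1 d, mul_left_comm, ← Finset.prod_mul_distrib]
      congr 1
      refine Finset.prod_congr rfl fun k _ => ?_
      rw [← zpow_add₀ (hL.ne k)]
    rw [← hmon w, ← hmon (fun k => (∑ l, (d l : ℤ) * v (some l) k) / 2)] at goal
    exact goal
  rw [heq, Ideal.span_singleton_mul_left_unit]
  · exact hF
  · exact (Units.isUnit _).map MvPolynomial.C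

end Pool.Agent.QTG
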