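import Pool.Agent.QTG.StSk
import Mathlib.Algebra.SkewMonoidAlgebra.Basic

/-!
# QTG, module SK0

Statement and proof: see `St_SK0` in `Pool/Agent/QTG/StSk.lean`.
-/

set_option autoImplicit false

namespace Pool.Agent.QTG

open Function MvPolynomial TensorProduct Pool.Agent.TQF Pool.Agent.Helper67.Bass
  Pool.Agent.Helper11

namespace SK0

open SkewMonoidAlgebra

section

variable {R : Type} [Ring R] (σ : R ≃+* R)

/-- the action of `ℤ` through the powers of `σ`. -/
@[reducible] def act : MulSemiringAction (Multiplicative ℤ) R :=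
  MulSemiringAction.compHom R (zpowersHom (R ≃+* R) σ)

theorem act_one (r : R) :
    (letI := act σ; (Multiplicative.ofAdd (1 : ℤ)) • r = σ r) := by
  let _ := act σ
  change ((zpowersHom (R ≃+* R) σ) (Multiplicative.ofAdd (1 : ℤ))) r = σ r
  simp

end

end SK0

open SkewMonoidAlgebra in
theorem thm_SK0 : St_SK0 := by
  intro R _ σ
  let act : MulSemiringAction (Multiplicative ℤ) R := SK0.act σ
  have hact : ∀ r : R, (Multiplicative.ofAdd (1 : ℤ)) • r = σ r := SK0.act_one σ
  let T := SkewMonoidAlgebra R (Multiplicative ℤ)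
  let j : R →+* T :=
    { toFun := fun r => single 1 r
      map_one' := rfl
      map_mul' := fun a b => by
        rw [single_mul_single, one_smul, one_mul]
      map_zero' := single_zero _
      map_add' := fun a b => single_add _ _ _ }
  let τ : Tˣ :=
    { val := single (Multiplicative.ofAdd 1) 1
      inv := single (Multiplicative.ofAdd (-1)) 1
      val_inv := by
        rw [single_mul_single, smul_one, mul_one, ← ofAdd_add]
        rfl
      inv_val := by
        rw [single_mul_single, smul_one, mul_one, ← ofAdd_add]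
        rfl }
  have hτ : ((τ : T)) = single (Multiplicative.ofAdd 1) 1 := rfl
  have hτi : (((τ⁻¹ : Tˣ) : T)) = single (Multiplicative.ofAdd (-1)) 1 := rfl
  have hj : ∀ r, j r = single 1 r := fun _ => rfl
  have hpn : ∀ n : ℕ, ((τ ^ n : Tˣ) : T) = single (Multiplicative.ofAdd (n : ℤ)) 1 := by
    intro n
    induction n with
    | zero => rfl
    | succ n ih =>
      rw [pow_succ, Units.val_mul, ih, hτ, single_mul_single, smul_one, mul_one, ← ofAdd_add]
      push_cast
      rfl
  have hpi : ∀ n : ℕ, ((τ⁻¹ ^ n : Tˣ) : T) = single (Multiplicative.ofAdd (-(n : ℤ))) 1 := by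
    intro n
    induction n with
    | zero => rfl
    | succ n ih =>
      rw [pow_succ, Units.val_mul, ih, hτi, single_mul_single, smul_one, mul_one, ← ofAdd_add]
      congr 2
      push_cast
      ring
  have hpz : ∀ k : ℤ, ((τ ^ k : Tˣ) : T) = single (Multiplicative.ofAdd k) 1 := by
    intro k
    obtain ⟨n, rfl | rfl⟩ := k.eq_nat_or_neg
    · rw [zpow_natCast]; exact hpn n
    · rw [zpow_neg, ← inv_zpow, zpow_natCast]; exact hpi n
  have hjt : ∀ (k : ℤ) (r : R), j r * ((τ ^ k : Tˣ) : T) = single (Multiplicative.ofAdd k) r := by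
    intro k r
    rw [hpz, hj, single_mul_single, smul_one, mul_one, one_mul]
  have hsum : ∀ c : ℤ →₀ R, (c.sum fun k r => j r * ((τ ^ k : Tˣ) : T)) =
      ofCoeff (c.mapDomain Multiplicative.ofAdd) := by
    intro c
    induction c using Finsupp.induction_linear with
    | zero => simp [ofCoeff_zero]
    | add f g hf hg =>
      rw [Finsupp.sum_add_index', hf, hg, Finsupp.mapDomain_add, ofCoeff_add]
      · intro a; simp
      · intro a b₁ b₂; rw [map_add, add_mul]
    | single a b =>
      rw [Finsupp.sum_single_index (by simp), hjt, Finsupp.mapDomain_single, ofCoeff_single]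
  refine ⟨T, inferInstance, j, τ, ⟨?_, ?_, ?_⟩⟩
  · intro r
    rw [hτ, hj, hj, single_mul_single, single_mul_single, hact, smul_one, mul_one, one_mul,
      mul_one, one_mul]
  · intro c hc
    rw [hsum] at hc
    have h1 : c.mapDomain Multiplicative.ofAdd = 0 := ofCoeff_eq_zero.1 hc
    exact Finsupp.mapDomain_injective Multiplicative.ofAdd.injective
      (h1.trans Finsupp.mapDomain_zero.symm)
  · intro t
    refine ⟨t.coeff.mapDomain Multiplicative.toAdd, ?_⟩
    rw [hsum, ← Finsupp.mapDomain_comp]
    have : (⇑Multiplicative.ofAdd ∘ ⇑Multiplicative.toAdd : Multiplicative ℤ → Multiplicative ℤ)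
        = id := by
      funext x; rfl
    rw [this, Finsupp.mapDomain_id]

end Pool.Agent.QTG
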