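import Pool.Agent.QTG.StSk

/-!
# QTG, module SK1

Statement and proof: see `St_SK1` in `Pool/Agent/QTG/StSk.lean`.
-/

set_option autoImplicit false

namespace Pool.Agent.QTG

open Function MvPolynomial TensorProduct Pool.Agent.TQF Pool.Agent.Helper67.Bass
  Pool.Agent.Helper11

/-! ### the operators on `ℤ →₀ N` -/

section ops

variable {R T : Type} [Ring R] [Ring T] (σ : R ≃+* R)

/-- the powers of `σ` -/
private def SK1_s (k : ℤ) : R ≃+* R := (σ : RingAut R) ^ k

private theorem SK1_s0 (r : R) : SK1_s σ 0 r = r := by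
  unfold SK1_s
  rw [zpow_zero]
  rfl

private theorem SK1_s_add (k l : ℤ) (r : R) : SK1_s σ (k + l) r = SK1_s σ k (SK1_s σ l r) := by
  unfold SK1_s
  rw [zpow_add]
  rfl

private theorem SK1_s1 (r : R) : SK1_s σ 1 r = σ r := by
  unfold SK1_s
  rw [zpow_one]

private theorem SK1_sn1 (r : R) : SK1_s σ (-1) r = σ.symm r := by
  rw [RingEquiv.eq_symm_apply, ← SK1_s1, ← SK1_s_add, add_neg_cancel, SK1_s0]

variable (N : Type) [AddCommGroup N] [Module R N]

/-- the action of an element of `R` -/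
private noncomputable def SK1_jf (r : R) : (ℤ →₀ N) →+ (ℤ →₀ N) :=
  Finsupp.liftAddHom fun k => (Finsupp.singleAddHom k).comp
    (DistribSMul.toAddMonoidHom N (SK1_s σ (-k) r))

private theorem SK1_jf_single (r : R) (k : ℤ) (n : N) :
    SK1_jf σ N r (Finsupp.single k n) = Finsupp.single k (SK1_s σ (-k) r • n) := by
  unfold SK1_jf
  rw [Finsupp.liftAddHom_apply_single]
  rfl

/-- the action of `R` -/
private noncomputable def SK1_j : R →+* AddMonoid.End (ℤ →₀ N) where
  toFun r := SK1_jf σ N r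
  map_one' := by
    refine Finsupp.addHom_ext fun k n => ?_
    show SK1_jf σ N 1 (Finsupp.single k n) = Finsupp.single k n
    rw [SK1_jf_single, map_one, one_smul]
  map_mul' r s := by
    refine Finsupp.addHom_ext fun k n => ?_
    show SK1_jf σ N (r * s) (Finsupp.single k n) =
      SK1_jf σ N r (SK1_jf σ N s (Finsupp.single k n))
    rw [SK1_jf_single, SK1_jf_single, SK1_jf_single, map_mul, mul_smul]
  map_zero' := by
    refine Finsupp.addHom_ext fun k n => ?_
    show SK1_jf σ N 0 (Finsupp.single k n) = 0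
    rw [SK1_jf_single, map_zero, zero_smul, Finsupp.single_zero]
  map_add' r s := by
    refine Finsupp.addHom_ext fun k n => ?_
    show SK1_jf σ N (r + s) (Finsupp.single k n) =
      SK1_jf σ N r (Finsupp.single k n) + SK1_jf σ N s (Finsupp.single k n)
    rw [SK1_jf_single, SK1_jf_single, SK1_jf_single, map_add, add_smul, Finsupp.single_add]

private theorem SK1_j_single (r : R) (k : ℤ) (n : N) :
    SK1_j σ N r (Finsupp.single k n) = Finsupp.single k (SK1_s σ (-k) r • n) :=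
  SK1_jf_single σ N r k n

/-- the shift -/
private noncomputable def SK1_t (N : Type) [AddCommGroup N] : (AddMonoid.End (ℤ →₀ N))ˣ where
  val := (Finsupp.domCongr (Equiv.addRight (1 : ℤ))).toAddMonoidHom
  inv := (Finsupp.domCongr (Equiv.addRight (1 : ℤ)).symm).toAddMonoidHom
  val_inv := by
    refine Finsupp.addHom_ext fun k n => ?_
    show Finsupp.equivMapDomain (Equiv.addRight (1 : ℤ)) (Finsupp.equivMapDomain
      (Equiv.addRight (1 : ℤ)).symm (Finsupp.single k n)) = Finsupp.single k n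
    rw [Finsupp.equivMapDomain_single, Finsupp.equivMapDomain_single, Equiv.apply_symm_apply]
  inv_val := by
    refine Finsupp.addHom_ext fun k n => ?_
    show Finsupp.equivMapDomain (Equiv.addRight (1 : ℤ)).symm (Finsupp.equivMapDomain
      (Equiv.addRight (1 : ℤ)) (Finsupp.single k n)) = Finsupp.single k n
    rw [Finsupp.equivMapDomain_single, Finsupp.equivMapDomain_single, Equiv.symm_apply_apply]

private theorem SK1_t_single (N : Type) [AddCommGroup N] (k : ℤ) (n : N) :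
    (SK1_t N : AddMonoid.End (ℤ →₀ N)) (Finsupp.single k n) = Finsupp.single (k + 1) n := by
  show Finsupp.equivMapDomain (Equiv.addRight (1 : ℤ)) (Finsupp.single k n) = _
  rw [Finsupp.equivMapDomain_single]
  rfl

/-- the action of `T` on `ℤ →₀ N` -/
private structure SK1_ok (j : R →+* T) (τ : Tˣ) (φ : T →+* AddMonoid.End (ℤ →₀ N)) : Prop where
  hj : ∀ r, φ (j r) = SK1_j σ N r
  ht : φ τ = SK1_t N

private theorem SK1_ex (hL : St_SKL) {j : R →+* T} {τ : Tˣ} (h : IsSkL σ j τ) :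
    ∃ φ : T →+* AddMonoid.End (ℤ →₀ N), SK1_ok σ N j τ φ := by
  obtain ⟨φ, h1, h2⟩ := (hL R T σ j τ h (AddMonoid.End (ℤ →₀ N))).1 (SK1_j σ N) (SK1_t N) (by
    intro r
    refine Finsupp.addHom_ext fun k n => ?_
    show (SK1_t N : AddMonoid.End (ℤ →₀ N)) (SK1_j σ N r (Finsupp.single k n)) =
      SK1_j σ N (σ r) ((SK1_t N : AddMonoid.End (ℤ →₀ N)) (Finsupp.single k n))
    have h1 : SK1_s σ (-(k + 1)) (σ r) = SK1_s σ (-k) r := by
      rw [← SK1_s1 σ r, ← SK1_s_add]
      congr 1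
      congr 1
      ring
    rw [SK1_j_single, SK1_t_single, SK1_t_single, SK1_j_single, h1])
  exact ⟨φ, ⟨h1, h2⟩⟩

end ops

/-! ### the induced modules -/

section ind

variable {R T : Type} [Ring R] [Ring T] {σ : R ≃+* R} {j : R →+* T} {τ : Tˣ}

/-- `ℤ →₀ N` with the module structure given by `φ` -/
private def SK1_I {N : Type} [AddCommGroup N] (_φ : T →+* AddMonoid.End (ℤ →₀ N)) : Type := ℤ →₀ N

private noncomputable instance SK1_I_acg {N : Type} [AddCommGroup N]
    (φ : T →+* AddMonoid.End (ℤ →₀ N)) : AddCommGroup (SK1_I φ) :=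
  inferInstanceAs (AddCommGroup (ℤ →₀ N))

private noncomputable instance SK1_I_mod {N : Type} [AddCommGroup N]
    (φ : T →+* AddMonoid.End (ℤ →₀ N)) : Module T (SK1_I φ) :=
  Module.compHom (ℤ →₀ N) φ

/-- `τ ^ k ⊗ n` -/
private noncomputable def SK1_e {N : Type} [AddCommGroup N] (φ : T →+* AddMonoid.End (ℤ →₀ N))
    (k : ℤ) : N →+ SK1_I φ := Finsupp.singleAddHom k

/-- additive maps out of `SK1_I φ` agree if they agree on `τ ^ k ⊗ n` -/
private theorem SK1_ext {N : Type} [AddCommGroup N] {φ : T →+* AddMonoid.End (ℤ →₀ N)} {Z : Type}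
    [AddCommGroup Z] {f g : SK1_I φ →+ Z} (hfg : ∀ k n, f (SK1_e φ k n) = g (SK1_e φ k n)) :
    f = g :=
  Finsupp.addHom_ext (N := Z) fun k n => hfg k n

/-- the coordinates -/
private def SK1_c {N : Type} [AddCommGroup N] {φ : T →+* AddMonoid.End (ℤ →₀ N)} (k : ℤ) :
    SK1_I φ →+ N := Finsupp.applyAddHom k

private theorem SK1_ce {N : Type} [AddCommGroup N] {φ : T →+* AddMonoid.End (ℤ →₀ N)} (k l : ℤ)
    (n : N) : SK1_c k (SK1_e φ l n) = if l = k then n else 0 := by
  show (Finsupp.single l n : ℤ →₀ N) k = _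
  rw [Finsupp.single_apply]

private theorem SK1_zero {N : Type} [AddCommGroup N] {φ : T →+* AddMonoid.End (ℤ →₀ N)}
    {x : SK1_I φ} (h : ∀ k, SK1_c k x = 0) : x = 0 :=
  Finsupp.ext (M := N) h

private theorem SK1_ind {N : Type} [AddCommGroup N] {φ : T →+* AddMonoid.End (ℤ →₀ N)}
    {Q : SK1_I φ → Prop} (x : SK1_I φ) (h0 : Q 0) (ha : ∀ x y, Q x → Q y → Q (x + y))
    (hs : ∀ k n, Q (SK1_e φ k n)) : Q x :=
  Finsupp.induction_linear (M := N) (motive := Q) x h0 ha hs

variable {N : Type} [AddCommGroup N] [Module R N] {φ : T →+* AddMonoid.End (ℤ →₀ N)}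

private theorem SK1_sj (hφ : SK1_ok σ N j τ φ) (r : R) (k : ℤ) (n : N) :
    j r • SK1_e φ k n = SK1_e φ k (SK1_s σ (-k) r • n) := by
  show φ (j r) (Finsupp.single k n) = Finsupp.single k (SK1_s σ (-k) r • n)
  rw [hφ.hj, SK1_j_single]

private theorem SK1_st (hφ : SK1_ok σ N j τ φ) (k : ℤ) (n : N) :
    τ • SK1_e φ k n = SK1_e φ (k + 1) n := by
  show φ τ (Finsupp.single k n) = Finsupp.single (k + 1) n
  rw [hφ.ht, SK1_t_single]

private theorem SK1_stz (hφ : SK1_ok σ N j τ φ) (m k : ℤ) (n : N) :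
    (τ ^ m) • SK1_e φ k n = SK1_e φ (k + m) n := by
  induction m using Int.induction_on with
  | zero => rw [zpow_zero, one_smul, add_zero]
  | succ i ih =>
    have h1 : k + ((i : ℤ) + 1) = k + i + 1 := by ring
    rw [h1, add_comm (i : ℤ) 1, zpow_add, zpow_one, mul_smul, ih, SK1_st hφ]
  | pred i ih =>
    rw [← smul_left_cancel_iff τ, ← mul_smul, ← zpow_one_add, SK1_st hφ]
    have h1 : 1 + (-(i : ℤ) - 1) = -i := by ring
    have h2 : k + (-(i : ℤ) - 1) + 1 = k + -i := by ring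
    rw [h1, h2, ih]

/-- additive maps which commute with `j r` and `τ` are `T`-linear -/
private theorem SK1_lin (h : IsSkL σ j τ) {A B : Type} [AddCommGroup A] [Module T A]
    [AddCommGroup B] [Module T B] (f : A →+ B) (hj : ∀ r x, f (j r • x) = j r • f x)
    (ht : ∀ x, f (τ • x) = τ • f x) (t : T) (x : A) : f (t • x) = t • f x := by
  have hz : ∀ (k : ℤ) x, f ((τ ^ k) • x) = (τ ^ k) • f x := by
    intro k x
    induction k using Int.induction_on generalizing x with
    | zero => rw [zpow_zero, one_smul, one_smul]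
    | succ i ih => rw [zpow_add, zpow_one, mul_smul, mul_smul, ih, ht]
    | pred i ih =>
      have h1 : f (τ⁻¹ • x) = τ⁻¹ • f x := by
        rw [eq_inv_smul_iff, ← ht, smul_inv_smul]
      rw [sub_eq_add_neg, zpow_add, zpow_neg_one, mul_smul, mul_smul, ih, h1]
  obtain ⟨c, rfl⟩ := h.span t
  unfold Finsupp.sum
  rw [Finset.sum_smul, Finset.sum_smul, map_sum]
  refine Finset.sum_congr rfl fun k _ => ?_
  rw [mul_smul, mul_smul, hj]
  congr 1
  exact hz k x

/-- commutation with the powers of `τ` -/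
private theorem SK1_comm (h : IsSkL σ j τ) (k : ℤ) (r : R) :
    ((τ ^ k : Tˣ) : T) * j r = j (SK1_s σ k r) * ((τ ^ k : Tˣ) : T) := by
  induction k using Int.induction_on generalizing r with
  | zero => rw [zpow_zero, Units.val_one, one_mul, mul_one, SK1_s0]
  | succ i ih =>
    rw [zpow_add, zpow_one, Units.val_mul, mul_assoc, h.comm, ← mul_assoc, ih, mul_assoc,
      SK1_s_add, SK1_s1]
  | pred i ih =>
    have h1 : ((τ⁻¹ : Tˣ) : T) * j r = j (SK1_s σ (-1) r) * ((τ⁻¹ : Tˣ) : T) := by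
      rw [Units.inv_mul_eq_iff_eq_mul, ← mul_assoc, h.comm, SK1_sn1, RingEquiv.apply_symm_apply,
        mul_assoc, Units.mul_inv, mul_one]
    rw [sub_eq_add_neg, SK1_s_add, zpow_add, zpow_neg τ 1, zpow_one, Units.val_mul, mul_assoc, h1,
      ← mul_assoc, ih, mul_assoc]

/-- the universal property -/
private noncomputable def SK1_lf (φ : T →+* AddMonoid.End (ℤ →₀ N)) (τ : Tˣ) {Z : Type}
    [AddCommGroup Z] [Module T Z] (f : N →+ Z) : SK1_I φ →+ Z :=
  Finsupp.liftAddHom fun k => (DistribSMul.toAddMonoidHom Z (τ ^ k)).comp f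

private theorem SK1_lf_e {Z : Type} [AddCommGroup Z] [Module T Z] (f : N →+ Z) (k : ℤ) (n : N) :
    SK1_lf φ τ f (SK1_e φ k n) = (τ ^ k) • f n := by
  unfold SK1_lf
  show (Finsupp.liftAddHom fun k => (DistribSMul.toAddMonoidHom Z (τ ^ k)).comp f)
    (Finsupp.single k n) = _
  rw [Finsupp.liftAddHom_apply_single]
  rfl

private noncomputable def SK1_lift (h : IsSkL σ j τ) (hφ : SK1_ok σ N j τ φ) {Z : Type}
    [AddCommGroup Z] [Module T Z] (f : N →+ Z) (hf : ∀ (r : R) n, f (r • n) = j r • f n) :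
    SK1_I φ →ₗ[T] Z where
  toFun := SK1_lf φ τ f
  map_add' := map_add _
  map_smul' := by
    refine SK1_lin h _ ?_ ?_
    · intro r x
      refine SK1_ind (Q := fun x => SK1_lf φ τ f (j r • x) = j r • SK1_lf φ τ f x) x ?_ ?_ ?_
      · rw [smul_zero, map_zero, smul_zero]
      · intro x y hx hy
        rw [smul_add, map_add, hx, hy, map_add, smul_add]
      · intro k n
        rw [SK1_sj hφ, SK1_lf_e, SK1_lf_e, hf, Units.smul_def, Units.smul_def, ← mul_smul,
          ← mul_smul, SK1_comm h, ← SK1_s_add, add_neg_cancel, SK1_s0]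
    · intro x
      refine SK1_ind (Q := fun x => SK1_lf φ τ f (τ • x) = τ • SK1_lf φ τ f x) x ?_ ?_ ?_
      · rw [smul_zero, map_zero, smul_zero]
      · intro x y hx hy
        rw [smul_add, map_add, hx, hy, map_add, smul_add]
      · intro k n
        rw [SK1_st hφ, SK1_lf_e, SK1_lf_e, ← mul_smul, ← zpow_one_add, add_comm]

private theorem SK1_lift_e (h : IsSkL σ j τ) (hφ : SK1_ok σ N j τ φ) {Z : Type}
    [AddCommGroup Z] [Module T Z] (f : N →+ Z) (hf : ∀ (r : R) n, f (r • n) = j r • f n) (k : ℤ)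
    (n : N) : SK1_lift h hφ f hf (SK1_e φ k n) = (τ ^ k) • f n :=
  SK1_lf_e f k n

/-- finite generation -/
private theorem SK1_fin (hφ : SK1_ok σ N j τ φ) [Module.Finite R N] :
    Module.Finite T (SK1_I φ) := by
  classical
  obtain ⟨S, hS⟩ := (Module.Finite.fg_top : (⊤ : Submodule R N).FG)
  refine ⟨⟨S.image (SK1_e φ 0), ?_⟩⟩
  rw [eq_top_iff]
  intro x _
  have h0 : ∀ n : N, SK1_e φ 0 n ∈ Submodule.span T (S.image (SK1_e φ 0) : Set (SK1_I φ)) := by
    intro n
    have hn : n ∈ Submodule.span R (S : Set N) := by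
      rw [hS]
      exact Submodule.mem_top
    induction hn using Submodule.span_induction with
    | mem n hn =>
      apply Submodule.subset_span
      rw [Finset.coe_image]
      exact ⟨n, hn, rfl⟩
    | zero =>
      rw [map_zero]
      exact Submodule.zero_mem _
    | add n m _ _ hn hm =>
      rw [map_add]
      exact Submodule.add_mem _ hn hm
    | smul r n _ hn =>
      have h1 := SK1_sj hφ r 0 n
      rw [neg_zero, SK1_s0] at h1
      rw [← h1]
      exact Submodule.smul_mem _ _ hn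
  refine SK1_ind x (Submodule.zero_mem _) (fun x y hx hy => Submodule.add_mem _ hx hy) ?_
  intro k n
  have h1 := SK1_stz hφ k 0 n
  rw [zero_add] at h1
  rw [← h1]
  exact Submodule.smul_mem _ _ (h0 n)

end ind

/-! ### functoriality -/

section functor

variable {R T : Type} [Ring R] [Ring T] {σ : R ≃+* R} {j : R →+* T} {τ : Tˣ}

private theorem SK1_map_aux {X Y : Type} [AddCommGroup X] [Module R X]
    [AddCommGroup Y] [Module R Y] {ψ : T →+* AddMonoid.End (ℤ →₀ Y)} (hψ : SK1_ok σ Y j τ ψ)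
    (f : X →ₗ[R] Y) (r : R) (n : X) : ((SK1_e ψ 0).comp f.toAddMonoidHom) (r • n) =
      j r • ((SK1_e ψ 0).comp f.toAddMonoidHom) n := by
  show SK1_e ψ 0 (f (r • n)) = j r • SK1_e ψ 0 (f n)
  rw [SK1_sj hψ, neg_zero, SK1_s0, map_smul]

/-- the induced map -/
private theorem SK1_map (h : IsSkL σ j τ) {X Y : Type} [AddCommGroup X] [Module R X]
    [AddCommGroup Y] [Module R Y] {φ : T →+* AddMonoid.End (ℤ →₀ X)}
    {ψ : T →+* AddMonoid.End (ℤ →₀ Y)} (hφ : SK1_ok σ X j τ φ) (hψ : SK1_ok σ Y j τ ψ)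
    (f : X →ₗ[R] Y) : ∃ F : SK1_I φ →ₗ[T] SK1_I ψ, ∀ x k, SK1_c k (F x) = f (SK1_c k x) := by
  refine ⟨SK1_lift h hφ ((SK1_e ψ 0).comp f.toAddMonoidHom) (SK1_map_aux hψ f), ?_⟩
  · intro x k
    refine SK1_ind (Q := fun x => SK1_c k (SK1_lift h hφ ((SK1_e ψ 0).comp f.toAddMonoidHom)
      (SK1_map_aux hψ f) x) = f (SK1_c k x)) x ?_ ?_ ?_
    · rw [map_zero, map_zero, map_zero, map_zero]
    · intro x y hx hy
      rw [map_add, map_add, hx, hy, map_add, map_add]
    · intro l n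
      rw [SK1_lift_e]
      show SK1_c k ((τ ^ l) • SK1_e ψ 0 (f n)) = _
      rw [SK1_stz hψ, SK1_ce, SK1_ce, zero_add]
      split_ifs
      · rfl
      · rw [map_zero]

/-- short exact sequences -/
private theorem SK1_ses (h : IsSkL σ j τ) {X Y Z : Type} [AddCommGroup X] [Module R X]
    [AddCommGroup Y] [Module R Y] [AddCommGroup Z] [Module R Z]
    {φ : T →+* AddMonoid.End (ℤ →₀ X)} {ψ : T →+* AddMonoid.End (ℤ →₀ Y)}
    {χ : T →+* AddMonoid.End (ℤ →₀ Z)} (hφ : SK1_ok σ X j τ φ) (hψ : SK1_ok σ Y j τ ψ)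
    (hχ : SK1_ok σ Z j τ χ) (f : X →ₗ[R] Y) (g : Y →ₗ[R] Z) (hf : Injective f)
    (hg : Surjective g) (hfg : Exact f g) :
    ∃ (F : SK1_I φ →ₗ[T] SK1_I ψ) (G : SK1_I ψ →ₗ[T] SK1_I χ), Injective F ∧ Surjective G ∧
      Exact F G := by
  obtain ⟨F, hF⟩ := SK1_map h hφ hψ f
  obtain ⟨G, hG⟩ := SK1_map h hψ hχ g
  refine ⟨F, G, ?_, ?_, ?_⟩
  · rw [injective_iff_map_eq_zero]
    intro x hx
    refine SK1_zero fun k => hf ?_
    rw [← hF, hx, map_zero, map_zero]
  · intro z
    refine SK1_ind (Q := fun z => ∃ y, G y = z) z ⟨0, map_zero _⟩ ?_ ?_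
    · rintro _ _ ⟨x, rfl⟩ ⟨y, rfl⟩
      exact ⟨x + y, map_add _ _ _⟩
    · intro k n
      obtain ⟨m, rfl⟩ := hg n
      refine ⟨SK1_e ψ k m, ?_⟩
      rw [← sub_eq_zero]
      refine SK1_zero fun l => ?_
      rw [map_sub, hG, SK1_ce, SK1_ce]
      split_ifs
      · rw [sub_self]
      · rw [map_zero, sub_self]
  · intro y
    constructor
    · intro hy
      have h1 : ∀ k, ∃ x, f x = SK1_c k y := by
        intro k
        refine (hfg _).1 ?_
        rw [← hG, hy, map_zero]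
      choose u hu using h1
      have h2 : (Function.support u).Finite := by
        refine ((show ℤ →₀ Y from y).support.finite_toSet).subset fun k hk => ?_
        rw [Finset.mem_coe, Finsupp.mem_support_iff]
        intro h3
        refine hk (hf ?_)
        rw [hu, map_zero]
        exact h3
      obtain ⟨x, hx⟩ : ∃ x : SK1_I φ, ∀ k, SK1_c k x = u k :=
        ⟨Finsupp.ofSupportFinite u h2, fun _ => rfl⟩
      refine ⟨x, ?_⟩
      rw [← sub_eq_zero]
      refine SK1_zero fun k => ?_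
      rw [map_sub, hF, sub_eq_zero, ← hu, hx]
    · rintro ⟨x, rfl⟩
      refine SK1_zero fun k => ?_
      rw [hG, hF]
      exact hfg.apply_apply_eq_zero _

end functor

/-! ### the filtration of a finitely generated `T`-module -/

section filt

variable {R T : Type} [Ring R] [Ring T] {σ : R ≃+* R} {j : R →+* T} {τ : Tˣ} {M : Type}
  [AddCommGroup M] [Module T M] [Module R M]

private theorem SK1_tr (h : IsSkL σ j τ) (hj : ∀ (r : R) (x : M), r • x = j r • x) (r : R)
    (x : M) : τ • r • x = σ r • τ • x := by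
  rw [hj, hj, Units.smul_def, Units.smul_def, ← mul_smul, ← mul_smul, h.comm]

private theorem SK1_tir (h : IsSkL σ j τ) (hj : ∀ (r : R) (x : M), r • x = j r • x) (r : R)
    (x : M) : τ⁻¹ • r • x = σ.symm r • τ⁻¹ • x := by
  rw [inv_smul_eq_iff, SK1_tr h hj, RingEquiv.apply_symm_apply, smul_inv_smul]

/-- `τ N` -/
private def SK1_sh (h : IsSkL σ j τ) (hj : ∀ (r : R) (x : M), r • x = j r • x)
    (N : Submodule R M) : Submodule R M where
  carrier := {x | τ⁻¹ • x ∈ N}
  zero_mem' := by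
    show τ⁻¹ • (0 : M) ∈ N
    rw [smul_zero]
    exact N.zero_mem
  add_mem' {x y} hx hy := by
    show τ⁻¹ • (x + y) ∈ N
    rw [smul_add]
    exact N.add_mem hx hy
  smul_mem' r x hx := by
    show τ⁻¹ • (r • x) ∈ N
    rw [SK1_tir h hj]
    exact N.smul_mem _ hx

private theorem SK1_sh_fg (h : IsSkL σ j τ) (hj : ∀ (r : R) (x : M), r • x = j r • x)
    {N : Submodule R M} (hN : N.FG) : (SK1_sh h hj N).FG := by
  classical
  obtain ⟨S, rfl⟩ := hN
  refine ⟨S.image (fun x => τ • x), ?_⟩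
  have h1 : ∀ y ∈ Submodule.span R (S : Set M),
      τ • y ∈ Submodule.span R ((S.image fun x => τ • x : Finset M) : Set M) := by
    intro y hy
    induction hy using Submodule.span_induction with
    | mem y hy =>
      apply Submodule.subset_span
      rw [Finset.coe_image]
      exact ⟨y, hy, rfl⟩
    | zero =>
      rw [smul_zero]
      exact Submodule.zero_mem _
    | add x y _ _ hx hy =>
      rw [smul_add]
      exact Submodule.add_mem _ hx hy
    | smul r x _ hx =>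
      rw [SK1_tr h hj]
      exact Submodule.smul_mem _ _ hx
  apply le_antisymm
  · rw [Submodule.span_le]
    intro x hx
    rw [Finset.coe_image] at hx
    obtain ⟨y, hy, rfl⟩ := hx
    show τ⁻¹ • τ • y ∈ Submodule.span R (S : Set M)
    rw [inv_smul_smul]
    exact Submodule.subset_span hy
  · intro x hx
    have h2 := h1 _ hx
    rw [smul_inv_smul] at h2
    exact h2

/-- the submodules `F'_i` -/
private def SK1_G (h : IsSkL σ j τ) (hj : ∀ (r : R) (x : M), r • x = j r • x)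
    (F : Submodule R M) : ℕ → Submodule R M
  | 0 => ⊥
  | i + 1 => SK1_sh h hj (F ⊔ SK1_G h hj F i)

private theorem SK1_G_fg (h : IsSkL σ j τ) (hj : ∀ (r : R) (x : M), r • x = j r • x)
    {F : Submodule R M} (hF : F.FG) (i : ℕ) : (SK1_G h hj F i).FG := by
  induction i with
  | zero => exact Submodule.fg_bot
  | succ i ih => exact SK1_sh_fg h hj (hF.sup ih)

private theorem SK1_G_le (h : IsSkL σ j τ) (hj : ∀ (r : R) (x : M), r • x = j r • x)
    (F : Submodule R M) (i : ℕ) : SK1_G h hj F i ≤ SK1_G h hj F (i + 1) := by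
  induction i with
  | zero => exact bot_le
  | succ i ih =>
    intro x hx
    exact sup_le_sup_left ih F hx

private theorem SK1_G_mono (h : IsSkL σ j τ) (hj : ∀ (r : R) (x : M), r • x = j r • x)
    (F : Submodule R M) : Monotone (SK1_G h hj F) :=
  monotone_nat_of_le_succ (SK1_G_le h hj F)

private theorem SK1_G_inv (h : IsSkL σ j τ) (hj : ∀ (r : R) (x : M), r • x = j r • x)
    (F : Submodule R M) (i : ℕ) {x : M} (hx : x ∈ SK1_G h hj F i) :
    τ⁻¹ • x ∈ F ⊔ SK1_G h hj F i := by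
  rcases i with _ | i
  · have h1 : x = 0 := hx
    rw [h1, smul_zero]
    exact Submodule.zero_mem _
  · exact sup_le_sup_left (SK1_G_le h hj F i) F hx

private theorem SK1_G_t (h : IsSkL σ j τ) (hj : ∀ (r : R) (x : M), r • x = j r • x)
    (F : Submodule R M) (i : ℕ) {x : M} (hx : x ∈ F ⊔ SK1_G h hj F i) :
    τ • x ∈ SK1_G h hj F (i + 1) := by
  show τ⁻¹ • τ • x ∈ F ⊔ SK1_G h hj F i
  rw [inv_smul_smul]
  exact hx

private theorem SK1_stab [IsNoetherianRing R] (h : IsSkL σ j τ)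
    (hj : ∀ (r : R) (x : M), r • x = j r • x) {F : Submodule R M} (hF : F.FG) :
    ∃ J, ∀ i, F ⊓ SK1_G h hj F i ≤ SK1_G h hj F J := by
  have : Module.Finite R F := Module.Finite.of_fg hF
  have : IsNoetherian R F := isNoetherian_of_isNoetherianRing_of_finite R F
  obtain ⟨J, hJ⟩ := monotone_stabilizes_iff_noetherian.2 ‹IsNoetherian R F›
    ⟨fun i => (SK1_G h hj F i).comap F.subtype, fun a b hab =>
      Submodule.comap_mono (SK1_G_mono h hj F hab)⟩
  refine ⟨J, fun i x hx => ?_⟩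
  rcases le_total i J with hi | hi
  · exact SK1_G_mono h hj F hi hx.2
  · have h1 := hJ i hi
    have h2 : (⟨x, hx.1⟩ : F) ∈ (SK1_G h hj F i).comap F.subtype := hx.2
    have h3 : (⟨x, hx.1⟩ : F) ∈ (SK1_G h hj F J).comap F.subtype := by
      have h4 : (SK1_G h hj F J).comap F.subtype = (SK1_G h hj F i).comap F.subtype := h1
      rw [h4]
      exact h2
    exact h3

end filt

/-! ### the resolution -/

section res

variable {R T : Type} [Ring R] [Ring T] {σ : R ≃+* R} {j : R →+* T} {τ : Tˣ}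

/-- the sums `∑_{i ≤ L} τ ^ i ⊗ n_i` with `Q n_i` for `i < L` -/
private def SK1_Q {B : Type} [AddCommGroup B] (φ : T →+* AddMonoid.End (ℤ →₀ B)) (τ : Tˣ)
    (Q : B → Prop) : ℕ → Set (SK1_I φ)
  | 0 => {x | ∃ n : B, x = SK1_e φ 0 n}
  | L + 1 => {x | ∃ n : B, Q n ∧ ∃ y ∈ SK1_Q φ τ Q L, x = SK1_e φ 0 n + τ • y}

section

variable {B : Type} [AddCommGroup B] [Module R B] {φ : T →+* AddMonoid.End (ℤ →₀ B)}

private theorem SK1_Q_mono {Q : B → Prop} (L : ℕ) {x : SK1_I φ} (hx : x ∈ SK1_Q φ τ Q L) :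
    x ∈ SK1_Q φ τ (fun _ => True) L := by
  induction L generalizing x with
  | zero => exact hx
  | succ L ih =>
    obtain ⟨n, _, y, hy, rfl⟩ := hx
    exact ⟨n, trivial, y, ih hy, rfl⟩

private theorem SK1_Q_add (L : ℕ) {x y : SK1_I φ} (hx : x ∈ SK1_Q φ τ (fun _ => True) L)
    (hy : y ∈ SK1_Q φ τ (fun _ => True) L) : x + y ∈ SK1_Q φ τ (fun _ => True) L := by
  induction L generalizing x y with
  | zero =>
    obtain ⟨n, rfl⟩ := hx
    obtain ⟨m, rfl⟩ := hy
    exact ⟨n + m, (map_add _ _ _).symm⟩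
  | succ L ih =>
    obtain ⟨n, _, x, hx, rfl⟩ := hx
    obtain ⟨m, _, y, hy, rfl⟩ := hy
    refine ⟨n + m, trivial, x + y, ih hx hy, ?_⟩
    rw [map_add, smul_add]
    abel

private theorem SK1_Q_zero (L : ℕ) : (0 : SK1_I φ) ∈ SK1_Q φ τ (fun _ => True) L := by
  induction L with
  | zero => exact ⟨0, (map_zero _).symm⟩
  | succ L ih =>
    refine ⟨0, trivial, 0, ih, ?_⟩
    rw [map_zero, smul_zero, add_zero]

private theorem SK1_Q_e (L : ℕ) (n : B) : SK1_e φ 0 n ∈ SK1_Q φ τ (fun _ => True) L := by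
  rcases L with _ | L
  · exact ⟨n, rfl⟩
  · refine ⟨n, trivial, 0, SK1_Q_zero L, ?_⟩
    rw [smul_zero, add_zero]

private theorem SK1_Q_t (L : ℕ) {x : SK1_I φ} (hx : x ∈ SK1_Q φ τ (fun _ => True) L) :
    τ • x ∈ SK1_Q φ τ (fun _ => True) (L + 1) := by
  refine ⟨0, trivial, x, hx, ?_⟩
  rw [map_zero, zero_add]

private theorem SK1_Q_succ (L : ℕ) {x : SK1_I φ} (hx : x ∈ SK1_Q φ τ (fun _ => True) L) :
    x ∈ SK1_Q φ τ (fun _ => True) (L + 1) := by
  induction L generalizing x with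
  | zero =>
    obtain ⟨n, rfl⟩ := hx
    exact SK1_Q_e 1 n
  | succ L ih =>
    obtain ⟨n, _, y, hy, rfl⟩ := hx
    exact ⟨n, trivial, y, ih hy, rfl⟩

private theorem SK1_Q_le {L L' : ℕ} (hL : L ≤ L') {x : SK1_I φ}
    (hx : x ∈ SK1_Q φ τ (fun _ => True) L) : x ∈ SK1_Q φ τ (fun _ => True) L' := by
  induction hL with
  | refl => exact hx
  | step _ ih => exact SK1_Q_succ _ ih

private theorem SK1_Q_tk (k : ℕ) (L : ℕ) {x : SK1_I φ}
    (hx : x ∈ SK1_Q φ τ (fun _ => True) L) :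
    (τ ^ k) • x ∈ SK1_Q φ τ (fun _ => True) (L + k) := by
  induction k with
  | zero =>
    rw [pow_zero, one_smul]
    exact hx
  | succ k ih =>
    rw [pow_succ', mul_smul]
    exact SK1_Q_t _ ih

private theorem SK1_Q_all (hφ : SK1_ok σ B j τ φ) (x : SK1_I φ) :
    ∃ k L : ℕ, (τ ^ k) • x ∈ SK1_Q φ τ (fun _ => True) L := by
  refine SK1_ind (Q := fun x => ∃ k L : ℕ, (τ ^ k) • x ∈ SK1_Q φ τ (fun _ => True) L) x ?_ ?_ ?_
  · refine ⟨0, 0, ?_⟩
    rw [smul_zero]
    exact SK1_Q_zero 0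
  · rintro x y ⟨k, L, hx⟩ ⟨l, L', hy⟩
    refine ⟨k + l, (L + l) + (L' + k), ?_⟩
    rw [smul_add]
    apply SK1_Q_add
    · rw [add_comm k l, pow_add, mul_smul]
      exact SK1_Q_le (Nat.le_add_right _ _) (SK1_Q_tk l L hx)
    · rw [pow_add, mul_smul]
      exact SK1_Q_le (Nat.le_add_left _ _) (SK1_Q_tk k L' hy)
  · intro k n
    obtain ⟨m, l, hml⟩ : ∃ m l : ℕ, k + m = l := by
      rcases Int.eq_nat_or_neg k with ⟨a, rfl | rfl⟩
      · exact ⟨0, a, by rw [Nat.cast_zero, add_zero]⟩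
      · exact ⟨a, 0, by rw [neg_add_cancel, Nat.cast_zero]⟩
    refine ⟨m, 0 + l, ?_⟩
    have h1 : (τ ^ m) • SK1_e φ k n = (τ ^ l) • SK1_e φ 0 n := by
      rw [← zpow_natCast, SK1_stz hφ, ← zpow_natCast, SK1_stz hφ, hml, zero_add]
    rw [h1]
    exact SK1_Q_tk l 0 (SK1_Q_e 0 n)

end

variable {M : Type} [AddCommGroup M] [Module T M] [Module R M]

private theorem SK1_exact (h : IsSkL σ j τ) (hj : ∀ (r : R) (x : M), r • x = j r • x)
    (F : Submodule R M) (J : ℕ) (hJ : ∀ i, F ⊓ SK1_G h hj F i ≤ SK1_G h hj F J)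
    (hgen : Submodule.span T (F : Set M) = ⊤)
    (φ : T →+* AddMonoid.End (ℤ →₀ (SK1_G h hj F J)))
    (ψ : T →+* AddMonoid.End (ℤ →₀ (F ⊔ SK1_G h hj F J : Submodule R M)))
    (hφ : SK1_ok σ (SK1_G h hj F J) j τ φ)
    (hψ : SK1_ok σ (F ⊔ SK1_G h hj F J : Submodule R M) j τ ψ) :
    ∃ (d : SK1_I φ →ₗ[T] SK1_I ψ) (μ : SK1_I ψ →ₗ[T] M), Injective d ∧ Surjective μ ∧
      Exact d μ := by
  obtain ⟨s, hs⟩ : ∃ s : SK1_G h hj F J →+ (F ⊔ SK1_G h hj F J : Submodule R M),
      ∀ n, (s n : M) = τ⁻¹ • (n : M) :=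
    ⟨{ toFun := fun n => ⟨τ⁻¹ • (n : M), SK1_G_inv h hj F J n.2⟩
       map_zero' := Subtype.ext (smul_zero _)
       map_add' := fun x y => Subtype.ext (smul_add _ _ _) }, fun _ => rfl⟩
  obtain ⟨ι, hι⟩ : ∃ ι : SK1_G h hj F J →+ (F ⊔ SK1_G h hj F J : Submodule R M),
      ∀ n, (ι n : M) = (n : M) :=
    ⟨{ toFun := fun n => ⟨(n : M), Submodule.mem_sup_right n.2⟩
       map_zero' := rfl
       map_add' := fun x y => rfl }, fun _ => rfl⟩
  -- the two maps
  obtain ⟨d, hd⟩ : ∃ d : SK1_I φ →ₗ[T] SK1_I ψ, ∀ k n, d (SK1_e φ k n) =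
      SK1_e ψ k (ι n) - SK1_e ψ (k + 1) (s n) := by
    refine ⟨SK1_lift h hφ ((SK1_e ψ 0).comp ι - (SK1_e ψ 1).comp s) ?_, ?_⟩
    · intro r n
      show SK1_e ψ 0 (ι (r • n)) - SK1_e ψ 1 (s (r • n)) = j r • (SK1_e ψ 0 (ι n) - SK1_e ψ 1 (s n))
      have h1 : ι (r • n) = r • ι n := by
        apply Subtype.ext
        rw [hι, Submodule.coe_smul, Submodule.coe_smul, hι]
      have h2 : s (r • n) = SK1_s σ (-1) r • s n := by
        apply Subtype.ext
        rw [hs, Submodule.coe_smul, Submodule.coe_smul, hs, SK1_sn1, SK1_tir h hj]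
      rw [smul_sub, SK1_sj hψ, SK1_sj hψ, neg_zero, SK1_s0, h1, h2]
    · intro k n
      rw [SK1_lift_e]
      show (τ ^ k) • (SK1_e ψ 0 (ι n) - SK1_e ψ 1 (s n)) = _
      rw [smul_sub, SK1_stz hψ, SK1_stz hψ, zero_add, add_comm 1 k]
  obtain ⟨μ, hμ⟩ : ∃ μ : SK1_I ψ →ₗ[T] M, ∀ k n, μ (SK1_e ψ k n) = (τ ^ k) • (n : M) := by
    refine ⟨SK1_lift h hψ (F ⊔ SK1_G h hj F J).subtype.toAddMonoidHom ?_, ?_⟩
    · intro r n
      exact hj r n
    · intro k n
      exact SK1_lift_e h hψ _ _ k n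
  have hμ0 : ∀ n, μ (SK1_e ψ 0 n) = (n : M) := by
    intro n
    rw [hμ, zpow_zero, one_smul]
  have hμt : ∀ x, μ (τ • x) = τ • μ x := fun x => μ.map_smul (τ : T) x
  have hμd : ∀ x, μ (d x) = 0 := by
    intro x
    refine SK1_ind (Q := fun x => μ (d x) = 0) x ?_ ?_ ?_
    · rw [map_zero, map_zero]
    · intro x y hx hy
      rw [map_add, map_add, hx, hy, add_zero]
    · intro k n
      rw [hd, map_sub, hμ, hμ, hι, hs, zpow_add, zpow_one, mul_smul, smul_inv_smul, sub_self]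
  -- the coordinates of `d`
  have hdc : ∀ x k, SK1_c k (d x) = ι (SK1_c k x) - s (SK1_c (k - 1) x) := by
    intro x k
    refine SK1_ind (Q := fun x => SK1_c k (d x) = ι (SK1_c k x) - s (SK1_c (k - 1) x)) x ?_ ?_ ?_
    · simp only [map_zero, sub_zero]
    · intro x y hx hy
      simp only [map_add, hx, hy]
      abel
    · intro l n
      rw [hd, map_sub, SK1_ce, SK1_ce, SK1_ce, SK1_ce]
      congr 1
      · split_ifs
        · rfl
        · rw [map_zero]
      · by_cases hl : l + 1 = k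
        · rw [if_pos hl, if_pos (by omega)]
        · rw [if_neg hl, if_neg (by omega), map_zero]
  have hK : ∀ n : SK1_G h hj F J, SK1_e ψ 0 (ι n) - τ • SK1_e ψ 0 (s n) ∈ LinearMap.range d := by
    intro n
    refine ⟨SK1_e φ 0 n, ?_⟩
    rw [hd, SK1_st hψ]
  have htK : ∀ x ∈ LinearMap.range d, τ • x ∈ LinearMap.range d := fun x hx =>
    Submodule.smul_mem _ (τ : T) hx
  -- reduction of the lower coefficients
  have hA : ∀ (L : ℕ) (x : SK1_I ψ), x ∈ SK1_Q ψ τ (fun _ => True) L →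
      ∃ x' ∈ SK1_Q ψ τ (fun n => (n : M) ∈ F) L, x - x' ∈ LinearMap.range d := by
    intro L
    induction L with
    | zero =>
      intro x hx
      refine ⟨x, hx, ?_⟩
      rw [sub_self]
      exact Submodule.zero_mem _
    | succ L ih =>
      rintro _ ⟨n, _, y, hy, rfl⟩
      obtain ⟨m, hm, n', hn', hmn⟩ := Submodule.mem_sup.1 n.2
      obtain ⟨y', hy', hyy⟩ := ih (SK1_e ψ 0 (s ⟨n', hn'⟩) + y)
        (SK1_Q_add L (SK1_Q_e L _) hy)
      refine ⟨SK1_e ψ 0 ⟨m, Submodule.mem_sup_left hm⟩ + τ • y', ⟨_, hm, y', hy', rfl⟩, ?_⟩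
      have h1 : n = ⟨m, Submodule.mem_sup_left hm⟩ + ι ⟨n', hn'⟩ := by
        apply Subtype.ext
        rw [Submodule.coe_add, hι]
        exact hmn.symm
      have h2 : SK1_e ψ 0 n + τ • y - (SK1_e ψ 0 ⟨m, Submodule.mem_sup_left hm⟩ + τ • y') =
          (SK1_e ψ 0 (ι ⟨n', hn'⟩) - τ • SK1_e ψ 0 (s ⟨n', hn'⟩)) +
            τ • (SK1_e ψ 0 (s ⟨n', hn'⟩) + y - y') := by
        rw [h1, map_add, smul_sub, smul_add]
        abel
      rw [h2]
      exact Submodule.add_mem _ (hK _) (htK _ hyy)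
  -- the values of `μ`
  have hM : ∀ (L : ℕ) (x : SK1_I ψ), x ∈ SK1_Q ψ τ (fun n => (n : M) ∈ F) L →
      μ x ∈ F ⊔ SK1_G h hj F (L + J) := by
    intro L
    induction L with
    | zero =>
      rintro _ ⟨n, rfl⟩
      rw [hμ0, zero_add]
      exact n.2
    | succ L ih =>
      rintro _ ⟨n, hn, y, hy, rfl⟩
      rw [map_add, hμ0, hμt]
      refine Submodule.add_mem _ (Submodule.mem_sup_left hn) (Submodule.mem_sup_right ?_)
      have h1 : L + 1 + J = L + J + 1 := by omega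
      rw [h1]
      exact SK1_G_t h hj F _ (ih y hy)
  -- the kernel of `μ`
  have hS : ∀ (L : ℕ) (x : SK1_I ψ), x ∈ SK1_Q ψ τ (fun _ => True) L → μ x = 0 →
      x ∈ LinearMap.range d := by
    intro L
    induction L with
    | zero =>
      rintro _ ⟨n, rfl⟩ hx
      rw [hμ0] at hx
      have h1 : n = 0 := Subtype.ext hx
      rw [h1, map_zero]
      exact Submodule.zero_mem _
    | succ L ih =>
      intro x hx h0
      obtain ⟨x', ⟨n, hn, y, hy, rfl⟩, hd'⟩ := hA (L + 1) x hx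
      have h1 : μ (SK1_e ψ 0 n + τ • y) = 0 := by
        obtain ⟨z, hz⟩ := hd'
        have h2 := hμd z
        rw [hz, map_sub, h0, zero_sub, neg_eq_zero] at h2
        exact h2
      have h2 : (n : M) ∈ SK1_G h hj F J := by
        refine hJ (L + J + 1) ⟨hn, ?_⟩
        have h3 : (n : M) = -(τ • μ y) := by
          rw [map_add, hμ0, hμt] at h1
          exact eq_neg_of_add_eq_zero_left h1
        rw [h3]
        exact Submodule.neg_mem _ (SK1_G_t h hj F _ (hM L y hy))
      have h4 : n = ι ⟨n, h2⟩ := by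
        apply Subtype.ext
        rw [hι]
      have h5 : SK1_e ψ 0 n + τ • y = (SK1_e ψ 0 (ι ⟨n, h2⟩) - τ • SK1_e ψ 0 (s ⟨n, h2⟩)) +
          τ • (SK1_e ψ 0 (s ⟨n, h2⟩) + y) := by
        rw [← h4, smul_add]
        abel
      have h6 : μ (SK1_e ψ 0 (s ⟨n, h2⟩) + y) = 0 := by
        have h7 := h1
        rw [h5, map_add] at h7
        obtain ⟨z, hz⟩ := hK ⟨n, h2⟩
        rw [← hz, hμd, zero_add, hμt] at h7
        exact (smul_eq_zero_iff_eq τ).1 h7
      have h8 := ih _ (SK1_Q_add L (SK1_Q_e L _) (SK1_Q_mono L hy)) h6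
      have h9 : x = (x - (SK1_e ψ 0 n + τ • y)) + (SK1_e ψ 0 n + τ • y) := by
        rw [sub_add_cancel]
      rw [h9]
      refine Submodule.add_mem _ hd' ?_
      rw [h5]
      exact Submodule.add_mem _ (hK _) (htK _ h8)
  refine ⟨d, μ, ?_, ?_, ?_⟩
  · rw [injective_iff_map_eq_zero]
    intro x hx
    by_contra hne
    have h1 : (show ℤ →₀ SK1_G h hj F J from x).support.Nonempty := by
      rw [Finsupp.support_nonempty_iff]
      exact hne
    obtain ⟨k, hk⟩ : ∃ k, k = (show ℤ →₀ SK1_G h hj F J from x).support.min' h1 := ⟨_, rfl⟩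
    have h2 : SK1_c k x ≠ 0 := by
      have h3 := Finset.min'_mem _ h1
      rw [← hk, Finsupp.mem_support_iff] at h3
      exact h3
    have h3 : SK1_c (k - 1) x = 0 := by
      by_contra h4
      have h5 : k - 1 ∈ (show ℤ →₀ SK1_G h hj F J from x).support := by
        rw [Finsupp.mem_support_iff]
        exact h4
      have h6 := Finset.min'_le _ _ h5
      rw [← hk] at h6
      omega
    apply h2
    have h4 := hdc x k
    rw [hx, map_zero, h3, map_zero, sub_zero] at h4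
    apply Subtype.ext
    rw [← hι, ← h4]
    rfl
  · intro m
    have hm : m ∈ Submodule.span T (F : Set M) := by
      rw [hgen]
      exact Submodule.mem_top
    have h1 : Submodule.span T (F : Set M) ≤ LinearMap.range μ := by
      rw [Submodule.span_le]
      intro x hx
      exact ⟨SK1_e ψ 0 ⟨x, Submodule.mem_sup_left hx⟩, hμ0 _⟩
    exact h1 hm
  · intro y
    constructor
    · intro hy
      obtain ⟨k, L, hk⟩ := SK1_Q_all hψ y
      have h1 : (τ ^ k) • y ∈ LinearMap.range d := by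
        refine hS L _ hk ?_
        have h2 : μ ((τ ^ k) • y) = (τ ^ k) • μ y := μ.map_smul ((τ ^ k : Tˣ) : T) y
        rw [h2, hy, smul_zero]
      have h2 : y = ((τ ^ k)⁻¹ : Tˣ) • (τ ^ k) • y := (inv_smul_smul _ _).symm
      rw [h2]
      exact Submodule.smul_mem (LinearMap.range d) (((τ ^ k)⁻¹ : Tˣ) : T) h1
    · rintro ⟨x, rfl⟩
      exact hμd x

end res

theorem thm_SK1 (hL : St_SKL) : St_SK1 := by
  intro R T _ _ _ σ j τ h hG
  obtain ⟨U, hU, hGen⟩ := hG
  have hex : ∀ N : LMod R, ∃ φ : T →+* AddMonoid.End (ℤ →₀ N), SK1_ok σ N j τ φ := fun N =>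
    SK1_ex σ N hL h
  choose φ hφ using hex
  have : ∀ N : LMod R, Module.Finite T (SK1_I (φ N)) := fun N => SK1_fin (hφ N)
  refine ⟨(fun N => LMod.of T (SK1_I (φ N))) '' U, hU.image _, fun P hP hPU M => ?_⟩
  have hall : ∀ N : LMod R, P (LMod.of T (SK1_I (φ N))) := by
    refine hGen _ (EC.T3.comap (C := modC R) (D := modC T) hP
      (fun N => LMod.of T (SK1_I (φ N))) ?_ ?_) (fun N hN => hPU _ ⟨N, hN, rfl⟩)
    · rintro X Y Z ⟨f, g, hf, hg, hfg⟩
      exact SK1_ses h (hφ X) (hφ Y) (hφ Z) f g hf hg hfg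
    · intro X hX
      have : Subsingleton X := hX
      show Subsingleton (ℤ →₀ X.carrier)
      infer_instance
  let : Module R M.carrier := Module.compHom M.carrier j
  have hj : ∀ (r : R) (x : M), r • x = j r • x := fun _ _ => rfl
  obtain ⟨X, hX⟩ := (Module.Finite.fg_top : (⊤ : Submodule T M).FG)
  have hF : (Submodule.span R (X : Set M)).FG := ⟨X, rfl⟩
  obtain ⟨J, hJ⟩ := SK1_stab h hj hF
  have : Module.Finite R (SK1_G h hj (Submodule.span R (X : Set M)) J) :=
    Module.Finite.of_fg (SK1_G_fg h hj hF J)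
  have : Module.Finite R ((Submodule.span R (X : Set M) ⊔
      SK1_G h hj (Submodule.span R (X : Set M)) J : Submodule R M)) :=
    Module.Finite.of_fg (hF.sup (SK1_G_fg h hj hF J))
  have hgen : Submodule.span T ((Submodule.span R (X : Set M) : Submodule R M) : Set M) = ⊤ := by
    rw [eq_top_iff, ← hX]
    exact Submodule.span_mono Submodule.subset_span
  have h1 := SK1_exact h hj (Submodule.span R (X : Set M)) J hJ hgen
    (φ (LMod.of R (SK1_G h hj (Submodule.span R (X : Set M)) J)))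
    (φ (LMod.of R ((Submodule.span R (X : Set M) ⊔
      SK1_G h hj (Submodule.span R (X : Set M)) J : Submodule R M))))
    (hφ (LMod.of R (SK1_G h hj (Submodule.span R (X : Set M)) J)))
    (hφ (LMod.of R ((Submodule.span R (X : Set M) ⊔
      SK1_G h hj (Submodule.span R (X : Set M)) J : Submodule R M))))
  exact hP.coker
    (LMod.of T (SK1_I (φ (LMod.of R (SK1_G h hj (Submodule.span R (X : Set M)) J)))))
    (LMod.of T (SK1_I (φ (LMod.of R ((Submodule.span R (X : Set M) ⊔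
      SK1_G h hj (Submodule.span R (X : Set M)) J : Submodule R M)))))) M h1 (hall _) (hall _)

end Pool.Agent.QTG
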