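import Pool.Agent.QTG.StSk

/-!
# QTG, module SK2

Statement and proof: see `St_SK2` in `Pool/Agent/QTG/StSk.lean`.
-/

set_option autoImplicit false

namespace Pool.Agent.QTG

open Function MvPolynomial TensorProduct Pool.Agent.TQF Pool.Agent.Helper67.Bass
  Pool.Agent.Helper11

private theorem SK2_pow {R T : Type} [Ring R] [Ring T] {σ : R ≃+* R} {j : R →+* T} {τ : Tˣ}
    (hc : ∀ r, (τ : T) * j r = j (σ r) * τ) (n : ℕ) (r : R) :
    (τ : T) ^ n * j r = j ((σ ^ n) r) * (τ : T) ^ n := by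
  induction n generalizing r with
  | zero => rw [pow_zero, pow_zero, one_mul, mul_one]; rfl
  | succ n ih =>
    rw [pow_succ, mul_assoc, hc, ← mul_assoc, ih, mul_assoc, ← pow_succ, pow_succ σ n]
    rfl

theorem thm_SK2 : St_SK2 := by
  intro R T _ _ hR σ j τ h
  let _ : Module R T := Module.compHom T j
  have hsm : ∀ (r : R) (t : T), r • t = j r * t := fun r t => rfl
  obtain ⟨B, hB⟩ : ∃ B : ℕ → Submodule R T, B = fun n =>
      Submodule.span R ((fun k : ℕ => ((τ : T) ^ k)) '' Set.Iio n) := ⟨_, rfl⟩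
  have hBfg : ∀ n, (B n).FG := fun n => by
    rw [hB]
    exact Submodule.fg_span ((Set.finite_Iio n).image _)
  have hBmono : ∀ m n, m ≤ n → B m ≤ B n := fun m n hmn => by
    rw [hB]
    exact Submodule.span_mono (Set.image_mono (Set.Iio_subset_Iio hmn))
  have hBpow : ∀ m n, m < n → ((τ : T) ^ m) ∈ B n := fun m n hmn => by
    rw [hB]
    exact Submodule.subset_span ⟨m, hmn, rfl⟩
  have hBdec : ∀ n t, t ∈ B (n + 1) → ∃ c : R, ∃ t' ∈ B n, t = j c * (τ : T) ^ n + t' := by
    intro n t ht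
    rw [hB] at ht ⊢
    have e : Set.Iio (n + 1) = insert n (Set.Iio n) := by
      ext k
      simp only [Set.mem_Iio, Set.mem_insert_iff]
      omega
    simp only at ht
    rw [e, Set.image_insert_eq, Submodule.mem_span_insert] at ht
    obtain ⟨a, z, hz, rfl⟩ := ht
    exact ⟨a, z, hz, rfl⟩
  have hBmem : ∀ n (c : R) t', t' ∈ B n → j c * (τ : T) ^ n + t' ∈ B (n + 1) := by
    intro n c t' ht'
    refine Submodule.add_mem _ ?_ (hBmono n (n + 1) (Nat.le_succ n) ht')
    exact Submodule.smul_mem _ c (hBpow n (n + 1) (Nat.lt_succ_self n))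
  have hBtau : ∀ m n t, t ∈ B n → (τ : T) ^ m * t ∈ B (m + n) := by
    intro m n t ht
    have ht' : t ∈ Submodule.span R ((fun k : ℕ => ((τ : T) ^ k)) '' Set.Iio n) := by
      rw [hB] at ht
      exact ht
    clear ht
    induction ht' using Submodule.span_induction with
    | mem x hx =>
      obtain ⟨k, hk, rfl⟩ := hx
      show (τ : T) ^ m * (τ : T) ^ k ∈ B (m + n)
      rw [← pow_add]
      exact hBpow _ _ (Nat.add_lt_add_left hk m)
    | zero => rw [mul_zero]; exact Submodule.zero_mem _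
    | add x y _ _ hx hy => rw [mul_add]; exact Submodule.add_mem _ hx hy
    | smul a x _ hx =>
      have e : (τ : T) ^ m * (a • x) = ((σ ^ m) a) • ((τ : T) ^ m * x) := by
        rw [hsm, hsm, ← mul_assoc, SK2_pow h.comm, mul_assoc]
      rw [e]
      exact Submodule.smul_mem _ _ hx
  -- every element times a power of `τ` is in some `B n`
  have hex : ∀ t : T, ∃ m n : ℕ, (τ : T) ^ m * t ∈ B n := by
    intro t
    obtain ⟨c, rfl⟩ := h.span t
    obtain ⟨m, hm⟩ : ∃ m : ℕ, ∀ k ∈ c.support, -(m : ℤ) ≤ k ∧ k < m := by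
      refine ⟨(c.support.sup fun k => k.natAbs) + 1, fun k hk => ?_⟩
      have h1 : k.natAbs ≤ c.support.sup fun k => k.natAbs :=
        Finset.le_sup (f := fun k : ℤ => k.natAbs) hk
      omega
    refine ⟨m, m + m, ?_⟩
    unfold Finsupp.sum
    rw [Finset.mul_sum]
    refine Submodule.sum_mem _ fun k hk => ?_
    obtain ⟨h1, h2⟩ := hm k hk
    obtain ⟨l, hl⟩ : ∃ l : ℕ, (m : ℤ) + k = l := ⟨((m : ℤ) + k).toNat, by omega⟩
    have e : (τ : T) ^ m * (j (c k) * ((τ ^ k : Tˣ) : T)) =
        ((σ ^ m) (c k)) • ((τ : T) ^ l) := by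
      rw [← mul_assoc, SK2_pow h.comm, mul_assoc, hsm]
      have e2 : (τ : T) ^ m * ((τ ^ k : Tˣ) : T) = (τ : T) ^ l := by
        rw [← Units.val_pow_eq_pow_val, ← Units.val_mul, ← zpow_natCast, ← zpow_add, hl,
          zpow_natCast, Units.val_pow_eq_pow_val]
      rw [e2]
    rw [e]
    refine Submodule.smul_mem _ _ (hBpow _ _ ?_)
    omega
  -- the main argument
  refine isNoetherian_def.2 fun I => ?_
  -- leading coefficients
  obtain ⟨L, hL⟩ : ∃ L : ℕ → Ideal R, ∀ n r, r ∈ L n ↔ ∃ t' ∈ B n,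
      j ((σ ^ n) r) * (τ : T) ^ n + t' ∈ I := by
    refine ⟨fun n =>
      { carrier := {r | ∃ t' ∈ B n, j ((σ ^ n) r) * (τ : T) ^ n + t' ∈ I}
        add_mem' := ?_
        zero_mem' := ?_
        smul_mem' := ?_ }, fun n r => Iff.rfl⟩
    · rintro r s ⟨t, ht, hr⟩ ⟨t', ht', hs⟩
      refine ⟨t + t', Submodule.add_mem _ ht ht', ?_⟩
      have e : j ((σ ^ n) (r + s)) * (τ : T) ^ n + (t + t') =
          (j ((σ ^ n) r) * (τ : T) ^ n + t) + (j ((σ ^ n) s) * (τ : T) ^ n + t') := by
        rw [map_add, map_add, add_mul]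
        abel
      rw [e]
      exact I.add_mem hr hs
    · refine ⟨0, Submodule.zero_mem _, ?_⟩
      rw [map_zero, map_zero, zero_mul, add_zero]
      exact I.zero_mem
    · rintro a r ⟨t, ht, hr⟩
      refine ⟨j ((σ ^ n) a) * t, Submodule.smul_mem _ ((σ ^ n) a) ht, ?_⟩
      have e : j ((σ ^ n) (a • r)) * (τ : T) ^ n + j ((σ ^ n) a) * t =
          j ((σ ^ n) a) * (j ((σ ^ n) r) * (τ : T) ^ n + t) := by
        rw [smul_eq_mul, map_mul, map_mul, mul_add, mul_assoc]
      rw [e]
      exact I.smul_mem _ hr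
  have hLs : ∀ n, L n ≤ L (n + 1) := by
    intro n r hr
    rw [hL] at hr ⊢
    obtain ⟨t, ht, hr⟩ := hr
    refine ⟨(τ : T) ^ 1 * t, ?_, ?_⟩
    · have := hBtau 1 n t ht
      rwa [add_comm] at this
    · have e : j ((σ ^ (n + 1)) r) * (τ : T) ^ (n + 1) + (τ : T) ^ 1 * t =
          (τ : T) ^ 1 * (j ((σ ^ n) r) * (τ : T) ^ n + t) := by
        rw [mul_add, ← mul_assoc, SK2_pow h.comm, mul_assoc, ← pow_add, add_comm 1 n,
          add_comm n 1, pow_add σ 1 n]
        rfl
      rw [e]
      exact I.smul_mem _ hr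
  obtain ⟨N, hN⟩ : ∃ N, ∀ m, N ≤ m → L N = L m := by
    have := (monotone_stabilizes_iff_noetherian (R := R) (M := R)).2 hR
    exact this ⟨L, monotone_nat_of_le_succ hLs⟩
  -- the finitely generated part
  obtain ⟨M, hM⟩ : ∃ M : Submodule R T, ∀ t, t ∈ M ↔ t ∈ I ∧ t ∈ B (N + 1) := by
    refine ⟨{ carrier := {t | t ∈ I ∧ t ∈ B (N + 1)}
              add_mem' := fun ha hb => ⟨I.add_mem ha.1 hb.1, Submodule.add_mem _ ha.2 hb.2⟩
              zero_mem' := ⟨I.zero_mem, Submodule.zero_mem _⟩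
              smul_mem' := fun a x hx => ⟨I.smul_mem (j a) hx.1, Submodule.smul_mem _ a hx.2⟩ },
      fun t => Iff.rfl⟩
  have hMfg : M.FG := by
    have h1 : M ≤ B (N + 1) := fun t ht => ((hM t).1 ht).2
    exact Submodule.FG.of_le (hBfg (N + 1)) h1
  obtain ⟨S, hS⟩ := hMfg
  have hSI : ∀ t ∈ M, t ∈ Submodule.span T (S : Set T) := by
    intro t ht
    rw [← hS] at ht
    induction ht using Submodule.span_induction with
    | mem x hx => exact Submodule.subset_span hx
    | zero => exact Submodule.zero_mem _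
    | add x y _ _ hx hy => exact Submodule.add_mem _ hx hy
    | smul a x _ hx => exact Submodule.smul_mem _ (j a) hx
  refine ⟨S, le_antisymm ?_ ?_⟩
  · rw [Submodule.span_le]
    intro x hx
    have : x ∈ M := by
      rw [← hS]
      exact Submodule.subset_span hx
    exact ((hM x).1 this).1
  · have main : ∀ n t, t ∈ B n → t ∈ I → t ∈ Submodule.span T (S : Set T) := by
      intro n
      induction n with
      | zero =>
        intro t ht hI
        exact hSI t ((hM t).2 ⟨hI, hBmono _ _ (Nat.zero_le _) ht⟩)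
      | succ n ih =>
        intro t ht hI
        by_cases hn : n + 1 ≤ N + 1
        · exact hSI t ((hM t).2 ⟨hI, hBmono _ _ hn ht⟩)
        · have hn' : N ≤ n := by omega
          obtain ⟨d, rfl⟩ := Nat.exists_eq_add_of_le' hn'
          obtain ⟨c, t', ht', rfl⟩ := hBdec _ t ht
          have h1 : (σ ^ (d + N)).symm c ∈ L (d + N) := by
            rw [hL]
            refine ⟨t', ht', ?_⟩
            rw [RingEquiv.apply_symm_apply]
            exact hI
          rw [← hN _ hn', hL] at h1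
          obtain ⟨s, hs, hsI⟩ := h1
          have h2 := hSI _ ((hM _).2 ⟨hsI, hBmem _ _ _ hs⟩)
          have h3 : (τ : T) ^ d * (j ((σ ^ N) ((σ ^ (d + N)).symm c)) * (τ : T) ^ N + s) =
              j c * (τ : T) ^ (d + N) + (τ : T) ^ d * s := by
            rw [mul_add, ← mul_assoc, SK2_pow h.comm, mul_assoc, ← pow_add]
            have e : (σ ^ d) ((σ ^ N) ((σ ^ (d + N)).symm c)) = c := by
              have e1 : (σ ^ d) ((σ ^ N) ((σ ^ (d + N)).symm c)) =
                  (σ ^ (d + N)) ((σ ^ (d + N)).symm c) := by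
                rw [pow_add]
                rfl
              rw [e1, RingEquiv.apply_symm_apply]
            rw [e]
          have h4 := Submodule.smul_mem (Submodule.span T (S : Set T)) ((τ : T) ^ d) h2
          rw [smul_eq_mul, h3] at h4
          have h5 : j c * (τ : T) ^ (d + N) + t' =
              (j c * (τ : T) ^ (d + N) + (τ : T) ^ d * s) + (t' - (τ : T) ^ d * s) := by abel
          rw [h5]
          refine Submodule.add_mem _ h4 (ih _ (Submodule.sub_mem _ ht' (hBtau d N s hs)) ?_)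
          have h6 : t' - (τ : T) ^ d * s = (j c * (τ : T) ^ (d + N) + t') -
              (τ : T) ^ d * (j ((σ ^ N) ((σ ^ (d + N)).symm c)) * (τ : T) ^ N + s) := by
            rw [h3]
            abel
          rw [h6]
          exact I.sub_mem hI (I.smul_mem _ hsI)
    intro t ht
    obtain ⟨m, n, hmn⟩ := hex t
    have h1 := main n _ hmn (I.smul_mem _ ht)
    have h2 := Submodule.smul_mem (Submodule.span T (S : Set T)) (((τ⁻¹ : Tˣ) : T) ^ m) h1
    rw [smul_eq_mul, ← mul_assoc] at h2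
    have e : ((τ⁻¹ : Tˣ) : T) ^ m * (τ : T) ^ m = 1 := by
      rw [← Units.val_pow_eq_pow_val, ← Units.val_pow_eq_pow_val, ← Units.val_mul, inv_pow,
        inv_mul_cancel, Units.val_one]
    rwa [e, one_mul] at h2

end Pool.Agent.QTG
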