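import Pool.Agent.QTG.StSk

/-!
# QTG, module SK3

Statement and proof: see `St_SK3` in `Pool/Agent/QTG/StSk.lean`.
-/

set_option autoImplicit false

namespace Pool.Agent.QTG

open Function MvPolynomial TensorProduct Pool.Agent.TQF Pool.Agent.Helper67.Bass
  Pool.Agent.Helper11

namespace SK3

/-- extension of an automorphism which commutes with `σ0` to the skew Laurent ring -/
theorem ext_aut (hL : St_SKL) {R T1 : Type} [Ring R] [Ring T1] {σ0 : R ≃+* R} {j1 : R →+* T1}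
    {τ1 : T1ˣ} (h : IsSkL σ0 j1 τ1) (s : R ≃+* R) (hc : ∀ x, s (σ0 x) = σ0 (s x)) :
    ∃ s' : T1 ≃+* T1, (∀ r, s' (j1 r) = j1 (s r)) ∧ s' τ1 = τ1 := by
  obtain ⟨hlift, huniq⟩ := hL R T1 σ0 j1 τ1 h T1
  obtain ⟨f, hf1, hf2⟩ := hlift (j1.comp (s : R →+* R)) τ1 (by
    intro r
    have h1 := h.comm (s r)
    rw [← hc] at h1
    exact h1)
  have hc' : ∀ x, s.symm (σ0 x) = σ0 (s.symm x) := by
    intro x
    apply s.injective
    rw [hc, s.apply_symm_apply, s.apply_symm_apply]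
  obtain ⟨g, hg1, hg2⟩ := hlift (j1.comp (s.symm : R →+* R)) τ1 (by
    intro r
    have h1 := h.comm (s.symm r)
    rw [← hc'] at h1
    exact h1)
  have hf1' : ∀ r, f (j1 r) = j1 (s r) := hf1
  have hg1' : ∀ r, g (j1 r) = j1 (s.symm r) := hg1
  have hfg : f.comp g = RingHom.id T1 := by
    apply huniq
    · intro r
      show f (g (j1 r)) = j1 r
      rw [hg1', hf1', s.apply_symm_apply]
    · show f (g τ1) = τ1
      rw [hg2, hf2]
  have hgf : g.comp f = RingHom.id T1 := by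
    apply huniq
    · intro r
      show g (f (j1 r)) = j1 r
      rw [hf1', hg1', s.symm_apply_apply]
    · show g (f τ1) = τ1
      rw [hf2, hg2]
  exact ⟨RingEquiv.ofRingHom f g hfg hgf, hf1', hf2⟩

/-- conjugation by a unit -/
def conj {T : Type} [Ring T] (u : Tˣ) : T →+* T where
  toFun t := u * t * ((u⁻¹ : Tˣ) : T)
  map_one' := by rw [mul_one, Units.mul_inv]
  map_mul' x y := by
    calc (u : T) * (x * y) * ((u⁻¹ : Tˣ) : T)
        = u * x * (((u⁻¹ : Tˣ) : T) * u) * y * ((u⁻¹ : Tˣ) : T) := by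
          rw [Units.inv_mul]; noncomm_ring
      _ = u * x * ((u⁻¹ : Tˣ) : T) * (u * y * ((u⁻¹ : Tˣ) : T)) := by noncomm_ring
  map_zero' := by rw [mul_zero, zero_mul]
  map_add' x y := by rw [mul_add, add_mul]

theorem conj_eq {T : Type} [Ring T] (u : Tˣ) (x y : T) (h : u * x = y * u) : conj u x = y := by
  show u * x * ((u⁻¹ : Tˣ) : T) = y
  rw [h, mul_assoc, Units.mul_inv, mul_one]

theorem of_conj {T : Type} [Ring T] (u : Tˣ) (x y : T) (h : conj u x = y) : u * x = y * u := by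
  rw [← h]
  show u * x = u * x * ((u⁻¹ : Tˣ) : T) * u
  rw [mul_assoc, mul_assoc, Units.inv_mul, mul_one]

theorem zpow_mem {T : Type} [Ring T] (C : Subring T) (u : Tˣ) (h1 : (u : T) ∈ C)
    (h2 : ((u⁻¹ : Tˣ) : T) ∈ C) (k : ℤ) : ((u ^ k : Tˣ) : T) ∈ C := by
  cases k with
  | ofNat n =>
    rw [Int.ofNat_eq_natCast, zpow_natCast, Units.val_pow_eq_pow_val]
    exact pow_mem h1 n
  | negSucc n =>
    rw [zpow_negSucc, ← inv_pow, Units.val_pow_eq_pow_val]
    exact pow_mem h2 _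

end SK3

open SK3 in
theorem thm_SK3 (h0 : St_SK0) (hL : St_SKL) (h1 : St_SK1) (h2 : St_SK2) : St_SK3 := by
  intro ρ
  induction ρ with
  | zero =>
    intro R _ _ σ _ hfin
    refine ⟨R, inferInstance, RingHom.id R, fun k => k.elim0, ⟨fun k => k.elim0, fun k => k.elim0,
      ?_, ?_⟩, hfin⟩
    · intro t
      exact Subring.subset_closure (Or.inl (Or.inl ⟨t, rfl⟩))
    · intro T' _ j' τ' _ _
      exact ⟨j', fun r => rfl, fun k => k.elim0⟩
  | succ ρ ih =>
    intro R _ _ σ hσ hfin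
    obtain ⟨T1, _, j1, τ1, hT1⟩ := h0 R (σ 0)
    have hN : IsNoetherianRing T1 := h2 R T1 (σ 0) j1 τ1 hT1
    have hF : (modC T1).FinG := h1 R T1 (σ 0) j1 τ1 hT1 hfin
    have hex : ∀ k : Fin ρ, ∃ s' : T1 ≃+* T1, (∀ r, s' (j1 r) = j1 (σ k.succ r)) ∧ s' τ1 = τ1 :=
      fun k => ext_aut hL hT1 (σ k.succ) (fun x => hσ _ _ _)
    choose σ' hσ1 hσ2 using hex
    have hcomm : ∀ k l x, σ' k (σ' l x) = σ' l (σ' k x) := by
      intro k l x
      have h := (hL R T1 (σ 0) j1 τ1 hT1 T1).2 ((σ' k : T1 →+* T1).comp (σ' l : T1 →+* T1))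
        ((σ' l : T1 →+* T1).comp (σ' k : T1 →+* T1)) (by
          intro r
          show σ' k (σ' l (j1 r)) = σ' l (σ' k (j1 r))
          rw [hσ1, hσ1, hσ1, hσ1, hσ]) (by
          show σ' k (σ' l τ1) = σ' l (σ' k τ1)
          rw [hσ2, hσ2, hσ2])
      exact congrArg (fun f : T1 →+* T1 => f x) h
    obtain ⟨T, _, j', τ', hT, hTF⟩ := ih T1 σ' hcomm hF
    have hu : ∀ t : T1ˣ, ((Units.map (j' : T1 →* T) t : Tˣ) : T) = j' t := fun t => rfl
    have hui : ∀ t : T1ˣ, (((Units.map (j' : T1 →* T) t)⁻¹ : Tˣ) : T) = j' ((t⁻¹ : T1ˣ) : T1) :=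
      fun t => rfl
    refine ⟨T, inferInstance, j'.comp j1,
      (Fin.cons (Units.map (j' : T1 →* T) τ1) τ' : Fin (ρ + 1) → Tˣ), ⟨?_, ?_, ?_, ?_⟩, hTF⟩
    · intro k r
      refine Fin.cases ?_ (fun k => ?_) k
      · rw [Fin.cons_zero, hu]
        show j' τ1 * j' (j1 r) = j' (j1 (σ 0 r)) * j' τ1
        rw [← map_mul, ← map_mul, hT1.comm]
      · rw [Fin.cons_succ]
        show (τ' k : T) * j' (j1 r) = j' (j1 (σ k.succ r)) * τ' k
        rw [hT.comm, hσ1]
    · have key : ∀ k, τ' k * Units.map (j' : T1 →* T) τ1 = Units.map (j' : T1 →* T) τ1 * τ' k := by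
        intro k
        apply Units.ext
        show (τ' k : T) * j' τ1 = j' τ1 * τ' k
        rw [hT.comm, hσ2]
      intro k l
      refine Fin.cases ?_ (fun k => ?_) k
      · refine Fin.cases rfl (fun l => ?_) l
        rw [Fin.cons_zero, Fin.cons_succ]
        exact (key l).symm
      · refine Fin.cases ?_ (fun l => ?_) l
        · rw [Fin.cons_zero, Fin.cons_succ]
          exact key k
        · rw [Fin.cons_succ, Fin.cons_succ]
          exact hT.tcomm k l
    · intro t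
      set C : Subring T := Subring.closure (Set.range (j'.comp j1) ∪
        Set.range (fun k => (((Fin.cons (Units.map (j' : T1 →* T) τ1) τ' : Fin (ρ + 1) → Tˣ) k :
          Tˣ) : T)) ∪
        Set.range (fun k => ((((Fin.cons (Units.map (j' : T1 →* T) τ1) τ' :
          Fin (ρ + 1) → Tˣ) k)⁻¹ : Tˣ) : T))) with hC
      have hCj : ∀ r, j' (j1 r) ∈ C := fun r =>
        Subring.subset_closure (Or.inl (Or.inl ⟨r, rfl⟩))
      have hCt : ∀ k, (τ' k : T) ∈ C := fun k =>
        Subring.subset_closure (Or.inl (Or.inr ⟨k.succ, rfl⟩))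
      have hCti : ∀ k, (((τ' k)⁻¹ : Tˣ) : T) ∈ C := fun k =>
        Subring.subset_closure (Or.inr ⟨k.succ, rfl⟩)
      have hC1 : ((Units.map (j' : T1 →* T) τ1 : Tˣ) : T) ∈ C :=
        Subring.subset_closure (Or.inl (Or.inr ⟨0, rfl⟩))
      have hC1i : (((Units.map (j' : T1 →* T) τ1)⁻¹ : Tˣ) : T) ∈ C :=
        Subring.subset_closure (Or.inr ⟨0, rfl⟩)
      have hCT1 : ∀ t1, j' t1 ∈ C := by
        intro t1
        obtain ⟨c, rfl⟩ := hT1.span t1
        rw [map_finsuppSum]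
        refine Subring.sum_mem C fun k _ => ?_
        show j' (j1 (c k) * ((τ1 ^ k : T1ˣ) : T1)) ∈ C
        rw [map_mul]
        refine C.mul_mem (hCj _) ?_
        have hz : j' ((τ1 ^ k : T1ˣ) : T1) = ((Units.map (j' : T1 →* T) τ1 ^ k : Tˣ) : T) := by
          rw [← map_zpow]
          rfl
        rw [hz]
        exact zpow_mem C _ hC1 hC1i k
      have hle : Subring.closure (Set.range j' ∪ Set.range (fun k => (τ' k : T)) ∪
          Set.range (fun k => (((τ' k)⁻¹ : Tˣ) : T))) ≤ C := by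
        rw [Subring.closure_le]
        rintro x ((⟨y, rfl⟩ | ⟨k, rfl⟩) | ⟨k, rfl⟩)
        · exact hCT1 y
        · exact hCt k
        · exact hCti k
      exact hle (hT.gen t)
    · intro T' _ j'' τ'' hr hc
      obtain ⟨φ1, hφ1, hφ2⟩ := (hL R T1 (σ 0) j1 τ1 hT1 T').1 j'' (τ'' 0) (fun r => hr 0 r)
      have hk : ∀ (k : Fin ρ) (t : T1), (τ'' k.succ : T') * φ1 t = φ1 (σ' k t) * τ'' k.succ := by
        intro k t
        apply of_conj
        have h := (hL R T1 (σ 0) j1 τ1 hT1 T').2 ((conj (τ'' k.succ)).comp φ1)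
          (φ1.comp (σ' k : T1 →+* T1)) (by
            intro r
            show conj (τ'' k.succ) (φ1 (j1 r)) = φ1 (σ' k (j1 r))
            rw [hφ1, hσ1, hφ1]
            exact conj_eq _ _ _ (hr _ _)) (by
            show conj (τ'' k.succ) (φ1 τ1) = φ1 (σ' k τ1)
            rw [hσ2, hφ2]
            apply conj_eq
            have h3 := congrArg (fun u : T'ˣ => (u : T')) (hc k.succ 0)
            exact h3)
        exact congrArg (fun f : T1 →+* T' => f t) h
      obtain ⟨φ, hφ3, hφ4⟩ := hT.lift T' φ1 (fun k => τ'' k.succ) hk (fun k l => hc _ _)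
      refine ⟨φ, fun r => ?_, fun k => ?_⟩
      · show φ (j' (j1 r)) = j'' r
        rw [hφ3, hφ1]
      · refine Fin.cases ?_ (fun k => ?_) k
        · rw [Fin.cons_zero, hu, hφ3, hφ2]
        · rw [Fin.cons_succ, hφ4]

end Pool.Agent.QTG
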