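import Pool.Agent.QTG.StSk
import Pool.Agent.TQF.NLocM

/-!
# QTG, module SK4B

Statement and proof: see `St_SK4B` in `Pool/Agent/QTG/StSk.lean`.
-/

set_option autoImplicit false

namespace Pool.Agent.QTG

open Function MvPolynomial TensorProduct Pool.Agent.TQF Pool.Agent.Helper67.Bass
  Pool.Agent.Helper11

section

variable {B B' : Type} [CommRing B] [CommRing B'] [Algebra B B'] {m ρ : ℕ}

/-- base change of representations of `SAlg q c` -/
theorem SK4B_rep {q : QD B m} {c : Fin (m + 1) → Fin ρ → ℤ} {S E : Type} [Ring S] [Algebra B S]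
    [Ring E] [Algebra B' E] (f : S →+* E)
    (hf : ∀ b : B, f (algebraMap B S b) = algebraMap B' E (algebraMap B B' b))
    {e : Fin (m + 1) → S} {p : GG ρ → S} (h : SRep q c e p) :
    SRep (q.map (algebraMap B B')) c (fun a => f (e a)) (fun g => f (p g)) where
  sq a := by
    have h1 := congrArg f (h.sq a)
    rw [Algebra.smul_def, map_add, map_add, map_mul, map_mul, map_zero, hf, hf] at h1
    rw [Algebra.smul_def]
    exact h1
  mul a a' haa := by
    have h1 := congrArg f (h.mul a a' haa)
    rw [Algebra.smul_def, Algebra.smul_def, map_add f, map_add f, map_add f, map_add f, map_mul f,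
      map_mul f, map_mul f, map_mul f, map_zero, hf, hf, hf] at h1
    rw [Algebra.smul_def, Algebra.smul_def]
    rw [map_add (algebraMap B B')] at h1
    exact h1
  idem g := by
    have h1 := congrArg f (h.idem g)
    rw [map_mul] at h1
    exact h1
  orth g g' hg := by
    have h1 := congrArg f (h.orth g g' hg)
    rw [map_mul, map_zero] at h1
    exact h1
  sum := by
    have h1 := congrArg f h.sum
    rw [map_sum, map_one] at h1
    exact h1
  shift a g := by
    have h1 := congrArg f (h.shift a g)
    rw [map_mul, map_mul] at h1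
    exact h1

/-- the homomorphism from `SAlg q c` to a `B'`-algebra given by a representation of the base change -/
theorem SK4B_hom {E : Type} [Ring E] [Algebra B' E] {q : QD B m} {c : Fin (m + 1) → Fin ρ → ℤ}
    {e : Fin (m + 1) → E} {p : GG ρ → E} (h : SRep (q.map (algebraMap B B')) c e p) :
    ∃ f : SAlg q c →+* E,
      (∀ b : B, f (algebraMap B (SAlg q c) b) = algebraMap B' E (algebraMap B B' b)) ∧
      (∀ a, f (SAlg.e q c a) = e a) ∧ ∀ g, f (SAlg.p q c g) = p g := by
  let i1 : Algebra B E := Algebra.compHom E (algebraMap B B')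
  have hr : SRep q c e p :=
    { sq := fun a => by
        have h1 := h.sq a
        rw [Algebra.smul_def] at h1 ⊢
        exact h1
      mul := fun a a' haa => by
        have h1 := h.mul a a' haa
        rw [Algebra.smul_def, Algebra.smul_def] at h1 ⊢
        have h2 : algebraMap B E (q.gam a a' + q.gam a' a) = algebraMap B' E
            ((q.map (algebraMap B B')).gam a a' + (q.map (algebraMap B B')).gam a' a) := by
          show algebraMap B' E (algebraMap B B' (q.gam a a' + q.gam a' a)) = _
          rw [map_add (algebraMap B B')]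
          rfl
        rw [h2]
        exact h1
      idem := h.idem
      orth := h.orth
      sum := h.sum
      shift := h.shift }
  obtain ⟨φ, h1, h2⟩ := SAlg.lift hr
  exact ⟨φ.toRingHom, fun b => φ.commutes b, h1, h2⟩

/-- the homomorphism `b' ⊗ s ↦ b' f(s)` -/
theorem SK4B_psi {S E : Type} [Ring S] [Algebra B S] [Ring E] [Algebra B' E] (f : S →+* E)
    (hf : ∀ b : B, f (algebraMap B S b) = algebraMap B' E (algebraMap B B' b)) :
    ∃ ψ : B' ⊗[B] S →+* E, ∀ (b : B') (s : S), ψ (b ⊗ₜ[B] s) = algebraMap B' E b * f s := by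
  let i1 : Algebra B E := Algebra.compHom E (algebraMap B B')
  have i2 : IsScalarTower B B' E := IsScalarTower.of_algebraMap_eq fun _ => rfl
  let F : S →ₐ[B] E := { f with commutes' := hf }
  refine ⟨(Algebra.TensorProduct.lift (Algebra.ofId B' E) F
    (fun b s => Algebra.commutes b (F s))).toRingHom, fun b s => ?_⟩
  exact Algebra.TensorProduct.lift_tmul _ _ _ b s

/-- `SAlg` commutes with base change, for a general ring `E` in place of the base change -/
theorem SK4B_inv {q : QD B m} {c : Fin (m + 1) → Fin ρ → ℤ} :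
    Nonempty (SAlg (q.map (algebraMap B B')) c ≃+* (B' ⊗[B] SAlg q c)) := by
  let ι : SAlg q c →ₐ[B] B' ⊗[B] SAlg q c := Algebra.TensorProduct.includeRight
  have hι : ∀ b : B, ι.toRingHom (algebraMap B (SAlg q c) b) =
      algebraMap B' (B' ⊗[B] SAlg q c) (algebraMap B B' b) := fun b => by
    show ι (algebraMap B (SAlg q c) b) = _
    rw [AlgHom.commutes]
    exact IsScalarTower.algebraMap_apply B B' _ b
  obtain ⟨θ, θe, θp⟩ := SAlg.lift (SK4B_rep ι.toRingHom hι (SAlg.rep q c))
  obtain ⟨f, f0, fe, fp⟩ := SK4B_hom (SAlg.rep (q.map (algebraMap B B')) c)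
  obtain ⟨ψ, hψ⟩ := SK4B_psi f f0
  have h1 : (θ.toRingHom.comp f) = ι.toRingHom := by
    refine SAlg.ext (fun b => ?_) (fun a => ?_) fun g => ?_
    · rw [hι, RingHom.comp_apply, f0]
      exact θ.commutes _
    · rw [RingHom.comp_apply, fe]
      exact θe a
    · rw [RingHom.comp_apply, fp]
      exact θp g
  have h2 : ∀ s, ψ (ι s) = f s := fun s => by
    have h3 := hψ 1 s
    rw [map_one, one_mul] at h3
    exact h3
  refine ⟨RingEquiv.ofRingHom θ.toRingHom ψ ?_ ?_⟩
  · refine RingHom.ext fun x => ?_
    rw [RingHom.comp_apply, RingHom.id_apply]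
    induction x using TensorProduct.induction_on with
    | zero => rw [map_zero, map_zero]
    | add x y hx hy => rw [map_add, map_add, hx, hy]
    | tmul b s =>
      rw [hψ, map_mul]
      have h4 : θ.toRingHom (f s) = ι s := DFunLike.congr_fun h1 s
      have h5 : θ.toRingHom (algebraMap B' _ b) = algebraMap B' _ b := θ.commutes b
      rw [h4, h5, Algebra.TensorProduct.algebraMap_apply]
      show (b ⊗ₜ[B] (1 : SAlg q c)) * ((1 : B') ⊗ₜ[B] s) = _
      rw [Algebra.TensorProduct.tmul_mul_tmul, mul_one, one_mul]
  · refine SAlg.ext (fun b => ?_) (fun a => ?_) fun g => ?_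
    · rw [RingHom.comp_apply, RingHom.id_apply]
      have h5 : θ.toRingHom (algebraMap B' _ b) = algebraMap B' _ b := θ.commutes b
      rw [h5, Algebra.TensorProduct.algebraMap_apply]
      have h6 := hψ b 1
      rw [map_one, mul_one] at h6
      exact h6
    · rw [RingHom.comp_apply, RingHom.id_apply]
      have h5 : θ.toRingHom (SAlg.e _ c a) = ι (SAlg.e q c a) := θe a
      rw [h5, h2, fe]
    · rw [RingHom.comp_apply, RingHom.id_apply]
      have h5 : θ.toRingHom (SAlg.p _ c g) = ι (SAlg.p q c g) := θp g
      rw [h5, h2, fp]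

end

theorem thm_SK4B (hF : St_SK4F) : St_SK4B := by
  have _ := hF
  intro B B' _ _ _ m ρ q c h
  obtain ⟨e⟩ := SK4B_inv (B := B) (B' := B') (q := q) (c := c)
  exact NLocM_transport e h

end Pool.Agent.QTG
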