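import Pool.Agent.QTG.StSk
import Pool.Agent.TQF.NLamF

/-!
# QTG, module SK4F

Statement and proof: see `St_SK4F` in `Pool/Agent/QTG/StSk.lean`.
-/

set_option autoImplicit false

namespace Pool.Agent.QTG

open Function MvPolynomial TensorProduct Pool.Agent.TQF Pool.Agent.Helper67.Bass
  Pool.Agent.Helper11

section SK4F

variable {B : Type} [CommRing B] {m ρ : ℕ} (q : QD B m) (c : Fin (m + 1) → Fin ρ → ℤ)

/-- the homomorphism from `Lam q` -/
theorem SK4F_hom : ∃ φ : Lam q →ₐ[B] SAlg q c,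
    ∀ a, φ (RingQuot.mkAlgHom B (LRel q) (FreeAlgebra.ι B a)) = SAlg.e q c a := by
  have hL : ∀ x, FreeAlgebra.lift B (SAlg.e q c) (FreeAlgebra.ι B x) = SAlg.e q c x := fun x =>
    FreeAlgebra.lift_ι_apply _ _
  refine ⟨RingQuot.liftAlgHom B ⟨FreeAlgebra.lift B (SAlg.e q c), ?_⟩, fun a => ?_⟩
  · intro x y hxy
    cases hxy with
    | sq a =>
      rw [map_add, map_add, map_mul, map_smul, map_zero, AlgHom.commutes, hL]
      exact (SAlg.rep q c).sq a
    | mul a a' haa =>
      rw [map_add, map_add, map_add, map_add, map_mul, map_mul, map_smul, map_smul, map_zero,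
        AlgHom.commutes, hL, hL]
      exact (SAlg.rep q c).mul a a' haa
  · rw [RingQuot.liftAlgHom_mkAlgHom_apply, hL]

/-- the linear map `f ↦ ∑ p_g * φ (f g)` -/
noncomputable def SK4F_psi (φ : Lam q →ₐ[B] SAlg q c) : (GG ρ → Lam q) →ₗ[B] SAlg q c :=
  ∑ g, (LinearMap.mulLeft B (SAlg.p q c g)) ∘ₗ φ.toLinearMap ∘ₗ (LinearMap.proj g)

theorem SK4F_psi_apply (φ : Lam q →ₐ[B] SAlg q c) (f : GG ρ → Lam q) :
    SK4F_psi q c φ f = ∑ g, SAlg.p q c g * φ (f g) := by
  unfold SK4F_psi
  rw [LinearMap.sum_apply]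
  rfl

theorem SK4F_single (φ : Lam q →ₐ[B] SAlg q c) (g : GG ρ) (x : Lam q) :
    SAlg.p q c g * φ x ∈ LinearMap.range (SK4F_psi q c φ) := by
  classical
  refine ⟨Pi.single g x, ?_⟩
  rw [SK4F_psi_apply, Finset.sum_eq_single g]
  · rw [Pi.single_eq_same]
  · intro h _ hh
    rw [Pi.single_eq_of_ne hh, map_zero, mul_zero]
  · intro h
    exact absurd (Finset.mem_univ g) h

theorem SK4F_surj (φ : Lam q →ₐ[B] SAlg q c)
    (hφ : ∀ a, φ (RingQuot.mkAlgHom B (LRel q) (FreeAlgebra.ι B a)) = SAlg.e q c a) :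
    Surjective (SK4F_psi q c φ) := by
  have key : ∀ x : SAlg q c, ∀ y ∈ LinearMap.range (SK4F_psi q c φ),
      x * y ∈ LinearMap.range (SK4F_psi q c φ) := by
    intro x
    induction x using SAlg.ind with
    | h1 b =>
      intro y hy
      rw [← Algebra.smul_def]
      exact Submodule.smul_mem _ b hy
    | h2 a =>
      rintro _ ⟨f, rfl⟩
      rw [SK4F_psi_apply, Finset.mul_sum]
      refine Submodule.sum_mem _ fun g _ => ?_
      rw [← mul_assoc, (SAlg.rep q c).shift, mul_assoc, ← hφ, ← map_mul]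
      exact SK4F_single q c φ _ _
    | h3 h =>
      rintro _ ⟨f, rfl⟩
      rw [SK4F_psi_apply, Finset.mul_sum]
      refine Submodule.sum_mem _ fun g _ => ?_
      rw [← mul_assoc]
      by_cases hg : h = g
      · subst hg
        rw [(SAlg.rep q c).idem]
        exact SK4F_single q c φ _ _
      · rw [(SAlg.rep q c).orth h g hg, zero_mul]
        exact Submodule.zero_mem _
    | hm x y hx hy =>
      intro z hz
      rw [mul_assoc]
      exact hx _ (hy z hz)
    | ha x y hx hy =>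
      intro z hz
      rw [add_mul]
      exact Submodule.add_mem _ (hx z hz) (hy z hz)
  have h1 : (1 : SAlg q c) ∈ LinearMap.range (SK4F_psi q c φ) := by
    rw [← (SAlg.rep q c).sum]
    refine Submodule.sum_mem _ fun g _ => ?_
    have := SK4F_single q c φ g 1
    rwa [map_one, mul_one] at this
  intro x
  have := key x 1 h1
  rwa [mul_one] at this

end SK4F

theorem thm_SK4F : St_SK4F := by
  intro B _ m ρ q c
  obtain ⟨φ, hφ⟩ := SK4F_hom q c
  haveI : Module.Finite B (Lam q) := thm_LamF B m q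
  exact Module.Finite.of_surjective (SK4F_psi q c φ) (SK4F_surj q c φ hφ)

end Pool.Agent.QTG
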