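import Pool.Agent.QTG.StSk

/-!
# QTG, module SK4S

Statement and proof: see `St_SK4S` in `Pool/Agent/QTG/StSk.lean`.
-/

set_option autoImplicit false

namespace Pool.Agent.QTG

open Function MvPolynomial TensorProduct Pool.Agent.TQF Pool.Agent.Helper67.Bass
  Pool.Agent.Helper11

private theorem sk4s_bv {ρ : ℕ} (k : Fin ρ) : bv k + bv k = (0 : GG ρ) := by
  funext l
  exact CharTwo.add_self_eq_zero _

theorem thm_SK4S : St_SK4S := by
  intro B _ m ρ q c
  classical
  have hrep := SAlg.rep q c
  have hR : ∀ k : Fin ρ, SRep q c (SAlg.e q c) (fun g => SAlg.p q c (g + bv k)) := fun k =>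
    { sq := hrep.sq
      mul := hrep.mul
      idem := fun g => hrep.idem _
      orth := fun g g' h => hrep.orth _ _ (fun h' => h (add_right_cancel h'))
      sum := by
        rw [← hrep.sum]
        exact Fintype.sum_equiv (Equiv.addRight (bv k)) _ _ (fun g => rfl)
      shift := fun a g => by
        show SAlg.e q c a * SAlg.p q c (g + bv k) =
          SAlg.p q c (g + cl (c a) + bv k) * SAlg.e q c a
        rw [hrep.shift, add_right_comm] }
  have hL := fun k => SAlg.lift (hR k)
  choose φ hφe hφp using hL
  have hφp' : ∀ k g, φ k (SAlg.p q c g) = SAlg.p q c (g + bv k) := hφp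
  have h2 : ∀ k x, φ k (φ k x) = x := fun k x => by
    have h := SAlg.ext (φ := ((φ k : SAlg q c →+* SAlg q c).comp (φ k : SAlg q c →+* SAlg q c)))
      (ψ := RingHom.id _)
      (fun b => by
        show φ k (φ k (algebraMap B _ b)) = algebraMap B _ b
        rw [AlgHom.commutes, AlgHom.commutes])
      (fun a => by
        show φ k (φ k (SAlg.e q c a)) = SAlg.e q c a
        rw [hφe, hφe])
      (fun g => by
        show φ k (φ k (SAlg.p q c g)) = SAlg.p q c g
        rw [hφp', hφp', add_assoc, sk4s_bv, add_zero])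
    exact RingHom.congr_fun h x
  have hc : ∀ k l x, φ k (φ l x) = φ l (φ k x) := fun k l x => by
    have h := SAlg.ext (φ := ((φ k : SAlg q c →+* SAlg q c).comp (φ l : SAlg q c →+* SAlg q c)))
      (ψ := ((φ l : SAlg q c →+* SAlg q c).comp (φ k : SAlg q c →+* SAlg q c)))
      (fun b => by
        show φ k (φ l (algebraMap B _ b)) = φ l (φ k (algebraMap B _ b))
        simp only [AlgHom.commutes])
      (fun a => by
        show φ k (φ l (SAlg.e q c a)) = φ l (φ k (SAlg.e q c a))
        simp only [hφe])
      (fun g => by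
        show φ k (φ l (SAlg.p q c g)) = φ l (φ k (SAlg.p q c g))
        rw [hφp', hφp', hφp', hφp', add_right_comm])
    exact RingHom.congr_fun h x
  refine ⟨fun k => RingEquiv.ofRingHom (φ k : SAlg q c →+* SAlg q c) (φ k : SAlg q c →+* SAlg q c)
    (RingHom.ext fun x => h2 k x) (RingHom.ext fun x => h2 k x), fun k l x => hc k l x,
    fun k x => h2 k x, fun k r => (φ k).commutes r, fun k a => hφe k a, fun k g => hφp' k g⟩

end Pool.Agent.QTG
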