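import Pool.Agent.QTG.StSk

/-!
# QTG, module SK5

Statement and proof: see `St_SK5` in `Pool/Agent/QTG/StSk.lean`.
-/

set_option autoImplicit false

namespace Pool.Agent.QTG

open Function MvPolynomial TensorProduct Pool.Agent.TQF Pool.Agent.Helper67.Bass
  Pool.Agent.Helper11

theorem thm_SK5 (h3 : St_SK3) (hF : St_SK4F) (hS : St_SK4S) (hV : St_LAU) (hA : St_SK5A)
    (hB : St_SK5B) : St_SK5 := by
  intro B V _ _ _ m ρ q c hpar b u hbu hfin
  have hF' : Module.Finite B (SAlg q c) := hF B m ρ q c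
  have : IsNoetherian B (SAlg q c) := isNoetherian_of_isNoetherianRing_of_finite B (SAlg q c)
  have : IsNoetherianRing (SAlg q c) := isNoetherian_of_tower B inferInstance
  obtain ⟨σ, hcomm, hinv, hbase, he, hp⟩ := hS B m ρ q c
  obtain ⟨T, instT, j, τ, hU, hT⟩ := h3 ρ (SAlg q c) σ hcomm hfin
  have : IsNoetherianRing V := (hV B V ρ b u hbu).1
  obtain ⟨κ, hκ⟩ := hA B V T m ρ q c σ hinv hbase j τ hU b u hbu
  exact hB B V T m ρ q c σ hpar hbase he hp j τ hU b u hbu κ hκ hT

end Pool.Agent.QTG
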