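import Pool.Agent.QTG.StSk

/-!
# QTG, module SK5A

Statement and proof: see `St_SK5A` in `Pool/Agent/QTG/StSk.lean`.
-/

set_option autoImplicit false

namespace Pool.Agent.QTG

open Function MvPolynomial TensorProduct Pool.Agent.TQF Pool.Agent.Helper67.Bass
  Pool.Agent.Helper11

/-- `V` is the localisation of the polynomial ring -/
private theorem SK5A_loc {B V : Type} [CommRing B] [CommRing V] {ρ : ℕ} {b : B →+* V}
    {u : Fin ρ → Vˣ} (h : IsLauR b u) :
    @IsLocalization.Away (MvPolynomial (Fin ρ) B) _ (∏ k, X k) V _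
      (eval₂Hom b (fun k => (u k : V))).toAlgebra := by
  let _ : Algebra (MvPolynomial (Fin ρ) B) V := (eval₂Hom b (fun k => (u k : V))).toAlgebra
  have halg : ∀ p : MvPolynomial (Fin ρ) B, algebraMap (MvPolynomial (Fin ρ) B) V p =
      eval₂ b (fun k => (u k : V)) p := fun p => rfl
  have hX : algebraMap (MvPolynomial (Fin ρ) B) V (∏ k, X k) = ∏ k, (u k : V) := by
    rw [map_prod]
    refine Finset.prod_congr rfl fun k _ => ?_
    rw [halg, eval₂_X]
  have hU : IsUnit (∏ k, (u k : V)) := by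
    refine ⟨∏ k, u k, ?_⟩
    rw [Units.coe_prod]
  refine (isLocalization_iff (Submonoid.powers (∏ k, X k : MvPolynomial (Fin ρ) B)) V).2
    ⟨?_, ?_, ?_⟩
  · rintro ⟨y, n, rfl⟩
    show IsUnit (algebraMap (MvPolynomial (Fin ρ) B) V ((∏ k, X k) ^ n))
    rw [map_pow, hX]
    exact hU.pow n
  · intro z
    obtain ⟨N, p, hp⟩ := h.frac z
    refine ⟨(p, ⟨(∏ k, X k) ^ N, N, rfl⟩), ?_⟩
    show z * algebraMap (MvPolynomial (Fin ρ) B) V ((∏ k, X k) ^ N) =
      algebraMap (MvPolynomial (Fin ρ) B) V p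
    rw [map_pow, hX, halg, hp]
  · intro x y hxy
    refine ⟨1, ?_⟩
    rw [h.inj hxy]

/-- a criterion for central elements of `T` -/
private theorem SK5A_cen {R T : Type} [Ring R] [Ring T] {ρ : ℕ} {σ : Fin ρ → R ≃+* R} {j : R →+* T}
    {τ : Fin ρ → Tˣ} (h : IsSkU σ j τ) (z : T) (h1 : ∀ x, j x * z = z * j x)
    (h2 : ∀ k, (τ k : T) * z = z * τ k) : z ∈ Subring.center T := by
  rw [Subring.mem_center_iff]
  intro g
  induction h.gen g using Subring.closure_induction with
  | mem x hx =>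
    rcases hx with (⟨y, rfl⟩ | ⟨k, rfl⟩) | ⟨k, rfl⟩
    · exact h1 y
    · exact h2 k
    · show ((τ k)⁻¹ : Tˣ) * z = z * ((τ k)⁻¹ : Tˣ)
      have := h2 k
      calc (((τ k)⁻¹ : Tˣ) : T) * z = ((τ k)⁻¹ : Tˣ) * (z * τ k) * ((τ k)⁻¹ : Tˣ) := by
            rw [← mul_assoc, mul_assoc (_ * z), Units.mul_inv, mul_one]
        _ = ((τ k)⁻¹ : Tˣ) * (τ k * z) * ((τ k)⁻¹ : Tˣ) := by rw [this]
        _ = z * ((τ k)⁻¹ : Tˣ) := by rw [← mul_assoc ((τ k)⁻¹ : Tˣ).val, Units.inv_mul, one_mul]
  | zero => rw [zero_mul, mul_zero]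
  | one => rw [one_mul, mul_one]
  | add x y _ _ hx hy => rw [add_mul, mul_add, hx, hy]
  | neg x _ hx => rw [neg_mul, mul_neg, hx]
  | mul x y _ _ hx hy => rw [mul_assoc, hy, ← mul_assoc, hx, mul_assoc]

theorem thm_SK5A (hF : St_SK4F) : St_SK5A := by
  intro B V T _ _ _ m ρ q c σ hσσ hσB j τ h b u hL
  -- commutation rules
  have hB1 : ∀ (r : B) (x : SAlg q c), j x * j (algebraMap B _ r) = j (algebraMap B _ r) * j x := by
    intro r x
    rw [← map_mul, ← map_mul, Algebra.commutes]
  have hB2 : ∀ (r : B) k, (τ k : T) * j (algebraMap B _ r) = j (algebraMap B _ r) * τ k := by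
    intro r k
    rw [h.comm, hσB]
  have hBc : ∀ r : B, j (algebraMap B _ r) ∈ Subring.center T := fun r =>
    SK5A_cen h _ (hB1 r) (hB2 r)
  have hT1 : ∀ k x, j x * ((τ k : T) * τ k) = (τ k : T) * τ k * j x := by
    intro k x
    rw [mul_assoc (τ k : T), h.comm, ← mul_assoc (τ k : T), h.comm, hσσ, mul_assoc]
  have hT0 : ∀ k l, (τ l : T) * τ k = τ k * τ l := by
    intro k l
    rw [← Units.val_mul, h.tcomm, Units.val_mul]
  have hT2 : ∀ k l, (τ l : T) * ((τ k : T) * τ k) = (τ k : T) * τ k * τ l := by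
    intro k l
    rw [← mul_assoc, hT0 k l, mul_assoc, hT0 k l, mul_assoc]
  have hTc : ∀ k, (τ k : T) * τ k ∈ Subring.center T := fun k =>
    SK5A_cen h _ (hT1 k) (hT2 k)
  have hTi : ∀ k, (((τ k)⁻¹ : Tˣ) : T) * ((τ k)⁻¹ : Tˣ) ∈ Subring.center T := by
    intro k
    rw [Subring.mem_center_iff]
    intro g
    have hg := (Subring.mem_center_iff.1 (hTc k)) g
    have e1 : (((τ k)⁻¹ : Tˣ) : T) * ((τ k)⁻¹ : Tˣ) = ((τ k * τ k)⁻¹ : Tˣ) := by
      rw [mul_inv_rev, Units.val_mul]
    have e2 : (τ k : T) * τ k = (τ k * τ k : Tˣ) := (Units.val_mul _ _).symm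
    rw [e1]
    rw [e2] at hg
    calc g * (((τ k * τ k)⁻¹ : Tˣ) : T)
        = ((τ k * τ k)⁻¹ : Tˣ) * ((τ k * τ k : Tˣ) * g) * ((τ k * τ k)⁻¹ : Tˣ) := by
          rw [← mul_assoc, Units.inv_mul, one_mul]
      _ = ((τ k * τ k)⁻¹ : Tˣ) * (g * (τ k * τ k : Tˣ)) * ((τ k * τ k)⁻¹ : Tˣ) := by rw [hg]
      _ = ((τ k * τ k)⁻¹ : Tˣ) * g := by
          rw [← mul_assoc, mul_assoc (_ * g), Units.mul_inv, mul_one]
  -- the homomorphism from the polynomial ring
  let β : B →+* Subring.center T :=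
    (j.comp (algebraMap B (SAlg q c))).codRestrict (Subring.center T) hBc
  let f0 : MvPolynomial (Fin ρ) B →+* Subring.center T :=
    eval₂Hom β (fun k => ⟨(τ k : T) * τ k, hTc k⟩)
  have hf0X : ∀ k, f0 (X k) = ⟨(τ k : T) * τ k, hTc k⟩ := fun k => eval₂Hom_X' _ _ _
  have hf0C : ∀ r, f0 (C r) = β r := fun r => eval₂Hom_C _ _ _
  have hU : ∀ k, IsUnit (f0 (X k)) := by
    intro k
    rw [hf0X]
    refine IsUnit.of_mul_eq_one ⟨(((τ k)⁻¹ : Tˣ) : T) * ((τ k)⁻¹ : Tˣ), hTi k⟩ ?_
    apply Subtype.ext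
    show (τ k : T) * τ k * ((((τ k)⁻¹ : Tˣ) : T) * ((τ k)⁻¹ : Tˣ)) = 1
    rw [mul_assoc, ← mul_assoc (τ k : T) ((τ k)⁻¹ : Tˣ).val, Units.mul_inv, one_mul, Units.mul_inv]
  have hUp : IsUnit (f0 (∏ k, X k)) := by
    rw [map_prod]
    exact IsUnit.prod_univ_iff.2 hU
  let _ : Algebra (MvPolynomial (Fin ρ) B) V := (eval₂Hom b (fun k => (u k : V))).toAlgebra
  have : IsLocalization.Away (∏ k, X k : MvPolynomial (Fin ρ) B) V := SK5A_loc hL
  let κ0 : V →+* Subring.center T := IsLocalization.Away.lift (∏ k, X k : MvPolynomial (Fin ρ) B) hUp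
  have hκ0 : ∀ p : MvPolynomial (Fin ρ) B, κ0 (algebraMap _ V p) = f0 p := fun p =>
    IsLocalization.Away.lift_eq _ _ _
  let κ : V →+* T := (Subring.center T).subtype.comp κ0
  have kbase : ∀ r : B, κ (b r) = j (algebraMap B _ r) := by
    intro r
    have e : b r = algebraMap (MvPolynomial (Fin ρ) B) V (C r) := (eval₂Hom_C _ _ _).symm
    show ((κ0 (b r) : Subring.center T) : T) = _
    rw [e, hκ0, hf0C]
    rfl
  have kunit : ∀ k, κ (u k) = τ k * τ k := by
    intro k
    have e : (u k : V) = algebraMap (MvPolynomial (Fin ρ) B) V (X k) :=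
      (eval₂Hom_X' b (fun k => (u k : V)) k).symm
    show ((κ0 (u k) : Subring.center T) : T) = _
    rw [e, hκ0, hf0X]
  have kcen : ∀ v t, κ v * t = t * κ v := fun v t =>
    ((Subring.mem_center_iff.1 (κ0 v).2) t).symm
  refine ⟨κ, kbase, kunit, kcen, ?_⟩
  let _ : Module V T := Module.compHom T κ
  have hs : ∀ (v : V) (t : T), v • t = κ v * t := fun v t => rfl
  -- finite submodules
  have hW : ∀ s : Finset (Fin ρ), ∃ W : Submodule V T, W.FG ∧ (1 : T) ∈ W ∧
      (∀ x w, w ∈ W → j x * w ∈ W) ∧ ∀ k ∈ s, ∀ w ∈ W, (τ k : T) * w ∈ W := by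
    intro s
    classical
    induction s using Finset.induction_on with
    | empty =>
      have : Module.Finite B (SAlg q c) := hF B m ρ q c
      obtain ⟨X0, hX0⟩ := (Module.Finite.fg_top : (⊤ : Submodule B (SAlg q c)).FG)
      have hj : ∀ x : SAlg q c, j x ∈ Submodule.span V (X0.image j : Set T) := by
        intro x
        have hx : x ∈ Submodule.span B (X0 : Set (SAlg q c)) := by
          rw [hX0]
          exact Submodule.mem_top
        induction hx using Submodule.span_induction with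
        | mem x hx =>
          refine Submodule.subset_span ?_
          rw [Finset.coe_image]
          exact ⟨x, hx, rfl⟩
        | zero => rw [map_zero]; exact Submodule.zero_mem _
        | add x y _ _ hx hy => rw [map_add]; exact Submodule.add_mem _ hx hy
        | smul r x _ hx =>
          have e : j (r • x) = b r • j x := by
            rw [hs, kbase, Algebra.smul_def, map_mul]
          rw [e]
          exact Submodule.smul_mem _ _ hx
      refine ⟨Submodule.span V (X0.image j : Set T), ⟨X0.image j, rfl⟩, ?_, ?_, ?_⟩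
      · rw [← map_one j]
        exact hj 1
      · intro x w hw
        induction hw using Submodule.span_induction with
        | mem w hw =>
          rw [Finset.coe_image] at hw
          obtain ⟨y, _, rfl⟩ := hw
          rw [← map_mul]
          exact hj _
        | zero => rw [mul_zero]; exact Submodule.zero_mem _
        | add y z _ _ hy hz => rw [mul_add]; exact Submodule.add_mem _ hy hz
        | smul r y _ hy =>
          have e : j x * (r • y) = r • (j x * y) := by
            rw [hs, hs, ← mul_assoc, ← kcen, mul_assoc]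
          rw [e]
          exact Submodule.smul_mem _ _ hy
      · intro k hk
        exact absurd hk (Finset.notMem_empty k)
    | insert k s hk ih =>
      obtain ⟨W, hfg, h1, hjW, hτW⟩ := ih
      let L : T →ₗ[V] T :=
        { toFun := fun w => (τ k : T) * w
          map_add' := fun x y => mul_add _ _ _
          map_smul' := fun r x => by
            show (τ k : T) * (κ r * x) = κ r * (τ k * x)
            rw [← mul_assoc, ← kcen, mul_assoc] }
      have hLa : ∀ w, L w = (τ k : T) * w := fun w => rfl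
      refine ⟨W ⊔ W.map L, hfg.sup (hfg.map L), Submodule.mem_sup_left h1, ?_, ?_⟩
      · intro x w hw
        obtain ⟨y, hy, z', hz', rfl⟩ := Submodule.mem_sup.1 hw
        obtain ⟨z, hz, rfl⟩ := Submodule.mem_map.1 hz'
        rw [mul_add]
        refine Submodule.add_mem _ (Submodule.mem_sup_left (hjW x y hy))
          (Submodule.mem_sup_right (Submodule.mem_map.2 ⟨j (σ k x) * z, hjW _ _ hz, ?_⟩))
        rw [hLa, hLa, ← mul_assoc, h.comm, hσσ, mul_assoc]
      · intro l hl w hw
        obtain ⟨y, hy, z', hz', rfl⟩ := Submodule.mem_sup.1 hw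
        obtain ⟨z, hz, rfl⟩ := Submodule.mem_map.1 hz'
        rw [mul_add, hLa]
        rcases Finset.mem_insert.1 hl with rfl | hl
        · refine Submodule.add_mem _ (Submodule.mem_sup_right (Submodule.mem_map.2 ⟨y, hy, rfl⟩))
            (Submodule.mem_sup_left ?_)
          have e : (τ l : T) * ((τ l : T) * z) = (u l : V) • z := by
            rw [hs, kunit, mul_assoc]
          rw [e]
          exact Submodule.smul_mem _ _ hz
        · refine Submodule.add_mem _ (Submodule.mem_sup_left (hτW l hl y hy))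
            (Submodule.mem_sup_right (Submodule.mem_map.2 ⟨(τ l : T) * z, hτW l hl z hz, ?_⟩))
          rw [hLa, ← mul_assoc, ← mul_assoc, hT0 l k]
  obtain ⟨W, ⟨X0, hX0⟩, h1, hjW, hτW⟩ := hW Finset.univ
  have hall : ∀ t w : T, w ∈ W → t * w ∈ W := by
    intro t
    induction h.gen t using Subring.closure_induction with
    | mem x hx =>
      rcases hx with (⟨y, rfl⟩ | ⟨k, rfl⟩) | ⟨k, rfl⟩
      · exact hjW y
      · exact hτW k (Finset.mem_univ k)
      · intro w hw
        have e : (((τ k)⁻¹ : Tˣ) : T) = κ ((u k)⁻¹ : Vˣ) * τ k := by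
          have e1 : κ ((u k)⁻¹ : Vˣ) * ((τ k : T) * τ k) = 1 := by
            rw [← kunit, ← map_mul, Units.inv_mul, map_one]
          calc (((τ k)⁻¹ : Tˣ) : T) = κ ((u k)⁻¹ : Vˣ) * ((τ k : T) * τ k) * ((τ k)⁻¹ : Tˣ) := by
                rw [e1, one_mul]
            _ = κ ((u k)⁻¹ : Vˣ) * τ k := by
                rw [mul_assoc, mul_assoc, Units.mul_inv, mul_one]
        show (((τ k)⁻¹ : Tˣ) : T) * w ∈ W
        rw [e, mul_assoc]
        exact Submodule.smul_mem W (((u k)⁻¹ : Vˣ) : V) (hτW k (Finset.mem_univ k) w hw)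
    | zero => intro w hw; rw [zero_mul]; exact Submodule.zero_mem _
    | one => intro w hw; rw [one_mul]; exact hw
    | add x y _ _ hx hy => intro w hw; rw [add_mul]; exact Submodule.add_mem _ (hx w hw) (hy w hw)
    | neg x _ hx => intro w hw; rw [neg_mul]; exact Submodule.neg_mem _ (hx w hw)
    | mul x y _ _ hx hy => intro w hw; rw [mul_assoc]; exact hx _ (hy w hw)
  refine ⟨X0, fun t => ?_⟩
  have ht : t ∈ Submodule.span V (X0 : Set T) := by
    rw [hX0, ← mul_one t]
    exact hall t 1 h1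
  obtain ⟨f, _, hf⟩ := Submodule.mem_span_finset.1 ht
  exact ⟨f, hf.symm⟩

end Pool.Agent.QTG
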