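import Pool.Agent.QTG.StSk

/-!
# QTG, module SK5B

Morita equivalence between modules over the iterated skew Laurent ring and modules with twisted
operators. Statement and proof: see `St_SK5B` in `Pool/Agent/QTG/StSk.lean`.
-/

set_option autoImplicit false

namespace Pool.Agent.QTG

open Function MvPolynomial TensorProduct Pool.Agent.TQF Pool.Agent.Helper67.Bass
  Pool.Agent.Helper11

/-- data for the functor `Ψ` -/
structure SK5B_D {V T : Type} [CommRing V] [Ring T] {m : ℕ} (q' : QD V m) (κ : V →+* T) (P0 : T)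
    (X : Fin (m + 1) → T) : Prop where
  central : ∀ v t, κ v * t = t * κ v
  fin : ∃ X : Finset T, ∀ t, ∃ v : T → V, t = ∑ x ∈ X, κ (v x) * x
  idem : P0 * P0 = P0
  comm : ∀ a, P0 * X a = X a * P0
  rel1 : ∀ a, X a * X a + κ (q'.lam a) * X a + κ (q'.gam a a) = 0
  rel2 : ∀ a a', a ≠ a' → X a * X a' + X a' * X a + κ (q'.lam a) * X a' + κ (q'.lam a') * X a +
    κ (q'.gam a a' + q'.gam a' a) = 0

section Psi

variable {V T : Type} [CommRing V] [Ring T] {m : ℕ} {q' : QD V m} {κ : V →+* T} {P0 : T}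
    {X : Fin (m + 1) → T}

theorem SK5B_fin (D : SK5B_D q' κ P0 X) (N : Type) [AddCommGroup N] [Module T N]
    [Module.Finite T N] : letI := Module.compHom N κ; Module.Finite V N := by
  letI : Algebra V T := κ.toAlgebra' D.central
  letI : Module V N := Module.compHom N κ
  haveI : IsScalarTower V T N := ⟨fun v t n => by
    show (κ v * t) • n = κ v • t • n
    rw [mul_smul]⟩
  haveI : Module.Finite V T := by
    obtain ⟨X0, hX0⟩ := D.fin
    refine ⟨⟨X0, ?_⟩⟩
    rw [eq_top_iff]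
    intro t _
    obtain ⟨v, hv⟩ := hX0 t
    rw [hv]
    refine Submodule.sum_mem _ fun x hx => ?_
    exact Submodule.smul_mem _ (v x) (Submodule.subset_span hx)
  exact Module.Finite.trans T N

/-- the part fixed by `P0` -/
def SK5B_S (D : SK5B_D q' κ P0 X) (N : Type) [AddCommGroup N] [Module T N] :
    letI := Module.compHom N κ; Submodule V N :=
  letI := Module.compHom N κ
  { carrier := {x | P0 • x = x}
    zero_mem' := smul_zero _
    add_mem' := by
      intro x y hx hy
      show P0 • (x + y) = x + y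
      rw [smul_add, show P0 • x = x from hx, show P0 • y = y from hy]
    smul_mem' := by
      intro v x hx
      show P0 • κ v • x = κ v • x
      rw [← mul_smul, ← D.central, mul_smul, show P0 • x = x from hx] }

theorem SK5B_mem (D : SK5B_D q' κ P0 X) (N : Type) [AddCommGroup N] [Module T N] (x : N) :
    x ∈ SK5B_S D N ↔ P0 • x = x := Iff.rfl

/-- the functor `Ψ` -/
@[reducible] noncomputable def SK5B_Psi [IsNoetherianRing V] (D : SK5B_D q' κ P0 X) (N : LMod T) :
    CMod q' :=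
  letI := Module.compHom N κ
  haveI : Module.Finite V N := SK5B_fin D N
  haveI : IsNoetherian V N := inferInstance
  { carrier := SK5B_S D N
    e := fun a =>
      { toFun := fun x => ⟨X a • (x : N), by
          show P0 • X a • (x : N) = X a • (x : N)
          rw [← mul_smul, D.comm, mul_smul, show P0 • (x : N) = x from x.2]⟩
        map_add' := fun x y => Subtype.ext (smul_add _ _ _)
        map_smul' := fun v x => Subtype.ext (by
          show X a • κ v • (x : N) = κ v • X a • (x : N)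
          rw [← mul_smul, ← mul_smul, D.central]) }
    rel1 := fun a x => Subtype.ext (by
      show X a • X a • (x : N) + κ (q'.lam a) • X a • (x : N) + κ (q'.gam a a) • (x : N) = 0
      rw [← mul_smul, ← mul_smul, ← add_smul, ← add_smul, D.rel1, zero_smul])
    rel2 := fun a a' h x => Subtype.ext (by
      show X a • X a' • (x : N) + X a' • X a • (x : N) + κ (q'.lam a) • X a' • (x : N) +
        κ (q'.lam a') • X a • (x : N) + κ (q'.gam a a' + q'.gam a' a) • (x : N) = 0
      rw [← mul_smul, ← mul_smul, ← mul_smul, ← mul_smul, ← add_smul, ← add_smul, ← add_smul,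
        ← add_smul, D.rel2 a a' h, zero_smul]) }

theorem SK5B_ses [IsNoetherianRing V] (D : SK5B_D q' κ P0 X) (N1 N2 N3 : LMod T)
    (h : LMod.Ses N1 N2 N3) : CMod.Ses (SK5B_Psi D N1) (SK5B_Psi D N2) (SK5B_Psi D N3) := by
  obtain ⟨f, g, hf, hg, hfg⟩ := h
  have hfP : ∀ x : N1, P0 • x = x → P0 • f x = f x := fun x hx => by rw [← map_smul, hx]
  have hgP : ∀ x : N2, P0 • x = x → P0 • g x = g x := fun x hx => by rw [← map_smul, hx]
  let f' : (SK5B_Psi D N1) →ₗ[V] (SK5B_Psi D N2) :=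
    { toFun := fun x => ⟨f x.1, hfP x.1 x.2⟩
      map_add' := fun x y => Subtype.ext (map_add f _ _)
      map_smul' := fun v x => Subtype.ext (map_smul f (κ v) x.1) }
  let g' : (SK5B_Psi D N2) →ₗ[V] (SK5B_Psi D N3) :=
    { toFun := fun x => ⟨g x.1, hgP x.1 x.2⟩
      map_add' := fun x y => Subtype.ext (map_add g _ _)
      map_smul' := fun v x => Subtype.ext (map_smul g (κ v) x.1) }
  refine ⟨f', g', ?_, ?_, ?_, ?_, ?_⟩
  · intro x y hxy
    exact Subtype.ext (hf (congrArg Subtype.val hxy))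
  · intro z
    obtain ⟨y, hy⟩ := hg z.1
    refine ⟨⟨P0 • y, ?_⟩, ?_⟩
    · show P0 • P0 • y = P0 • y
      rw [← mul_smul, D.idem]
    · refine Subtype.ext ?_
      show g (P0 • y) = z.1
      rw [map_smul, hy]
      exact z.2
  · intro y
    constructor
    · intro hy
      obtain ⟨x, hx⟩ := (hfg y.1).1 (congrArg Subtype.val hy)
      refine ⟨⟨x, ?_⟩, Subtype.ext hx⟩
      show P0 • x = x
      apply hf
      rw [map_smul, hx]
      exact y.2
    · rintro ⟨x, rfl⟩
      exact Subtype.ext ((hfg _).2 ⟨x.1, rfl⟩)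
  · intro a x
    exact Subtype.ext (map_smul f (X a) x.1)
  · intro a x
    exact Subtype.ext (map_smul g (X a) x.1)

theorem SK5B_zero [IsNoetherianRing V] (D : SK5B_D q' κ P0 X) (N : LMod T)
    (h : Subsingleton N) : Subsingleton (SK5B_Psi D N) :=
  ⟨fun x y => Subtype.ext (h.allEq _ _)⟩

theorem SK5B_core [IsNoetherianRing V] (D : SK5B_D q' κ P0 X)
    (H : ∀ M : CMod q', ∃ (N : LMod T) (e : (SK5B_Psi D N) ≃ₗ[V] M),
      ∀ a x, e ((SK5B_Psi D N).e a x) = M.e a (e x))
    (hT : (modC T).FinG) : (cC q').FinG := by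
  obtain ⟨U, hU, hG⟩ := hT
  refine ⟨SK5B_Psi D '' U, hU.image _, ?_⟩
  intro P hP hPU M
  obtain ⟨N, e, he⟩ := H M
  refine CMod.t3_iso hP e he ?_
  exact hG (fun N => P (SK5B_Psi D N))
    (hP.comap (C := modC T) (SK5B_Psi D) (SK5B_ses D) (SK5B_zero D))
    (fun N hN => hPU _ ⟨N, hN, rfl⟩) N

end Psi


section grp

variable {ρ : ℕ}

theorem SK5B_zind (Q : (Fin ρ → ℤ) → Prop) (h0 : Q 0) (h1 : ∀ k, Q (Pi.single k 1))
    (ha : ∀ x y, Q x → Q y → Q (x + y)) (hn : ∀ x, Q x → Q (-x)) (z : Fin ρ → ℤ) : Q z := by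
  let S : AddSubgroup (Fin ρ → ℤ) :=
    { carrier := {z | Q z}
      zero_mem' := h0
      add_mem' := fun {x y} hx hy => ha x y hx hy
      neg_mem' := fun {x} hx => hn x hx }
  have hz : z = ∑ k, z k • (Pi.single k 1 : Fin ρ → ℤ) := by
    funext l
    rw [Finset.sum_apply, Finset.sum_eq_single l]
    · simp
    · intro k _ hk
      rw [Pi.smul_apply, Pi.single_eq_of_ne (Ne.symm hk), smul_zero]
    · intro h
      exact absurd (Finset.mem_univ l) h
  have hm : z ∈ S := by
    rw [hz]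
    exact S.sum_mem fun k _ => S.zsmul_mem (h1 k) _
  exact hm

theorem SK5B_tz {T : Type} [Ring T] (τ : Fin ρ → Tˣ) (h : ∀ k l, τ k * τ l = τ l * τ k) :
    ∃ t : (Fin ρ → ℤ) → Tˣ, t 0 = 1 ∧ (∀ z z', t (z + z') = t z * t z') ∧
      ∀ k, t (Pi.single k 1) = τ k := by
  have hc : Pairwise fun i j => ∀ (x y : Multiplicative ℤ),
      Commute (zpowersHom Tˣ (τ i) x) (zpowersHom Tˣ (τ j) y) := by
    intro i j _ x y
    exact (show Commute (τ i) (τ j) from h i j).zpow_zpow _ _
  let f := MonoidHom.noncommPiCoprod (fun k => zpowersHom Tˣ (τ k)) hc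
  refine ⟨fun z => f (fun k => Multiplicative.ofAdd (z k)), map_one f, fun z z' => map_mul f _ _, ?_⟩
  intro k
  have hs : (fun l => Multiplicative.ofAdd ((Pi.single k 1 : Fin ρ → ℤ) l)) =
      Pi.mulSingle k (Multiplicative.ofAdd 1) := by
    funext l
    by_cases hl : l = k
    · subst hl
      rw [Pi.single_eq_same, Pi.mulSingle_eq_same]
    · rw [Pi.single_eq_of_ne hl, Pi.mulSingle_eq_of_ne hl]
      rfl
  show f (fun l => Multiplicative.ofAdd ((Pi.single k 1 : Fin ρ → ℤ) l)) = τ k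
  rw [hs]
  show MonoidHom.noncommPiCoprod (fun k => zpowersHom Tˣ (τ k)) hc _ = τ k
  rw [MonoidHom.noncommPiCoprod_mulSingle]
  simp

theorem SK5B_tneg {T : Type} [Ring T] {t : (Fin ρ → ℤ) → Tˣ} (t0 : t 0 = 1)
    (ta : ∀ z z', t (z + z') = t z * t z') (z : Fin ρ → ℤ) : t (-z) = (t z)⁻¹ := by
  rw [eq_inv_iff_mul_eq_one, ← ta, neg_add_cancel, t0]

theorem SK5B_cl_add (z z' : Fin ρ → ℤ) : cl (z + z') = cl z + cl z' := by
  funext k
  simp [cl]

theorem SK5B_cl_neg (z : Fin ρ → ℤ) : cl (-z) = -cl z := by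
  funext k
  simp [cl]

theorem SK5B_cl_single (k : Fin ρ) : cl (Pi.single k 1 : Fin ρ → ℤ) = bv k := by
  funext l
  unfold cl bv
  by_cases hl : l = k
  · subst hl
    rw [Pi.single_eq_same, Pi.single_eq_same, Int.cast_one]
  · rw [Pi.single_eq_of_ne hl, Pi.single_eq_of_ne hl, Int.cast_zero]

theorem SK5B_gg (g : GG ρ) : g + g = 0 := by
  funext k
  exact CharTwo.add_self_eq_zero (g k)

theorem SK5B_cl_two (z w : Fin ρ → ℤ) : cl (z + (w + w)) = cl z := by
  rw [SK5B_cl_add, SK5B_cl_add, SK5B_gg, add_zero]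

theorem SK5B_half {w : Fin ρ → ℤ} (h : ∀ k, (2 : ℤ) ∣ w k) :
    (fun k => w k / 2) + (fun k => w k / 2) = w := by
  funext k
  obtain ⟨x, hx⟩ := h k
  show w k / 2 + w k / 2 = w k
  omega

end grp

section alg

theorem SK5B_alg {T : Type} [Ring T] (s1 s2 x y l1 l2 g1 g2 : T) (h12 : s1 * s2 = s2 * s1)
    (hx2 : s2 * x = x * s2) (hy1 : s1 * y = y * s1)
    (hl1 : ∀ t, l1 * t = t * l1) (hl2 : ∀ t, l2 * t = t * l2) (hg1 : ∀ t, g1 * t = t * g1)
    (hg2 : ∀ t, g2 * t = t * g2) :
    (s1 * x) * (s2 * y) + (s2 * y) * (s1 * x) + (l1 * s1) * (s2 * y) + (l2 * s2) * (s1 * x) +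
      (g1 * (s1 * s2) + g2 * (s2 * s1)) =
      s1 * s2 * (x * y + y * x + l1 * y + l2 * x + (g1 + g2)) := by
  have e1 : (s1 * x) * (s2 * y) = s1 * s2 * (x * y) := by
    rw [mul_assoc, ← mul_assoc x, ← hx2]
    simp only [mul_assoc]
  have e2 : (s2 * y) * (s1 * x) = s1 * s2 * (y * x) := by
    rw [mul_assoc, ← mul_assoc y, ← hy1, h12]
    simp only [mul_assoc]
  have e3 : (l1 * s1) * (s2 * y) = s1 * s2 * (l1 * y) := by
    rw [← mul_assoc, mul_assoc l1, hl1 (s1 * s2), mul_assoc]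
  have e4 : (l2 * s2) * (s1 * x) = s1 * s2 * (l2 * x) := by
    rw [← mul_assoc, mul_assoc l2, ← h12, hl2 (s1 * s2), mul_assoc]
  rw [e1, e2, e3, e4, hg1, hg2, ← h12]
  simp only [mul_add]

variable {B V T : Type} [CommRing B] [CommRing V] [Ring T] {m ρ : ℕ} {q : QD B m}
    {c : Fin (m + 1) → Fin ρ → ℤ} {σ : Fin ρ → SAlg q c ≃+* SAlg q c}
    {j : SAlg q c →+* T} {τ : Fin ρ → Tˣ} {b : B →+* V} {u : Fin ρ → Vˣ} {κ : V →+* T}

theorem SK5B_kmon (hK : IsKap q c j τ b u κ) {t : (Fin ρ → ℤ) → Tˣ} (t0 : t 0 = 1)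
    (ta : ∀ z z', t (z + z') = t z * t z') (ts : ∀ k, t (Pi.single k 1) = τ k)
    (z : Fin ρ → ℤ) : Units.map (κ : V →* T) (mon u z) = t (z + z) := by
  refine SK5B_zind (fun z => Units.map (κ : V →* T) (mon u z) = t (z + z)) ?_ ?_ ?_ ?_ z
  · show Units.map (κ : V →* T) (mon u 0) = t (0 + 0)
    rw [mon_zero, map_one, add_zero, t0]
  · intro k
    show Units.map (κ : V →* T) (mon u (Pi.single k 1)) = _
    rw [mon_single, zpow_one, ta, ts]
    exact Units.ext (hK.unit k)
  · intro x y hx hy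
    show Units.map (κ : V →* T) (mon u (x + y)) = t (x + y + (x + y))
    rw [mon_add, map_mul, show Units.map (κ : V →* T) (mon u x) = t (x + x) from hx,
      show Units.map (κ : V →* T) (mon u y) = t (y + y) from hy, ← ta, add_add_add_comm]
  · intro x hx
    show Units.map (κ : V →* T) (mon u (-x)) = t (-x + -x)
    rw [mon_neg, map_inv, show Units.map (κ : V →* T) (mon u x) = t (x + x) from hx,
      ← SK5B_tneg t0 ta, neg_add]

theorem SK5B_sc (hK : IsKap q c j τ b u κ) {t : (Fin ρ → ℤ) → Tˣ} (t0 : t 0 = 1)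
    (ta : ∀ z z', t (z + z') = t z * t z') (ts : ∀ k, t (Pi.single k 1) = τ k)
    (r : B) (w : Fin ρ → ℤ) (h : r ≠ 0 → ∀ k, (2 : ℤ) ∣ w k) :
    κ (b r * (mon u (fun k => w k / 2) : Vˣ)) = j (algebraMap B _ r) * (t w : T) := by
  by_cases hr : r = 0
  · rw [hr, map_zero, zero_mul, map_zero, map_zero, map_zero, zero_mul]
  · rw [map_mul, hK.base]
    congr 1
    have h1 := congrArg Units.val (SK5B_kmon hK t0 ta ts (fun k => w k / 2))
    rw [SK5B_half (h hr)] at h1
    exact h1

theorem SK5B_te (hS : IsSkU σ j τ) (he : ∀ k a, σ k (SAlg.e q c a) = SAlg.e q c a)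
    {t : (Fin ρ → ℤ) → Tˣ} (t0 : t 0 = 1)
    (ta : ∀ z z', t (z + z') = t z * t z') (ts : ∀ k, t (Pi.single k 1) = τ k)
    (a : Fin (m + 1)) (z : Fin ρ → ℤ) : (t z : T) * j (SAlg.e q c a) = j (SAlg.e q c a) * t z := by
  refine SK5B_zind (fun z => (t z : T) * j (SAlg.e q c a) = j (SAlg.e q c a) * t z) ?_ ?_ ?_ ?_ z
  · show (t 0 : T) * j (SAlg.e q c a) = j (SAlg.e q c a) * t 0
    rw [t0, Units.val_one, one_mul, mul_one]
  · intro k
    show (t (Pi.single k 1) : T) * j (SAlg.e q c a) = j (SAlg.e q c a) * t (Pi.single k 1)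
    rw [ts, hS.comm, he]
  · intro x y hx hy
    show (t (x + y) : T) * j (SAlg.e q c a) = j (SAlg.e q c a) * t (x + y)
    rw [ta, Units.val_mul, mul_assoc, show (t y : T) * j (SAlg.e q c a) = _ from hy, ← mul_assoc,
      show (t x : T) * j (SAlg.e q c a) = _ from hx, mul_assoc]
  · intro x hx
    show (t (-x) : T) * j (SAlg.e q c a) = j (SAlg.e q c a) * t (-x)
    rw [SK5B_tneg t0 ta]
    exact (Commute.units_inv_left (show Commute (t x : T) (j (SAlg.e q c a)) from hx)).eq

theorem SK5B_tp (hS : IsSkU σ j τ) (hp : ∀ k g, σ k (SAlg.p q c g) = SAlg.p q c (g + bv k))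
    {t : (Fin ρ → ℤ) → Tˣ} (t0 : t 0 = 1)
    (ta : ∀ z z', t (z + z') = t z * t z') (ts : ∀ k, t (Pi.single k 1) = τ k)
    (z : Fin ρ → ℤ) : ∀ g, (t z : T) * j (SAlg.p q c g) = j (SAlg.p q c (g + cl z)) * t z := by
  refine SK5B_zind (fun z => ∀ g, (t z : T) * j (SAlg.p q c g) = j (SAlg.p q c (g + cl z)) * t z)
    ?_ ?_ ?_ ?_ z
  · intro g
    have h0 : cl (0 : Fin ρ → ℤ) = 0 := by
      funext k
      simp [cl]
    show (t 0 : T) * j (SAlg.p q c g) = j (SAlg.p q c (g + cl 0)) * t 0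
    rw [t0, Units.val_one, one_mul, mul_one, h0, add_zero]
  · intro k g
    show (t (Pi.single k 1) : T) * j (SAlg.p q c g) = j (SAlg.p q c (g + cl (Pi.single k 1))) *
      t (Pi.single k 1)
    rw [ts, hS.comm, hp, SK5B_cl_single]
  · intro x y hx hy g
    show (t (x + y) : T) * j (SAlg.p q c g) = j (SAlg.p q c (g + cl (x + y))) * t (x + y)
    rw [ta, Units.val_mul, mul_assoc, hy g, ← mul_assoc, hx (g + cl y), mul_assoc, SK5B_cl_add,
      add_assoc, add_comm (cl y)]
  · intro x hx g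
    show (t (-x) : T) * j (SAlg.p q c g) = j (SAlg.p q c (g + cl (-x))) * t (-x)
    have h1 := hx (g + cl (-x))
    rw [add_assoc, SK5B_cl_neg, neg_add_cancel, add_zero] at h1
    rw [SK5B_tneg t0 ta, SK5B_cl_neg, Units.eq_mul_inv_iff_mul_eq, mul_assoc, ← h1, ← mul_assoc,
      Units.inv_mul, one_mul]

theorem SK5B_cen (hK : IsKap q c j τ b u κ) (r : B) (x : T) :
    j (algebraMap B _ r) * x = x * j (algebraMap B _ r) := by
  rw [← hK.base]
  exact hK.central _ _

theorem SK5B_mkD (hq : ParQ c q) (he : ∀ k a, σ k (SAlg.e q c a) = SAlg.e q c a)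
    (hp : ∀ k g, σ k (SAlg.p q c g) = SAlg.p q c (g + bv k)) (hS : IsSkU σ j τ)
    (hK : IsKap q c j τ b u κ) {t : (Fin ρ → ℤ) → Tˣ} (t0 : t 0 = 1)
    (ta : ∀ z z', t (z + z') = t z * t z') (ts : ∀ k, t (Pi.single k 1) = τ k) :
    SK5B_D (tw b u c q) κ (j (SAlg.p q c 0)) (fun a => (t (c a) : T) * j (SAlg.e q c a)) where
  central := hK.central
  fin := hK.fin
  idem := by rw [← map_mul, (SAlg.rep q c).idem]
  comm a := by
    show j (SAlg.p q c 0) * ((t (c a) : T) * j (SAlg.e q c a)) =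
      (t (c a) : T) * j (SAlg.e q c a) * j (SAlg.p q c 0)
    have h1 := SK5B_tp hS hp t0 ta ts (c a) (cl (c a))
    rw [SK5B_gg] at h1
    rw [← mul_assoc, ← h1, mul_assoc, mul_assoc, ← map_mul, ← map_mul, (SAlg.rep q c).shift,
      zero_add]
  rel1 a := by
    show (t (c a) : T) * j (SAlg.e q c a) * ((t (c a) : T) * j (SAlg.e q c a)) +
      κ ((tw b u c q).lam a) * ((t (c a) : T) * j (SAlg.e q c a)) + κ ((tw b u c q).gam a a) = 0
    have h1 : κ ((tw b u c q).lam a) = j (algebraMap B _ (q.lam a)) * (t (c a) : T) :=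
      SK5B_sc hK t0 ta ts _ _ (hq.1 a)
    have h2 : κ ((tw b u c q).gam a a) = j (algebraMap B _ (q.gam a a)) * (t (c a + c a) : T) :=
      SK5B_sc hK t0 ta ts _ (c a + c a) (hq.2 a a)
    have h3 : j (SAlg.e q c a) * j (SAlg.e q c a) + j (algebraMap B _ (q.lam a)) *
        j (SAlg.e q c a) + j (algebraMap B _ (q.gam a a)) = 0 := by
      rw [← map_mul, ← map_mul, ← map_add, ← map_add, ← Algebra.smul_def, (SAlg.rep q c).sq,
        map_zero]
    have hx := SK5B_te hS he t0 ta ts a (c a)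
    rw [h1, h2, ta, Units.val_mul]
    have e1 : (t (c a) : T) * j (SAlg.e q c a) * ((t (c a) : T) * j (SAlg.e q c a)) =
        t (c a) * t (c a) * (j (SAlg.e q c a) * j (SAlg.e q c a)) := by
      rw [mul_assoc, ← mul_assoc (j (SAlg.e q c a)), ← hx]
      simp only [mul_assoc]
    have e2 : j (algebraMap B _ (q.lam a)) * (t (c a) : T) * ((t (c a) : T) * j (SAlg.e q c a)) =
        t (c a) * t (c a) * (j (algebraMap B _ (q.lam a)) * j (SAlg.e q c a)) := by
      rw [← mul_assoc, mul_assoc (j (algebraMap B _ (q.lam a))), SK5B_cen hK, mul_assoc]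
    rw [e1, e2, SK5B_cen hK (q.gam a a), ← mul_add, ← mul_add, h3, mul_zero]
  rel2 a a' haa := by
    show (t (c a) : T) * j (SAlg.e q c a) * ((t (c a') : T) * j (SAlg.e q c a')) +
      (t (c a') : T) * j (SAlg.e q c a') * ((t (c a) : T) * j (SAlg.e q c a)) +
      κ ((tw b u c q).lam a) * ((t (c a') : T) * j (SAlg.e q c a')) +
      κ ((tw b u c q).lam a') * ((t (c a) : T) * j (SAlg.e q c a)) +
      κ ((tw b u c q).gam a a' + (tw b u c q).gam a' a) = 0
    have h1 : ∀ a, κ ((tw b u c q).lam a) = j (algebraMap B _ (q.lam a)) * (t (c a) : T) :=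
      fun a => SK5B_sc hK t0 ta ts _ _ (hq.1 a)
    have h2 : ∀ a a', κ ((tw b u c q).gam a a') = j (algebraMap B _ (q.gam a a')) *
        ((t (c a) : T) * t (c a')) := by
      intro a a'
      rw [← Units.val_mul, ← ta]
      exact SK5B_sc hK t0 ta ts _ (c a + c a') (hq.2 a a')
    have h3 : j (SAlg.e q c a) * j (SAlg.e q c a') + j (SAlg.e q c a') * j (SAlg.e q c a) +
        j (algebraMap B _ (q.lam a)) * j (SAlg.e q c a') +
        j (algebraMap B _ (q.lam a')) * j (SAlg.e q c a) +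
        (j (algebraMap B _ (q.gam a a')) + j (algebraMap B _ (q.gam a' a))) = 0 := by
      rw [← map_mul, ← map_mul, ← map_mul, ← map_mul, ← map_add, ← map_add, ← map_add, ← map_add,
        ← map_add, ← Algebra.smul_def, ← Algebra.smul_def, ← map_add, (SAlg.rep q c).mul a a' haa,
        map_zero]
    rw [map_add, h1, h1, h2, h2, SK5B_alg _ _ _ _ _ _ _ _ ?_ (SK5B_te hS he t0 ta ts a (c a'))
      (SK5B_te hS he t0 ta ts a' (c a)) (SK5B_cen hK _) (SK5B_cen hK _) (SK5B_cen hK _)
      (SK5B_cen hK _), h3, mul_zero]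
    rw [← Units.val_mul, ← Units.val_mul, ← ta, ← ta, add_comm]

end alg


section Theta

variable {V : Type} [CommRing V] {ρ : ℕ} (u : Fin ρ → Vˣ) (M : Type) [AddCommGroup M] [Module V M]

/-- the group `Θ M` -/
def SK5B_Th : Submodule V ((Fin ρ → ℤ) → M) where
  carrier := {x | ∀ z w : Fin ρ → ℤ, x (z + (w + w)) = ((mon u (-w) : Vˣ) : V) • x z}
  zero_mem' := fun z w => (smul_zero _).symm
  add_mem' := by
    intro x y hx hy z w
    show x (z + (w + w)) + y (z + (w + w)) = ((mon u (-w) : Vˣ) : V) • (x z + y z)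
    rw [hx z w, hy z w, smul_add]
  smul_mem' := by
    intro v x hx z w
    show v • x (z + (w + w)) = ((mon u (-w) : Vˣ) : V) • v • x z
    rw [hx z w, smul_comm]

variable {M}

/-- the operator `x ↦ (z ↦ f (x (z + d)))` -/
def SK5B_Te (f : M →ₗ[V] M) (d : Fin ρ → ℤ) : SK5B_Th u M →ₗ[V] SK5B_Th u M where
  toFun x := ⟨fun z => f (x.1 (z + d)), by
    intro z w
    show f (x.1 (z + (w + w) + d)) = ((mon u (-w) : Vˣ) : V) • f (x.1 (z + d))
    rw [← map_smul, ← x.2 (z + d) w, add_right_comm]⟩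
  map_add' x y := Subtype.ext (funext fun z => map_add f _ _)
  map_smul' v x := Subtype.ext (funext fun z => map_smul f v _)

/-- the projection to the part of degree `g` -/
def SK5B_Tp (g : GG ρ) : SK5B_Th u M →ₗ[V] SK5B_Th u M where
  toFun x := ⟨fun z => if cl z = g then x.1 z else 0, by
    intro z w
    show (if cl (z + (w + w)) = g then x.1 (z + (w + w)) else 0) =
      ((mon u (-w) : Vˣ) : V) • (if cl z = g then x.1 z else 0)
    rw [SK5B_cl_two]
    by_cases h : cl z = g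
    · rw [if_pos h, if_pos h, x.2 z w]
    · rw [if_neg h, if_neg h, smul_zero]⟩
  map_add' x y := Subtype.ext (funext fun z => by
    show (if cl z = g then x.1 z + y.1 z else 0) =
      (if cl z = g then x.1 z else 0) + (if cl z = g then y.1 z else 0)
    by_cases h : cl z = g
    · rw [if_pos h, if_pos h, if_pos h]
    · rw [if_neg h, if_neg h, if_neg h, add_zero])
  map_smul' v x := Subtype.ext (funext fun z => by
    show (if cl z = g then v • x.1 z else 0) = v • (if cl z = g then x.1 z else 0)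
    by_cases h : cl z = g
    · rw [if_pos h, if_pos h]
    · rw [if_neg h, if_neg h, smul_zero])

theorem SK5B_Te_apply (f : M →ₗ[V] M) (d : Fin ρ → ℤ) (x : SK5B_Th u M) (z : Fin ρ → ℤ) :
    (SK5B_Te u f d x).1 z = f (x.1 (z + d)) := rfl

theorem SK5B_Tp_apply (g : GG ρ) (x : SK5B_Th u M) (z : Fin ρ → ℤ) :
    (SK5B_Tp u g x).1 z = if cl z = g then x.1 z else 0 := rfl

theorem SK5B_Te_mul (f f' : Module.End V M) (d d' : Fin ρ → ℤ) :
    (SK5B_Te u f d : Module.End V (SK5B_Th u M)) * SK5B_Te u f' d' = SK5B_Te u (f * f') (d + d') := by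
  refine LinearMap.ext fun x => Subtype.ext (funext fun z => ?_)
  show f (f' (x.1 (z + d + d'))) = f (f' (x.1 (z + (d + d'))))
  rw [add_assoc]

theorem SK5B_Te_two (f : Module.End V M) (d w : Fin ρ → ℤ) :
    (SK5B_Te u f (d + (w + w)) : Module.End V (SK5B_Th u M)) =
      ((mon u (-w) : Vˣ) : V) • SK5B_Te u f d := by
  refine LinearMap.ext fun x => Subtype.ext (funext fun z => ?_)
  show f (x.1 (z + (d + (w + w)))) = ((mon u (-w) : Vˣ) : V) • f (x.1 (z + d))
  rw [← add_assoc, x.2 (z + d) w, map_smul]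

theorem SK5B_Te_one : (SK5B_Te u 1 0 : Module.End V (SK5B_Th u M)) = 1 := by
  refine LinearMap.ext fun x => Subtype.ext (funext fun z => ?_)
  show x.1 (z + 0) = x.1 z
  rw [add_zero]

theorem SK5B_Te_add (f f' : Module.End V M) (d : Fin ρ → ℤ) :
    (SK5B_Te u (f + f') d : Module.End V (SK5B_Th u M)) = SK5B_Te u f d + SK5B_Te u f' d := rfl

theorem SK5B_Te_smul (v : V) (f : Module.End V M) (d : Fin ρ → ℤ) :
    (SK5B_Te u (v • f) d : Module.End V (SK5B_Th u M)) = v • SK5B_Te u f d := rfl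

theorem SK5B_Te_zero (d : Fin ρ → ℤ) :
    (SK5B_Te u 0 d : Module.End V (SK5B_Th u M)) = 0 := rfl

/-- scalars -/
theorem SK5B_Te_sc {B : Type} [CommRing B] (b : B →+* V) (r : B) (w : Fin ρ → ℤ)
    (h : r ≠ 0 → ∀ k, (2 : ℤ) ∣ w k) (f : Module.End V M) (d : Fin ρ → ℤ) :
    ((b r * (mon u (fun k => w k / 2) : Vˣ) : V) • SK5B_Te u f (d + w) :
      Module.End V (SK5B_Th u M)) = b r • SK5B_Te u f d := by
  by_cases hr : r = 0
  · rw [hr, map_zero, zero_mul, zero_smul, zero_smul]
  · have h1 := SK5B_half (h hr)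
    have h2 : (SK5B_Te u f (d + w) : Module.End V (SK5B_Th u M)) =
        ((mon u (-(fun k => w k / 2)) : Vˣ) : V) • SK5B_Te u f d := by
      rw [← SK5B_Te_two, h1]
    rw [h2, smul_smul, mul_assoc, mon_neg, Units.mul_inv, mul_one]

theorem SK5B_rep {B : Type} [CommRing B] {m : ℕ} (b : B →+* V) {q : QD B m}
    {c : Fin (m + 1) → Fin ρ → ℤ} (hq : ParQ c q) (M : CMod (tw b u c q)) :
    letI : Algebra B (Module.End V (SK5B_Th u M)) := Algebra.compHom _ b
    SRep q c (E := Module.End V (SK5B_Th u M)) (fun a => SK5B_Te u (M.e a) (c a))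
      (fun g => SK5B_Tp u g) := by
  letI : Algebra B (Module.End V (SK5B_Th u M)) := Algebra.compHom _ b
  have hal : ∀ r : B, algebraMap B (Module.End V (SK5B_Th u M)) r =
      b r • (SK5B_Te u 1 0 : Module.End V (SK5B_Th u M)) := by
    intro r
    rw [SK5B_Te_one]
    rfl
  have hr1 : ∀ a, (M.e a : Module.End V M) * M.e a + (tw b u c q).lam a • (M.e a : Module.End V M) +
      (tw b u c q).gam a a • (1 : Module.End V M) = 0 := fun a =>
    LinearMap.ext fun x => M.rel1 a x
  have hr2 : ∀ a a', a ≠ a' → (M.e a : Module.End V M) * M.e a' + (M.e a' : Module.End V M) * M.e a +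
      (tw b u c q).lam a • (M.e a' : Module.End V M) +
      (tw b u c q).lam a' • (M.e a : Module.End V M) +
      ((tw b u c q).gam a a' + (tw b u c q).gam a' a) • (1 : Module.End V M) = 0 :=
    fun a a' h => LinearMap.ext fun x => M.rel2 a a' h x
  refine ⟨?_, ?_, ?_, ?_, ?_, ?_⟩
  · intro a
    show (SK5B_Te u (M.e a) (c a) : Module.End V (SK5B_Th u M)) * SK5B_Te u (M.e a) (c a) +
      b (q.lam a) • SK5B_Te u (M.e a) (c a) + algebraMap B _ (q.gam a a) = 0
    have h1 := SK5B_Te_sc u b (q.lam a) (c a) (hq.1 a) (M.e a) (c a)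
    have h2 := SK5B_Te_sc u b (q.gam a a) (c a + c a) (hq.2 a a) (1 : Module.End V M) 0
    rw [zero_add] at h2
    rw [hal, ← h1, ← h2, SK5B_Te_mul, ← SK5B_Te_smul, ← SK5B_Te_smul, ← SK5B_Te_add,
      ← SK5B_Te_add]
    exact (congrArg (fun f => SK5B_Te u f (c a + c a)) (hr1 a)).trans (SK5B_Te_zero u _)
  · intro a a' haa
    show (SK5B_Te u (M.e a) (c a) : Module.End V (SK5B_Th u M)) * SK5B_Te u (M.e a') (c a') +
      (SK5B_Te u (M.e a') (c a') : Module.End V (SK5B_Th u M)) * SK5B_Te u (M.e a) (c a) +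
      b (q.lam a) • SK5B_Te u (M.e a') (c a') + b (q.lam a') • SK5B_Te u (M.e a) (c a) +
      algebraMap B _ (q.gam a a' + q.gam a' a) = 0
    have h1 := SK5B_Te_sc u b (q.lam a) (c a) (hq.1 a) (M.e a') (c a')
    have h1' := SK5B_Te_sc u b (q.lam a') (c a') (hq.1 a') (M.e a) (c a)
    have h2 := SK5B_Te_sc u b (q.gam a a') (c a + c a') (hq.2 a a') (1 : Module.End V M) 0
    have h2' := SK5B_Te_sc u b (q.gam a' a) (c a' + c a) (hq.2 a' a) (1 : Module.End V M) 0
    rw [zero_add] at h2 h2'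
    rw [add_comm (c a') (c a)] at h1
    rw [add_comm (c a') (c a)] at h2'
    rw [map_add, hal, hal, ← h1, ← h1', ← h2, SK5B_Te_mul, SK5B_Te_mul, add_comm (c a') (c a)]
    have h3 : (b (q.gam a' a) • SK5B_Te u (1 : Module.End V M) 0 : Module.End V (SK5B_Th u M)) =
        (tw b u c q).gam a' a • SK5B_Te u (1 : Module.End V M) (c a + c a') := by
      rw [← h2']
      have e : (fun k => (c a + c a') k / 2) = (fun k => (c a' k + c a k) / 2) :=
        funext fun k => by rw [Pi.add_apply, add_comm]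
      rw [e]
      rfl
    rw [h3]
    have h4 := (congrArg (fun f => SK5B_Te u f (c a + c a')) (hr2 a a' haa)).trans
      (SK5B_Te_zero u _)
    rw [add_smul] at h4
    exact h4
  · intro g
    refine LinearMap.ext fun x => Subtype.ext (funext fun z => ?_)
    show (if cl z = g then (if cl z = g then x.1 z else 0) else 0) = if cl z = g then x.1 z else 0
    by_cases h : cl z = g
    · rw [if_pos h, if_pos h]
    · rw [if_neg h, if_neg h]
  · intro g g' hg
    refine LinearMap.ext fun x => Subtype.ext (funext fun z => ?_)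
    show (if cl z = g then (if cl z = g' then x.1 z else 0) else 0) = 0
    by_cases h : cl z = g
    · rw [if_pos h, if_neg (fun h' => hg (h.symm.trans h'))]
    · rw [if_neg h]
  · refine LinearMap.ext fun x => Subtype.ext (funext fun z => ?_)
    rw [LinearMap.sum_apply]
    show (SK5B_Th u M).subtype (∑ g, SK5B_Tp u g x) z = x.1 z
    rw [map_sum, Finset.sum_apply, Finset.sum_eq_single (cl z)]
    · show (if cl z = cl z then x.1 z else 0) = x.1 z
      rw [if_pos rfl]
    · intro g _ hg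
      show (if cl z = g then x.1 z else 0) = 0
      rw [if_neg (Ne.symm hg)]
    · intro h
      exact absurd (Finset.mem_univ _) h
  · intro a g
    refine LinearMap.ext fun x => Subtype.ext (funext fun z => ?_)
    show M.e a (if cl (z + c a) = g then x.1 (z + c a) else 0) =
      if cl z = g + cl (c a) then M.e a (x.1 (z + c a)) else 0
    have hiff : cl (z + c a) = g ↔ cl z = g + cl (c a) := by
      rw [SK5B_cl_add]
      constructor
      · intro h
        rw [← h, add_assoc, SK5B_gg, add_zero]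
      · intro h
        rw [h, add_assoc, SK5B_gg, add_zero]
    by_cases h : cl (z + c a) = g
    · rw [if_pos h, if_pos (hiff.1 h)]
    · rw [if_neg h, if_neg (fun h' => h (hiff.2 h')), map_zero]

end Theta


section Final

theorem SK5B_even {ρ : ℕ} {z : Fin ρ → ℤ} (h : cl z = 0) : ∀ k, (2 : ℤ) ∣ z k := fun k =>
  (ZMod.intCast_zmod_eq_zero_iff_dvd (z k) 2).1 (congrFun h k)

section

variable {V : Type} [CommRing V] {ρ : ℕ} (u : Fin ρ → Vˣ) (M : Type) [AddCommGroup M] [Module V M]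

/-- the shift as a unit -/
def SK5B_Tu (z : Fin ρ → ℤ) : (Module.End V (SK5B_Th u M))ˣ where
  val := SK5B_Te u 1 (-z)
  inv := SK5B_Te u 1 z
  val_inv := by rw [SK5B_Te_mul, one_mul, neg_add_cancel, SK5B_Te_one]
  inv_val := by rw [SK5B_Te_mul, one_mul, add_neg_cancel, SK5B_Te_one]

theorem SK5B_Tu_add (z z' : Fin ρ → ℤ) : SK5B_Tu u M (z + z') = SK5B_Tu u M z * SK5B_Tu u M z' :=
  Units.ext (by
    show (SK5B_Te u 1 (-(z + z')) : Module.End V (SK5B_Th u M)) =
      (SK5B_Te u 1 (-z) : Module.End V (SK5B_Th u M)) * SK5B_Te u 1 (-z')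
    rw [SK5B_Te_mul, one_mul, neg_add])

theorem SK5B_Tu_zero : SK5B_Tu u M 0 = 1 :=
  Units.ext (by
    show (SK5B_Te u 1 (-0) : Module.End V (SK5B_Th u M)) = 1
    rw [neg_zero, SK5B_Te_one])

theorem SK5B_ThFin [IsNoetherianRing V] [Module.Finite V M] : Module.Finite V (SK5B_Th u M) := by
  let R : SK5B_Th u M →ₗ[V] (GG ρ → M) :=
    { toFun := fun x g => x.1 (fun k => ((g k).val : ℤ))
      map_add' := fun x y => rfl
      map_smul' := fun v x => rfl }
  refine Module.Finite.of_injective R ?_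
  rw [injective_iff_map_eq_zero]
  intro x hx
  refine Subtype.ext (funext fun z => ?_)
  have h1 : x.1 (fun k => ((cl z k).val : ℤ)) = 0 := congrFun hx (cl z)
  have h2 : z = (fun k => ((cl z k).val : ℤ)) + ((fun k => z k / 2) + fun k => z k / 2) := by
    funext k
    show z k = ((((z k : ℤ) : ZMod 2)).val : ℤ) + (z k / 2 + z k / 2)
    rw [ZMod.val_intCast]
    show z k = z k % 2 + (z k / 2 + z k / 2)
    omega
  rw [h2, x.2, h1, smul_zero]
  rfl

end

variable {B V T : Type} [CommRing B] [CommRing V] [Ring T] {m ρ : ℕ} {q : QD B m}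
    {c : Fin (m + 1) → Fin ρ → ℤ} {σ : Fin ρ → SAlg q c ≃+* SAlg q c}
    {j : SAlg q c →+* T} {τ : Fin ρ → Tˣ} {b : B →+* V} {u : Fin ρ → Vˣ} {κ : V →+* T}

theorem SK5B_Phi (hq : ParQ c q)
    (hb : ∀ k (r : B), σ k (algebraMap B _ r) = algebraMap B _ r)
    (he : ∀ k a, σ k (SAlg.e q c a) = SAlg.e q c a)
    (hp : ∀ k g, σ k (SAlg.p q c g) = SAlg.p q c (g + bv k))
    (hS : IsSkU σ j τ) (b : B →+* V) (u : Fin ρ → Vˣ) (M : CMod (tw b u c q)) :
    ∃ Φ : T →+* Module.End V (SK5B_Th u M),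
      (∀ r : B, Φ (j (algebraMap B _ r)) = b r • (1 : Module.End V (SK5B_Th u M))) ∧
      (∀ a, Φ (j (SAlg.e q c a)) = SK5B_Te u (M.e a) (c a)) ∧
      (∀ g, Φ (j (SAlg.p q c g)) = SK5B_Tp u g) ∧
      ∀ k, Φ (τ k) = SK5B_Te u 1 (-(Pi.single k 1)) := by
  letI : Algebra B (Module.End V (SK5B_Th u M)) := Algebra.compHom _ b
  obtain ⟨φ, hφe, hφp⟩ := SAlg.lift (SK5B_rep u b hq M)
  obtain ⟨Φ, h1, h2⟩ := hS.lift (Module.End V (SK5B_Th u M)) φ.toRingHom
    (fun k => SK5B_Tu u M (Pi.single k 1)) (by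
      intro k r
      show (SK5B_Te u 1 (-(Pi.single k 1)) : Module.End V (SK5B_Th u M)) * φ r =
        φ (σ k r) * SK5B_Te u 1 (-(Pi.single k 1))
      refine SAlg.ind (fun r => (SK5B_Te u 1 (-(Pi.single k 1)) : Module.End V (SK5B_Th u M)) * φ r =
        φ (σ k r) * SK5B_Te u 1 (-(Pi.single k 1))) ?_ ?_ ?_ ?_ ?_ r
      · intro r
        show (SK5B_Te u 1 (-(Pi.single k 1)) : Module.End V (SK5B_Th u M)) *
          φ (algebraMap B _ r) = φ (σ k (algebraMap B _ r)) * SK5B_Te u 1 (-(Pi.single k 1))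
        rw [hb, AlgHom.commutes]
        exact (Algebra.commutes r _).symm
      · intro a
        show (SK5B_Te u 1 (-(Pi.single k 1)) : Module.End V (SK5B_Th u M)) *
          φ (SAlg.e q c a) = φ (σ k (SAlg.e q c a)) * SK5B_Te u 1 (-(Pi.single k 1))
        rw [he, hφe, SK5B_Te_mul, SK5B_Te_mul, one_mul, mul_one, add_comm]
      · intro g
        show (SK5B_Te u 1 (-(Pi.single k 1)) : Module.End V (SK5B_Th u M)) *
          φ (SAlg.p q c g) = φ (σ k (SAlg.p q c g)) * SK5B_Te u 1 (-(Pi.single k 1))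
        rw [hp, hφp, hφp]
        refine LinearMap.ext fun x => Subtype.ext (funext fun z => ?_)
        show (if cl (z + -(Pi.single k 1)) = g then x.1 (z + -(Pi.single k 1)) else 0) =
          if cl z = g + bv k then x.1 (z + -(Pi.single k 1)) else 0
        have hiff : cl (z + -(Pi.single k 1)) = g ↔ cl z = g + bv k := by
          rw [SK5B_cl_add, SK5B_cl_neg, SK5B_cl_single]
          constructor
          · intro h
            rw [← h, add_assoc, neg_add_cancel, add_zero]
          · intro h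
            rw [h, add_assoc, add_neg_cancel, add_zero]
        by_cases h : cl (z + -(Pi.single k 1)) = g
        · rw [if_pos h, if_pos (hiff.1 h)]
        · rw [if_neg h, if_neg (fun h' => h (hiff.2 h'))]
      · intro x y hx hy
        show (SK5B_Te u 1 (-(Pi.single k 1)) : Module.End V (SK5B_Th u M)) * φ (x * y) =
          φ (σ k (x * y)) * SK5B_Te u 1 (-(Pi.single k 1))
        rw [map_mul, map_mul, map_mul, ← mul_assoc, hx, mul_assoc, hy, mul_assoc]
      · intro x y hx hy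
        show (SK5B_Te u 1 (-(Pi.single k 1)) : Module.End V (SK5B_Th u M)) * φ (x + y) =
          φ (σ k (x + y)) * SK5B_Te u 1 (-(Pi.single k 1))
        rw [map_add, map_add, map_add, mul_add, hx, hy, add_mul])
    (by
      intro k l
      show SK5B_Tu u M (Pi.single k 1) * SK5B_Tu u M (Pi.single l 1) =
        SK5B_Tu u M (Pi.single l 1) * SK5B_Tu u M (Pi.single k 1)
      rw [← SK5B_Tu_add, ← SK5B_Tu_add, add_comm])
  refine ⟨Φ, fun r => ?_, fun a => ?_, fun g => ?_, fun k => ?_⟩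
  · rw [h1]
    show φ (algebraMap B _ r) = _
    rw [AlgHom.commutes]
    rfl
  · rw [h1]
    exact hφe a
  · rw [h1]
    exact hφp g
  · rw [h2]
    rfl

theorem SK5B_kap {E : Type} [Ring E] (hL : IsLauR b u) (ψ1 ψ2 : V →+* E)
    (h1 : ∀ r, ψ1 (b r) = ψ2 (b r)) (h2 : ∀ k, ψ1 (u k) = ψ2 (u k)) : ψ1 = ψ2 := by
  have hpoly : ∀ p : MvPolynomial (Fin ρ) B, ψ1 (eval₂Hom b (fun k => (u k : V)) p) =
      ψ2 (eval₂Hom b (fun k => (u k : V)) p) := by
    intro p
    induction p using MvPolynomial.induction_on with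
    | C a => rw [eval₂Hom_C, h1]
    | add p p' hp hp' => rw [map_add, map_add, map_add, hp, hp']
    | mul_X p k hp => rw [map_mul, map_mul, map_mul, hp, eval₂Hom_X', h2]
  refine RingHom.ext fun v => ?_
  obtain ⟨N, p, hp⟩ := hL.frac v
  have hw : (∏ k, (u k : V)) ^ N = eval₂Hom b (fun k => (u k : V)) ((∏ k, X k) ^ N) := by
    rw [map_pow, map_prod]
    congr 1
    exact Finset.prod_congr rfl fun k _ => by rw [eval₂Hom_X']
  have hu : IsUnit ((∏ k, (u k : V)) ^ N) := by
    rw [← Units.coe_prod, ← Units.val_pow_eq_pow_val]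
    exact Units.isUnit _
  have h3 := congrArg ψ1 hp
  have h4 := congrArg ψ2 hp
  have h5 : ψ1 (eval₂ b (fun k => (u k : V)) p) = ψ2 (eval₂ b (fun k => (u k : V)) p) := hpoly p
  rw [map_mul] at h3 h4
  rw [h5, ← h4, hw, hpoly, ← hw] at h3
  exact (hu.map ψ2).mul_right_cancel h3

theorem SK5B_obj [IsNoetherianRing V] (hq : ParQ c q)
    (hb : ∀ k (r : B), σ k (algebraMap B _ r) = algebraMap B _ r)
    (he : ∀ k a, σ k (SAlg.e q c a) = SAlg.e q c a)
    (hp : ∀ k g, σ k (SAlg.p q c g) = SAlg.p q c (g + bv k)) (hS : IsSkU σ j τ)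
    (hL : IsLauR b u) (hK : IsKap q c j τ b u κ) {t : (Fin ρ → ℤ) → Tˣ} (t0 : t 0 = 1)
    (ta : ∀ z z', t (z + z') = t z * t z') (ts : ∀ k, t (Pi.single k 1) = τ k)
    (D : SK5B_D (tw b u c q) κ (j (SAlg.p q c 0)) (fun a => (t (c a) : T) * j (SAlg.e q c a)))
    (M : CMod (tw b u c q)) :
    ∃ (N : LMod T) (e : (SK5B_Psi D N) ≃ₗ[V] M),
      ∀ a x, e ((SK5B_Psi D N).e a x) = M.e a (e x) := by
  obtain ⟨Φ, hΦb, hΦe, hΦp, hΦt⟩ := SK5B_Phi hq hb he hp hS b u M
  have hκ : Φ.comp κ = algebraMap V (Module.End V (SK5B_Th u M)) := by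
    refine SK5B_kap (E := Module.End V (SK5B_Th u M)) hL (Φ.comp κ)
      (algebraMap V (Module.End V (SK5B_Th u M))) (fun r => ?_) (fun k => ?_)
    · show Φ (κ (b r)) = _
      rw [hK.base, hΦb, Algebra.algebraMap_eq_smul_one]
    · show Φ (κ (u k)) = _
      rw [hK.unit, map_mul, hΦt, SK5B_Te_mul, one_mul, Algebra.algebraMap_eq_smul_one]
      have h1 := SK5B_Te_two u (1 : Module.End V M) 0 (-(Pi.single k 1))
      rw [zero_add, neg_neg, mon_single, zpow_one, SK5B_Te_one] at h1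
      exact h1
  have hκ' : ∀ (v : V) (x : SK5B_Th u M), Φ (κ v) x = v • x := fun v x =>
    congrArg (fun f : V →+* Module.End V (SK5B_Th u M) => f v x) hκ
  have htz : ∀ z, Φ (t z : T) = SK5B_Te u 1 (-z) := by
    intro z
    refine congrArg Units.val (SK5B_zind (fun z => Units.map (Φ : T →* _) (t z) = SK5B_Tu u M z)
      ?_ ?_ ?_ ?_ z)
    · show Units.map (Φ : T →* _) (t 0) = SK5B_Tu u M 0
      rw [t0, map_one, SK5B_Tu_zero]
    · intro k
      show Units.map (Φ : T →* _) (t (Pi.single k 1)) = SK5B_Tu u M (Pi.single k 1)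
      rw [ts]
      exact Units.ext (hΦt k)
    · intro x y hx hy
      show Units.map (Φ : T →* _) (t (x + y)) = SK5B_Tu u M (x + y)
      rw [ta, map_mul, SK5B_Tu_add]
      exact congrArg₂ (· * ·) hx hy
    · intro x hx
      show Units.map (Φ : T →* _) (t (-x)) = SK5B_Tu u M (-x)
      rw [SK5B_tneg t0 ta, map_inv, SK5B_tneg (T := Module.End V (SK5B_Th u M))
        (t := SK5B_Tu u M) (SK5B_Tu_zero u M) (SK5B_Tu_add u M)]
      exact congrArg _ hx
  letI : Module T (SK5B_Th u M) := Module.compHom (SK5B_Th u M) Φ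
  haveI hfV : Module.Finite V (SK5B_Th u M) := SK5B_ThFin u M
  haveI : Module.Finite T (SK5B_Th u M) := by
    obtain ⟨G, hG⟩ := hfV.fg_top
    refine ⟨⟨G, ?_⟩⟩
    rw [eq_top_iff]
    intro x _
    have hx : x ∈ Submodule.span V (G : Set (SK5B_Th u M)) := by
      rw [hG]
      exact Submodule.mem_top
    refine Submodule.span_induction (p := fun x _ => x ∈ Submodule.span T
      (G : Set (SK5B_Th u M))) ?_ ?_ ?_ ?_ hx
    · exact fun x hx => Submodule.subset_span hx
    · exact Submodule.zero_mem _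
    · exact fun x y _ _ hx hy => Submodule.add_mem _ hx hy
    · intro v x _ hx
      have h1 := Submodule.smul_mem _ (κ v) hx
      have h2 : κ v • x = v • x := hκ' v x
      rw [h2] at h1
      exact h1
  let N : LMod T := LMod.of T (SK5B_Th u M)
  let ev : (SK5B_Psi D N) →ₗ[V] M :=
    { toFun := fun x => (x.1 : SK5B_Th u M).1 0
      map_add' := fun x y => rfl
      map_smul' := fun v x => by
        show (Φ (κ v) (x.1 : SK5B_Th u M)).1 0 = v • (x.1 : SK5B_Th u M).1 0
        rw [hκ']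
        rfl }
  have hfix : ∀ (x : SK5B_Psi D N) (z : Fin ρ → ℤ), (if cl z = 0 then (x.1 : SK5B_Th u M).1 z else 0) =
      (x.1 : SK5B_Th u M).1 z := by
    intro x z
    have h1 : Φ (j (SAlg.p q c 0)) (x.1 : SK5B_Th u M) = x.1 := x.2
    rw [hΦp] at h1
    exact congrArg (fun y : SK5B_Th u M => y.1 z) h1
  have hbij : Bijective ev := by
    constructor
    · rw [injective_iff_map_eq_zero]
      intro x hx
      have hx' : (x.1 : SK5B_Th u M).1 0 = 0 := hx
      refine Subtype.ext (Subtype.ext (funext fun z => ?_))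
      show (x.1 : SK5B_Th u M).1 z = 0
      rw [← hfix]
      by_cases h : cl z = 0
      · rw [if_pos h]
        have h1 := (x.1 : SK5B_Th u M).2 0 (fun k => z k / 2)
        rw [SK5B_half (SK5B_even h), zero_add, hx', smul_zero] at h1
        exact h1
      · rw [if_neg h]
    · intro y
      have hc0 : cl (0 : Fin ρ → ℤ) = 0 := by
        funext k
        simp [cl]
      let x : SK5B_Th u M := ⟨fun z => if cl z = 0 then
        ((mon u (-(fun k => z k / 2)) : Vˣ) : V) • y else 0, by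
          intro z w
          show (if cl (z + (w + w)) = 0 then
            ((mon u (-(fun k => (z + (w + w)) k / 2)) : Vˣ) : V) • y else 0) =
            ((mon u (-w) : Vˣ) : V) • (if cl z = 0 then
              ((mon u (-(fun k => z k / 2)) : Vˣ) : V) • y else 0)
          rw [SK5B_cl_two]
          by_cases h : cl z = 0
          · rw [if_pos h, if_pos h, smul_smul, ← Units.val_mul, ← mon_add]
            have h2 : -(fun k => (z + (w + w)) k / 2) = -w + -(fun k => z k / 2) := by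
              funext k
              obtain ⟨y, hy⟩ := SK5B_even h k
              show -((z k + (w k + w k)) / 2) = -w k + -(z k / 2)
              omega
            rw [h2]
          · rw [if_neg h, if_neg h, smul_zero]⟩
      refine ⟨⟨x, ?_⟩, ?_⟩
      · show Φ (j (SAlg.p q c 0)) x = x
        rw [hΦp]
        refine Subtype.ext (funext fun z => ?_)
        show (if cl z = 0 then (if cl z = 0 then
          ((mon u (-(fun k => z k / 2)) : Vˣ) : V) • y else 0) else 0) =
          if cl z = 0 then ((mon u (-(fun k => z k / 2)) : Vˣ) : V) • y else 0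
        by_cases h : cl z = 0
        · rw [if_pos h, if_pos h]
        · rw [if_neg h, if_neg h]
      · show (if cl (0 : Fin ρ → ℤ) = 0 then
          ((mon u (-(fun k => (0 : Fin ρ → ℤ) k / 2)) : Vˣ) : V) • y else 0) = y
        rw [if_pos hc0]
        have h3 : -(fun k => (0 : Fin ρ → ℤ) k / 2) = 0 := by
          funext k
          show -((0 : ℤ) / 2) = 0
          norm_num
        rw [h3, mon_zero, Units.val_one, one_smul]
  refine ⟨N, LinearEquiv.ofBijective ev hbij, ?_⟩
  intro a x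
  show (Φ ((t (c a) : T) * j (SAlg.e q c a)) (x.1 : SK5B_Th u M)).1 0 =
    M.e a ((x.1 : SK5B_Th u M).1 0)
  rw [map_mul, htz, hΦe, SK5B_Te_mul, one_mul, neg_add_cancel]
  show M.e a ((x.1 : SK5B_Th u M).1 (0 + 0)) = _
  rw [add_zero]

end Final

theorem thm_SK5B : St_SK5B := by
  intro B V T _ _ _ _ m ρ q c σ hq hb he hp j τ hS b u hL κ hK hT
  obtain ⟨t, t0, ta, ts⟩ := SK5B_tz τ hS.tcomm
  exact SK5B_core (SK5B_mkD hq he hp hS hK t0 ta ts)
    (fun M => SK5B_obj hq hb he hp hS hL hK t0 ta ts _ M) hT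

end Pool.Agent.QTG
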