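import Pool.Agent.QTG.StSk

/-!
# QTG, module SKL

Statement and proof: see `St_SKL` in `Pool/Agent/QTG/StSk.lean`.
-/

set_option autoImplicit false

namespace Pool.Agent.QTG

open Function MvPolynomial TensorProduct Pool.Agent.TQF Pool.Agent.Helper67.Bass
  Pool.Agent.Helper11

/-- the commutation rule for all integral powers -/
theorem SKL_comm {R T : Type} [Ring R] [Ring T] (σ : R ≃+* R) (j : R →+* T) (τ : Tˣ)
    (h : ∀ r, (τ : T) * j r = j (σ r) * τ) (k : ℤ) :
    ∀ r, ((τ ^ k : Tˣ) : T) * j r = j (((id σ : RingAut R) ^ k) r) * ((τ ^ k : Tˣ) : T) := by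
  have hinv : ∀ r, ((τ⁻¹ : Tˣ) : T) * j r = j (σ.symm r) * ((τ⁻¹ : Tˣ) : T) := by
    intro r
    have h1 := h (σ.symm r)
    rw [RingEquiv.apply_symm_apply] at h1
    have h2 : ((τ⁻¹ : Tˣ) : T) * ((τ : T) * j (σ.symm r)) * ((τ⁻¹ : Tˣ) : T) =
        ((τ⁻¹ : Tˣ) : T) * (j r * τ) * ((τ⁻¹ : Tˣ) : T) := by rw [h1]
    rw [← mul_assoc, Units.inv_mul, one_mul, mul_assoc, mul_assoc, Units.mul_inv, mul_one] at h2
    exact h2.symm
  induction k with
  | zero =>
    intro r
    rw [zpow_zero, zpow_zero, Units.val_one, one_mul, mul_one]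
    rfl
  | succ n ih =>
    intro r
    rw [zpow_add_one, zpow_add_one, Units.val_mul, mul_assoc, h, ← mul_assoc, ih, mul_assoc]
    rfl
  | pred n ih =>
    intro r
    rw [zpow_sub_one, zpow_sub_one, Units.val_mul, mul_assoc, hinv, ← mul_assoc, ih, mul_assoc]
    rfl

/-- evaluation of a finite sum of monomials -/
noncomputable def SKL_ev {R T : Type} [Ring R] [Ring T] (j : R →+* T) (τ : Tˣ) : (ℤ →₀ R) →+ T :=
  Finsupp.liftAddHom fun k => (AddMonoidHom.mulRight ((τ ^ k : Tˣ) : T)).comp j.toAddMonoidHom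

theorem SKL_ev_apply {R T : Type} [Ring R] [Ring T] (j : R →+* T) (τ : Tˣ) (c : ℤ →₀ R) :
    SKL_ev j τ c = c.sum fun k r => j r * ((τ ^ k : Tˣ) : T) := rfl

theorem SKL_ev_single {R T : Type} [Ring R] [Ring T] (j : R →+* T) (τ : Tˣ) (k : ℤ) (r : R) :
    SKL_ev j τ (Finsupp.single k r) = j r * ((τ ^ k : Tˣ) : T) := by
  rw [SKL_ev_apply, Finsupp.sum_single_index]
  rw [map_zero, zero_mul]

theorem SKL_mono {R T : Type} [Ring R] [Ring T] (σ : R ≃+* R) (j : R →+* T) (τ : Tˣ)
    (h : ∀ r, (τ : T) * j r = j (σ r) * τ) (k l : ℤ) (r s : R) :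
    j r * ((τ ^ k : Tˣ) : T) * (j s * ((τ ^ l : Tˣ) : T)) =
      j (r * ((id σ : RingAut R) ^ k) s) * ((τ ^ (k + l) : Tˣ) : T) := by
  rw [mul_assoc, ← mul_assoc ((τ ^ k : Tˣ) : T), SKL_comm σ j τ h, zpow_add, Units.val_mul, map_mul]
  simp only [mul_assoc]

theorem thm_SKL : St_SKL := by
  intro R T _ _ σ j τ hS T' _
  have hinj : Function.Injective (SKL_ev j τ) := by
    rw [injective_iff_map_eq_zero]
    exact fun c hc => hS.uniq c hc
  have hsurj : Function.Surjective (SKL_ev j τ) := fun t => by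
    obtain ⟨c, hc⟩ := hS.span t
    exact ⟨c, hc.symm⟩
  refine ⟨fun j' τ' h' => ?_, fun φ ψ h1 h2 => ?_⟩
  · let e : (ℤ →₀ R) ≃+ T := AddEquiv.ofBijective (SKL_ev j τ) ⟨hinj, hsurj⟩
    have he : ∀ c, e c = SKL_ev j τ c := fun c => rfl
    let φ : T →+ T' := (SKL_ev j' τ').comp (e.symm : T →+ (ℤ →₀ R))
    have hφ : ∀ c, φ (SKL_ev j τ c) = SKL_ev j' τ' c := by
      intro c
      change SKL_ev j' τ' (e.symm (e c)) = _
      rw [AddEquiv.symm_apply_apply]
    have hmono : ∀ (k : ℤ) (r : R), φ (j r * ((τ ^ k : Tˣ) : T)) = j' r * ((τ' ^ k : T'ˣ) : T') := by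
      intro k r
      rw [← SKL_ev_single, hφ, SKL_ev_single]
    have hmul : ∀ c d, φ (SKL_ev j τ c * SKL_ev j τ d) = SKL_ev j' τ' c * SKL_ev j' τ' d := by
      intro c d
      induction c using Finsupp.induction_linear with
      | zero => rw [map_zero, map_zero, zero_mul, zero_mul, map_zero]
      | add f g hf hg => rw [map_add, map_add, add_mul, add_mul, map_add, hf, hg]
      | single k r =>
        induction d using Finsupp.induction_linear with
        | zero => rw [map_zero, map_zero, mul_zero, mul_zero, map_zero]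
        | add f g hf hg => rw [map_add, map_add, mul_add, mul_add, map_add, hf, hg]
        | single l s =>
          rw [SKL_ev_single, SKL_ev_single, SKL_ev_single, SKL_ev_single,
            SKL_mono σ j τ hS.comm, SKL_mono σ j' τ' h', hmono]
    have h0 : ∀ r, φ (j r) = j' r := by
      intro r
      have := hmono 0 r
      rwa [zpow_zero, zpow_zero, Units.val_one, Units.val_one, mul_one, mul_one] at this
    refine ⟨{ φ with
      map_one' := ?_
      map_mul' := ?_ }, h0, ?_⟩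
    · change φ 1 = 1
      rw [← map_one j, h0, map_one]
    · intro x y
      obtain ⟨c, rfl⟩ := hsurj x
      obtain ⟨d, rfl⟩ := hsurj y
      change φ (SKL_ev j τ c * SKL_ev j τ d) = φ (SKL_ev j τ c) * φ (SKL_ev j τ d)
      rw [hmul, hφ, hφ]
    · change φ (τ : T) = τ'
      have := hmono 1 1
      rwa [zpow_one, zpow_one, map_one, map_one, one_mul, one_mul] at this
  · have hu : Units.map (φ : T →* T') τ = Units.map (ψ : T →* T') τ := Units.ext h2
    have hk : ∀ k : ℤ, φ ((τ ^ k : Tˣ) : T) = ψ ((τ ^ k : Tˣ) : T) := by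
      intro k
      have h3 : Units.map (φ : T →* T') (τ ^ k) = Units.map (ψ : T →* T') (τ ^ k) := by
        rw [map_zpow, map_zpow, hu]
      exact congrArg Units.val h3
    refine RingHom.ext fun t => ?_
    obtain ⟨c, rfl⟩ := hS.span t
    rw [Finsupp.sum, map_sum, map_sum]
    refine Finset.sum_congr rfl fun k _ => ?_
    rw [map_mul, map_mul, h1, hk]

end Pool.Agent.QTG
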