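import Pool.Agent.QTG.StSk

/-!
# QTG, module TM1

Statement and proof: see `St_TM1` in `Pool/Agent/QTG/StSk.lean`.
-/

set_option autoImplicit false

namespace Pool.Agent.QTG

open Function MvPolynomial TensorProduct Pool.Agent.TQF Pool.Agent.Helper67.Bass
  Pool.Agent.Helper11

/-- the exponents of `(1, X_1, …, X_m)` -/
noncomputable def TM1_ez (m : ℕ) : Fin (m + 1) → (Fin m →₀ ℕ) :=
  Fin.cons 0 fun i => Finsupp.single i 1

private theorem TM1_yv (V : Type) [CommRing V] (m : ℕ) (a : Fin (m + 1)) :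
    yv V m a = monomial (TM1_ez m a) 1 := by
  refine Fin.cases ?_ (fun i => ?_) a
  · show (1 : MvPolynomial (Fin m) V) = monomial 0 1
    rfl
  · show (X i : MvPolynomial (Fin m) V) = monomial (Finsupp.single i 1) 1
    rfl

/-- degree two functions as sums of two unit vectors -/
private theorem TM1_single (m : ℕ) (d : Fin m →₀ ℕ) (hd : d.degree = 1) :
    ∃ i, d = Finsupp.single i 1 := by
  have h0 : d ≠ 0 := by
    rintro rfl
    simp at hd
  obtain ⟨i, hi⟩ := Finsupp.ne_iff.1 h0
  have hi' : Finsupp.single i 1 ≤ d := by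
    rw [Finsupp.single_le_iff]
    exact Nat.one_le_iff_ne_zero.2 hi
  refine ⟨i, ?_⟩
  have h1 : d = Finsupp.single i 1 + (d - Finsupp.single i 1) :=
    (add_tsub_cancel_of_le hi').symm
  have h2 : (d - Finsupp.single i 1).degree = 0 := by
    have h3 := congrArg Finsupp.degree h1
    rw [map_add, Finsupp.degree_single, hd] at h3
    omega
  rw [Finsupp.degree_eq_zero_iff] at h2
  rw [h1, h2, add_zero]

private theorem TM1_exists1 (m : ℕ) (d : Fin m →₀ ℕ) (hd : d.degree ≤ 1) :
    ∃ a, TM1_ez m a = d := by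
  by_cases h : d.degree = 1
  · obtain ⟨i, rfl⟩ := TM1_single m d h
    exact ⟨i.succ, rfl⟩
  · have h1 : d.degree = 0 := by omega
    rw [Finsupp.degree_eq_zero_iff] at h1
    exact ⟨0, h1.symm⟩

private theorem TM1_inj (m : ℕ) : Injective (TM1_ez m) := by
  intro a b
  refine Fin.cases ?_ (fun i => ?_) a <;> refine Fin.cases ?_ (fun j => ?_) b
  · intro _
    rfl
  · intro h
    have h1 : (0 : Fin m →₀ ℕ) = Finsupp.single j 1 := h
    exact absurd (Finsupp.single_eq_zero.1 h1.symm) one_ne_zero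
  · intro h
    have h1 : Finsupp.single i 1 = (0 : Fin m →₀ ℕ) := h
    exact absurd (Finsupp.single_eq_zero.1 h1) one_ne_zero
  · intro h
    have h1 : Finsupp.single i 1 = (Finsupp.single j 1 : Fin m →₀ ℕ) := h
    rw [Finsupp.single_left_inj one_ne_zero] at h1
    rw [h1]

private theorem TM1_exists2 (m : ℕ) (d : Fin m →₀ ℕ) (hd : d.degree ≤ 2) :
    ∃ a a', a ≤ a' ∧ TM1_ez m a + TM1_ez m a' = d := by
  have key : ∃ a a', TM1_ez m a + TM1_ez m a' = d := by
    by_cases h : d.degree ≤ 1
    · obtain ⟨a, ha⟩ := TM1_exists1 m d h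
      refine ⟨0, a, ?_⟩
      rw [ha]
      show 0 + d = d
      rw [zero_add]
    · have h0 : d ≠ 0 := by
        rintro rfl
        simp at h
      obtain ⟨i, hi⟩ := Finsupp.ne_iff.1 h0
      have hi' : Finsupp.single i 1 ≤ d := by
        rw [Finsupp.single_le_iff]
        exact Nat.one_le_iff_ne_zero.2 hi
      have h1 : d = Finsupp.single i 1 + (d - Finsupp.single i 1) :=
        (add_tsub_cancel_of_le hi').symm
      have h2 : (d - Finsupp.single i 1).degree ≤ 1 := by
        have h3 := congrArg Finsupp.degree h1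
        rw [map_add, Finsupp.degree_single] at h3
        omega
      obtain ⟨a, ha⟩ := TM1_exists1 m _ h2
      refine ⟨i.succ, a, ?_⟩
      rw [ha]
      exact h1.symm
  obtain ⟨a, a', h⟩ := key
  rcases le_total a a' with h1 | h1
  · exact ⟨a, a', h1, h⟩
  · exact ⟨a', a, h1, by rw [add_comm]; exact h⟩

/-- the degree -/
private theorem TM1_deg (m : ℕ) (a : Fin (m + 1)) :
    (TM1_ez m a).degree = if a = 0 then 0 else 1 := by
  refine Fin.cases ?_ (fun i => ?_) a
  · show (0 : Fin m →₀ ℕ).degree = _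
    simp
  · show (Finsupp.single i 1 : Fin m →₀ ℕ).degree = _
    rw [Finsupp.degree_single, if_neg (Fin.succ_ne_zero i)]

private theorem TM1_unique2 (m : ℕ) {a a' b b' : Fin (m + 1)} (h : a ≤ a') (h' : b ≤ b')
    (he : TM1_ez m a + TM1_ez m a' = TM1_ez m b + TM1_ez m b') : a = b ∧ a' = b' := by
  -- evaluation at `i`
  have hev : ∀ (c : Fin (m + 1)) (i : Fin m), TM1_ez m c i = if c = i.succ then 1 else 0 := by
    intro c i
    refine Fin.cases ?_ (fun j => ?_) c
    · show (0 : Fin m →₀ ℕ) i = _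
      rw [if_neg (Fin.succ_ne_zero i).symm]
      rfl
    · show (Finsupp.single j 1 : Fin m →₀ ℕ) i = _
      rw [Finsupp.single_apply]
      by_cases hji : j = i
      · rw [if_pos hji, if_pos (by rw [hji])]
      · rw [if_neg hji, if_neg fun h => hji (Fin.succ_injective _ h)]
  have h1 : ∀ i : Fin m, (if a = i.succ then 1 else 0) + (if a' = i.succ then 1 else 0) =
      (if b = i.succ then 1 else 0) + if b' = i.succ then 1 else 0 := by
    intro i
    have h2 := DFunLike.congr_fun he i
    rw [Finsupp.add_apply, Finsupp.add_apply, hev, hev, hev, hev] at h2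
    exact h2
  have h2 : ∀ c : Fin (m + 1), c ≠ 0 → (if a = c then 1 else 0) + (if a' = c then 1 else 0) =
      (if b = c then 1 else 0) + if b' = c then 1 else 0 := by
    intro c hc
    obtain ⟨i, rfl⟩ := Fin.exists_succ_eq.2 hc
    exact h1 i
  have h3 : (if a = 0 then 0 else 1) + (if a' = 0 then 0 else 1) =
      (if b = 0 then 0 else 1) + if b' = 0 then 0 else 1 := by
    have h4 := congrArg Finsupp.degree he
    rw [map_add, map_add, TM1_deg, TM1_deg, TM1_deg, TM1_deg] at h4
    exact h4
  have ha0 : a = 0 ∨ a ≠ 0 := em _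
  by_cases ha : a = 0
  · subst ha
    by_cases hb : b = 0
    · subst hb
      refine ⟨rfl, TM1_inj m ?_⟩
      exact add_left_cancel he
    · exfalso
      have hb' : b' ≠ 0 := by
        rintro rfl
        exact hb (Fin.le_zero_iff.1 h')
      rw [if_pos rfl, if_neg hb, if_neg hb'] at h3
      split_ifs at h3 <;> omega
  · have ha' : a' ≠ 0 := by
      rintro rfl
      exact ha (Fin.le_zero_iff.1 h)
    rw [if_neg ha, if_neg ha'] at h3
    have hb : b ≠ 0 := by
      rintro rfl
      rw [if_pos rfl] at h3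
      split_ifs at h3 <;> omega
    have hb' : b' ≠ 0 := by
      rintro rfl
      exact hb (Fin.le_zero_iff.1 h')
    have e1 := h2 a ha
    have e2 := h2 b hb
    rw [if_pos rfl] at e1 e2
    have hab : a = b := by
      by_contra hne
      rw [if_neg hne] at e2
      rw [if_neg (Ne.symm hne)] at e1
      have h4 : b' = a := by
        by_contra h5
        rw [if_neg h5] at e1
        split_ifs at e1 <;> omega
      have h5 : a' = b := by
        by_contra h6
        rw [if_neg h6] at e2
        split_ifs at e2 <;> omega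
      rw [h4] at h'
      rw [h5] at h
      exact hne (le_antisymm h h')
    refine ⟨hab, TM1_inj m ?_⟩
    rw [hab] at he
    exact add_left_cancel he

/-! ### coefficients of `l` and `g` -/

private theorem TM1_l (V : Type) [CommRing V] (m : ℕ) (q : QD V m) (d : Fin m →₀ ℕ) :
    q.l.coeff d = ∑ a, if TM1_ez m a = d then q.lam a else 0 := by
  classical
  unfold QD.l
  rw [coeff_sum]
  refine Finset.sum_congr rfl fun a _ => ?_
  rw [TM1_yv, coeff_C_mul, coeff_monomial]
  by_cases h : TM1_ez m a = d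
  · rw [if_pos h, if_pos h, mul_one]
  · rw [if_neg h, if_neg h, mul_zero]

private theorem TM1_g (V : Type) [CommRing V] (m : ℕ) (q : QD V m) (d : Fin m →₀ ℕ) :
    q.g.coeff d = ∑ a, ∑ a', if TM1_ez m a + TM1_ez m a' = d then q.gam a a' else 0 := by
  classical
  unfold QD.g
  rw [coeff_sum]
  refine Finset.sum_congr rfl fun a _ => ?_
  rw [coeff_sum]
  refine Finset.sum_congr rfl fun a' _ => ?_
  rw [TM1_yv, TM1_yv, monomial_mul, coeff_C_mul, coeff_monomial, one_mul]
  by_cases h : TM1_ez m a + TM1_ez m a' = d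
  · rw [if_pos h, if_pos h, mul_one]
  · rw [if_neg h, if_neg h, mul_zero]

private theorem TM1_l1 (V : Type) [CommRing V] (m : ℕ) (q : QD V m) (a : Fin (m + 1)) :
    q.l.coeff (TM1_ez m a) = q.lam a := by
  rw [TM1_l, Finset.sum_eq_single a]
  · rw [if_pos rfl]
  · intro b _ hb
    rw [if_neg fun h => hb (TM1_inj m h)]
  · intro h
    exact absurd (Finset.mem_univ a) h

private theorem TM1_l0 (V : Type) [CommRing V] (m : ℕ) (q : QD V m) (d : Fin m →₀ ℕ)
    (hd : 1 < d.degree) : q.l.coeff d = 0 := by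
  rw [TM1_l]
  refine Finset.sum_eq_zero fun a _ => if_neg ?_
  rintro rfl
  rw [TM1_deg] at hd
  split_ifs at hd <;> omega

private theorem TM1_g1 (V : Type) [CommRing V] (m : ℕ) (q : QD V m)
    (hq : ∀ a a', ¬ a ≤ a' → q.gam a a' = 0) (a a' : Fin (m + 1)) (h : a ≤ a') :
    q.g.coeff (TM1_ez m a + TM1_ez m a') = q.gam a a' := by
  rw [TM1_g, Finset.sum_eq_single a]
  · rw [Finset.sum_eq_single a']
    · rw [if_pos rfl]
    · intro b _ hb
      rw [if_neg fun h => hb (TM1_inj m (add_left_cancel h))]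
    · intro h
      exact absurd (Finset.mem_univ a') h
  · intro b _ hb
    refine Finset.sum_eq_zero fun b' _ => ?_
    split_ifs with h1
    · refine hq b b' fun h2 => hb (TM1_unique2 m h2 h h1).1
    · rfl
  · intro h
    exact absurd (Finset.mem_univ a) h

private theorem TM1_g0 (V : Type) [CommRing V] (m : ℕ) (q : QD V m) (d : Fin m →₀ ℕ)
    (hd : 2 < d.degree) : q.g.coeff d = 0 := by
  rw [TM1_g]
  refine Finset.sum_eq_zero fun a _ => Finset.sum_eq_zero fun a' _ => if_neg ?_
  rintro rfl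
  rw [map_add, TM1_deg, TM1_deg] at hd
  split_ifs at hd <;> omega

private theorem TM1_cons (m i : ℕ) (d : Fin m →₀ ℕ) :
    (Finsupp.cons i d).degree = i + d.degree := by
  rw [Finsupp.degree_eq_sum, Finsupp.degree_eq_sum, Fin.sum_univ_succ, Finsupp.cons_zero]
  simp only [Finsupp.cons_succ]

private theorem TM1_f0 (B : Type) [CommRing B] (m i : ℕ) (f : MvPolynomial (Fin (m + 1)) B)
    (hf : f.totalDegree ≤ 2) (d : Fin m →₀ ℕ) (hd : 2 < i + d.degree) :
    f.coeff (Finsupp.cons i d) = 0 := by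
  refine coeff_eq_zero_of_totalDegree_lt (lt_of_le_of_lt hf ?_)
  rw [← Finsupp.degree_apply, TM1_cons]
  exact hd

/-- the exponents -/
private theorem TM1_exp {m ρ : ℕ} (v : Fin (m + 1) → Fin ρ → ℤ) (i : ℕ) (d : Fin m →₀ ℕ)
    (k : Fin ρ) : ∑ j, ((Finsupp.cons i d : Fin (m + 1) →₀ ℕ) j : ℤ) * v j k =
      i * v 0 k + ∑ j : Fin m, (d j : ℤ) * v j.succ k := by
  rw [Fin.sum_univ_succ, Finsupp.cons_zero]
  simp only [Finsupp.cons_succ]

private theorem TM1_exp1 {m ρ : ℕ} (v : Fin (m + 1) → Fin ρ → ℤ) (a : Fin (m + 1))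
    (k : Fin ρ) : ∑ j : Fin m, (TM1_ez m a j : ℤ) * v j.succ k =
      (Fin.cases 0 (fun i => v i.succ) a : Fin ρ → ℤ) k := by
  refine Fin.cases ?_ (fun i => ?_) a
  · show ∑ j : Fin m, (((0 : Fin m →₀ ℕ) j : ℕ) : ℤ) * v j.succ k = 0
    refine Finset.sum_eq_zero fun j _ => ?_
    rw [Finsupp.coe_zero, Pi.zero_apply, Nat.cast_zero, zero_mul]
  · show ∑ j : Fin m, ((Finsupp.single i 1 j : ℕ) : ℤ) * v j.succ k = v i.succ k
    rw [Finset.sum_eq_single i]
    · rw [Finsupp.single_eq_same, Nat.cast_one, one_mul]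
    · intro j _ hj
      rw [Finsupp.single_eq_of_ne hj, Nat.cast_zero, zero_mul]
    · intro h
      exact absurd (Finset.mem_univ i) h

private theorem TM1_exp2 {m ρ : ℕ} (v : Fin (m + 1) → Fin ρ → ℤ) (a a' : Fin (m + 1))
    (k : Fin ρ) : ∑ j : Fin m, ((TM1_ez m a + TM1_ez m a') j : ℤ) * v j.succ k =
      (Fin.cases 0 (fun i => v i.succ) a : Fin ρ → ℤ) k +
        (Fin.cases 0 (fun i => v i.succ) a' : Fin ρ → ℤ) k := by
  rw [← TM1_exp1, ← TM1_exp1, ← Finset.sum_add_distrib]
  refine Finset.sum_congr rfl fun j _ => ?_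
  rw [Finsupp.add_apply]
  push_cast
  ring

/-- the scalar identity -/
private theorem TM1_scal {B V : Type} [CommRing B] [CommRing V] {ρ : ℕ} (b : B →+* V)
    (u : Fin ρ → Vˣ) (β : Bˣ) (x : B) (z z' z'' : Fin ρ → ℤ) (h : z + z' = z'') :
    b (β : B) * (mon u z : Vˣ) * (b ((β⁻¹ : Bˣ) * x) * (mon u z' : Vˣ)) =
      b x * (mon u z'' : Vˣ) := by
  have h1 : b (β : B) * b ((β⁻¹ : Bˣ) : B) = 1 := by
    rw [← map_mul, Units.mul_inv, map_one]
  rw [← h, mon_add, Units.val_mul, map_mul]
  linear_combination (b x * (mon u z : Vˣ) * (mon u z' : Vˣ)) * h1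

theorem thm_TM1 : St_TM1 := by
  classical
  intro B _ m ρ v f hf hpar hu
  obtain ⟨β, hβ⟩ := hu
  let v'' : Fin (m + 1) → Fin ρ → ℤ := fun a => Fin.cases 0 (fun i => v i.succ) a
  let q : QD B m :=
    { lam := fun a => (β⁻¹ : Bˣ) * f.coeff (Finsupp.cons 1 (TM1_ez m a))
      gam := fun a a' => if a ≤ a' then (β⁻¹ : Bˣ) *
        f.coeff (Finsupp.cons 0 (TM1_ez m a + TM1_ez m a')) else 0 }
  let c : Fin (m + 1) → Fin ρ → ℤ := fun a k => v'' a k - v 0 k
  have hβ' : f.coeff (Finsupp.cons 2 0) = β := by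
    rw [hβ]
    congr 1
    ext j
    refine Fin.cases ?_ (fun j => ?_) j
    · rw [Finsupp.cons_zero, Finsupp.single_eq_same]
    · rw [Finsupp.cons_succ, Finsupp.single_eq_of_ne (Fin.succ_ne_zero j)]
      rfl
  refine ⟨q, c, ⟨fun a ha k => ?_, fun a a' ha k => ?_⟩, fun V _ b u => ?_⟩
  · have h1 : f.coeff (Finsupp.cons 1 (TM1_ez m a)) ≠ 0 := by
      intro h
      refine ha ?_
      show (β⁻¹ : Bˣ) * f.coeff (Finsupp.cons 1 (TM1_ez m a)) = 0
      rw [h, mul_zero]
    have h2 := hpar _ h1 k
    rw [TM1_exp, TM1_exp1] at h2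
    show (2 : ℤ) ∣ v'' a k - v 0 k
    push_cast at h2
    have h3 : v'' a k - v 0 k = (1 * v 0 k + v'' a k) - 2 * v 0 k := by ring
    rw [h3]
    exact dvd_sub h2 (dvd_mul_right _ _)
  · by_cases haa : a ≤ a'
    · have h1 : f.coeff (Finsupp.cons 0 (TM1_ez m a + TM1_ez m a')) ≠ 0 := by
        intro h
        refine ha ?_
        show (if a ≤ a' then (β⁻¹ : Bˣ) *
          f.coeff (Finsupp.cons 0 (TM1_ez m a + TM1_ez m a')) else 0) = 0
        rw [h, mul_zero, ite_self]
      have h2 := hpar _ h1 k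
      rw [TM1_exp, TM1_exp2] at h2
      show (2 : ℤ) ∣ (v'' a k - v 0 k) + (v'' a' k - v 0 k)
      push_cast at h2
      have h3 : (v'' a k - v 0 k) + (v'' a' k - v 0 k) =
          (0 * v 0 k + (v'' a k + v'' a' k)) - 2 * v 0 k := by ring
      rw [h3]
      exact dvd_sub h2 (dvd_mul_right _ _)
    · exact absurd (if_neg haa) ha
  · have hkey : finSuccEquiv V m (twP b u v f) =
        Polynomial.C (C (b (β : B) * (mon u (v 0) : Vˣ))) *
          (Polynomial.X ^ 2 + Polynomial.C (tw b u c q).l * Polynomial.X +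
            Polynomial.C (tw b u c q).g) := by
      refine Polynomial.ext fun i => ?_
      ext d
      rw [finSuccEquiv_coeff_coeff, coeff_twP, Polynomial.coeff_C_mul, coeff_C_mul]
      have hfe : (fun k => (∑ j, ((Finsupp.cons i d : Fin (m + 1) →₀ ℕ) j : ℤ) * v j k) / 2) =
          fun k => ((i : ℤ) * v 0 k + ∑ j : Fin m, (d j : ℤ) * v j.succ k) / 2 := by
        funext k
        rw [TM1_exp]
      rw [hfe, Polynomial.coeff_add, Polynomial.coeff_add, Polynomial.coeff_X_pow,
        Polynomial.coeff_C_mul, Polynomial.coeff_X, Polynomial.coeff_C]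
      have hi : i = 0 ∨ i = 1 ∨ i = 2 ∨ 2 < i := by omega
      rcases hi with rfl | rfl | rfl | hi
      · rw [if_neg (by omega), if_neg (by omega), if_pos rfl, mul_zero, zero_add, zero_add]
        by_cases hd : d.degree ≤ 2
        · obtain ⟨a, a', haa, rfl⟩ := TM1_exists2 m d hd
          rw [TM1_g1 V m (tw b u c q) ?_ a a' haa]
          · have h1 : (tw b u c q).gam a a' = b ((β⁻¹ : Bˣ) *
                f.coeff (Finsupp.cons 0 (TM1_ez m a + TM1_ez m a'))) *
                  (mon u (fun k => (c a k + c a' k) / 2) : Vˣ) := by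
              show b (if a ≤ a' then (β⁻¹ : Bˣ) *
                f.coeff (Finsupp.cons 0 (TM1_ez m a + TM1_ez m a')) else 0) * _ = _
              rw [if_pos haa]
            rw [h1]
            refine (TM1_scal b u β _ _ _ _ ?_).symm
            funext k
            rw [TM1_exp2]
            show v 0 k + (v'' a k - v 0 k + (v'' a' k - v 0 k)) / 2 =
              ((0 : ℕ) * v 0 k + (v'' a k + v'' a' k)) / 2
            push_cast
            omega
          · intro x x' hx
            show b (if x ≤ x' then _ else 0) * _ = _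
            rw [if_neg hx, map_zero, zero_mul]
        · rw [TM1_f0 B m 0 f hf d (by omega), map_zero, zero_mul,
            TM1_g0 V m _ d (by omega), mul_zero]
      · rw [if_neg (by omega), if_pos rfl, if_neg (by omega), mul_one, zero_add, add_zero]
        by_cases hd : d.degree ≤ 1
        · obtain ⟨a, rfl⟩ := TM1_exists1 m d hd
          rw [TM1_l1]
          have h1 : (tw b u c q).lam a = b ((β⁻¹ : Bˣ) *
              f.coeff (Finsupp.cons 1 (TM1_ez m a))) * (mon u (fun k => c a k / 2) : Vˣ) := rfl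
          rw [h1]
          refine (TM1_scal b u β _ _ _ _ ?_).symm
          funext k
          rw [TM1_exp1]
          show v 0 k + (v'' a k - v 0 k) / 2 = ((1 : ℕ) * v 0 k + v'' a k) / 2
          push_cast
          omega
        · rw [TM1_f0 B m 1 f hf d (by omega), map_zero, zero_mul,
            TM1_l0 V m _ d (by omega), mul_zero]
      · rw [if_pos rfl, if_neg (by omega), if_neg (by omega), mul_zero, add_zero, add_zero]
        by_cases hd : d = 0
        · subst hd
          rw [hβ', coeff_zero_one, mul_one]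
          congr 3
          funext k
          have h1 : ∑ j : Fin m, (((0 : Fin m →₀ ℕ) j : ℕ) : ℤ) * v j.succ k = 0 := by
            refine Finset.sum_eq_zero fun j _ => ?_
            rw [Finsupp.coe_zero, Pi.zero_apply, Nat.cast_zero, zero_mul]
          rw [h1]
          push_cast
          omega
        · have h1 : d.degree ≠ 0 := fun h => hd ((Finsupp.degree_eq_zero_iff d).1 h)
          rw [TM1_f0 B m 2 f hf d (by omega), map_zero, zero_mul, coeff_one,
            if_neg (Ne.symm hd), mul_zero]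
      · rw [if_neg (by omega), if_neg (by omega), if_neg (by omega), mul_zero, add_zero, add_zero,
          coeff_zero, mul_zero, TM1_f0 B m i f hf d (by omega), map_zero, zero_mul]
    refine ⟨Ideal.quotientEquiv _ _ (finSuccEquiv V m).toRingEquiv ?_⟩
    rw [Ideal.map_span, Set.image_singleton]
    have h1 : ((finSuccEquiv V m).toRingEquiv : MvPolynomial (Fin (m + 1)) V →+*
        Polynomial (MvPolynomial (Fin m) V)) (twP b u v f) =
        finSuccEquiv V m (twP b u v f) := rfl
    rw [h1, hkey]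
    refine (Ideal.span_singleton_mul_left_unit ?_ _).symm
    refine IsUnit.map (Polynomial.C.comp C) ?_
    exact ((Units.isUnit β).map b).mul (Units.isUnit _)

end Pool.Agent.QTG
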