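import Pool.Agent.QTG.StSk

/-!
# QTG, module TM2

Statement and proof: see `St_TM2` in `Pool/Agent/QTG/StSk.lean`.
-/

set_option autoImplicit false

namespace Pool.Agent.QTG

open Function MvPolynomial TensorProduct Pool.Agent.TQF Pool.Agent.Helper67.Bass
  Pool.Agent.Helper11

/-! ### twisted pairs of polynomials -/

/-- the exponent of a monomial -/
private def TM2ex {n ρ : ℕ} (v : Fin n → Fin ρ → ℤ) (d : Fin n →₀ ℕ) : Fin ρ → ℤ :=
  fun k => ∑ i, (d i : ℤ) * v i k

private theorem TM2ex_add {n ρ : ℕ} (v : Fin n → Fin ρ → ℤ) (d d' : Fin n →₀ ℕ) :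
    TM2ex v (d + d') = TM2ex v d + TM2ex v d' := by
  funext k
  simp only [TM2ex, Pi.add_apply, Finsupp.add_apply, Nat.cast_add, add_mul,
    Finset.sum_add_distrib]

private theorem TM2ex_zero {n ρ : ℕ} (v : Fin n → Fin ρ → ℤ) : TM2ex v 0 = 0 := by
  funext k
  simp [TM2ex]

private theorem TM2ex_single {n ρ : ℕ} (v : Fin n → Fin ρ → ℤ) (l : Fin n) :
    TM2ex v (Finsupp.single l 1) = v l := by
  funext k
  simp only [TM2ex]
  rw [Finset.sum_eq_single l]
  · simp
  · intro i _ hi
    rw [Finsupp.single_eq_of_ne hi]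
    simp
  · intro h
    exact absurd (Finset.mem_univ l) h

/-- `P` is the twist of `p`, relative to the exponent `e` -/
private structure TM2R {B V : Type} [CommRing B] [CommRing V] {n ρ : ℕ} (b : B →+* V)
    (u : Fin ρ → Vˣ) (v : Fin n → Fin ρ → ℤ) (e : Fin ρ → ℤ) (p : MvPolynomial (Fin n) B)
    (P : MvPolynomial (Fin n) V) : Prop where
  par : ∀ d, p.coeff d ≠ 0 → ∀ k, (2 : ℤ) ∣ TM2ex v d k - e k
  coe : ∀ d, P.coeff d = b (p.coeff d) * (mon u (fun k => (TM2ex v d k - e k) / 2) : Vˣ)

section

variable {B V : Type} [CommRing B] [CommRing V] {n ρ : ℕ} {b : B →+* V}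
    {u : Fin ρ → Vˣ} {v : Fin n → Fin ρ → ℤ}

private theorem TM2R_add {e : Fin ρ → ℤ} {p q : MvPolynomial (Fin n) B}
    {P Q : MvPolynomial (Fin n) V} (hp : TM2R b u v e p P) (hq : TM2R b u v e q Q) :
    TM2R b u v e (p + q) (P + Q) := by
  constructor
  · intro d hd k
    rw [coeff_add] at hd
    by_cases h : p.coeff d = 0
    · rw [h, zero_add] at hd
      exact hq.par d hd k
    · exact hp.par d h k
  · intro d
    rw [coeff_add, coeff_add, hp.coe, hq.coe, map_add, add_mul]

private theorem TM2R_mul {e e' : Fin ρ → ℤ} {p q : MvPolynomial (Fin n) B}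
    {P Q : MvPolynomial (Fin n) V} (hp : TM2R b u v e p P) (hq : TM2R b u v e' q Q) :
    TM2R b u v (e + e') (p * q) (P * Q) := by
  classical
  constructor
  · intro d hd k
    rw [coeff_mul] at hd
    obtain ⟨x, hx, hx0⟩ := Finset.exists_ne_zero_of_sum_ne_zero hd
    rw [Finset.HasAntidiagonal.mem_antidiagonal] at hx
    have h1 : p.coeff x.1 ≠ 0 := fun h => hx0 (by rw [h, zero_mul])
    have h2 : q.coeff x.2 ≠ 0 := fun h => hx0 (by rw [h, mul_zero])
    have h3 := hp.par _ h1 k
    have h4 := hq.par _ h2 k
    rw [← hx, TM2ex_add, Pi.add_apply, Pi.add_apply]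
    have h5 := dvd_add h3 h4
    have h6 : TM2ex v x.1 k + TM2ex v x.2 k - (e k + e' k) =
        TM2ex v x.1 k - e k + (TM2ex v x.2 k - e' k) := by ring
    rw [h6]
    exact h5
  · intro d
    rw [coeff_mul, coeff_mul, map_sum, Finset.sum_mul]
    refine Finset.sum_congr rfl fun x hx => ?_
    rw [Finset.HasAntidiagonal.mem_antidiagonal] at hx
    rw [hp.coe, hq.coe, map_mul]
    by_cases h1 : p.coeff x.1 = 0
    · rw [h1, map_zero]
      ring
    by_cases h2 : q.coeff x.2 = 0
    · rw [h2, map_zero]
      ring
    have h3 : (fun k => (TM2ex v d k - (e + e') k) / 2) =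
        (fun k => (TM2ex v x.1 k - e k) / 2) + fun k => (TM2ex v x.2 k - e' k) / 2 := by
      funext k
      have h3 := hp.par _ h1 k
      have h4 := hq.par _ h2 k
      rw [← hx, TM2ex_add]
      simp only [Pi.add_apply]
      omega
    rw [h3, mon_add, Units.val_mul]
    ring

private theorem TM2R_C (c : B) : TM2R b u v 0 (C c) (C (b c)) := by
  classical
  constructor
  · intro d hd k
    rw [coeff_C] at hd
    split_ifs at hd with h
    · rw [← h, TM2ex_zero]
      simp
    · exact absurd rfl hd
  · intro d
    rw [coeff_C, coeff_C]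
    split_ifs with h
    · rw [← h, TM2ex_zero]
      have h1 : (fun k : Fin ρ => ((0 : Fin ρ → ℤ) k - (0 : Fin ρ → ℤ) k) / 2) = 0 := by
        funext k
        simp
      rw [h1, mon_zero, Units.val_one, mul_one]
    · rw [map_zero, zero_mul]

private theorem TM2R_one : TM2R b u v 0 1 1 := by
  have h := TM2R_C (b := b) (u := u) (v := v) (1 : B)
  rwa [map_one, map_one, map_one] at h

private theorem TM2R_pow {e : Fin ρ → ℤ} {p : MvPolynomial (Fin n) B}
    {P : MvPolynomial (Fin n) V} (hp : TM2R b u v e p P) (t : ℕ) :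
    TM2R b u v (fun k => (t : ℤ) * e k) (p ^ t) (P ^ t) := by
  induction t with
  | zero =>
    rw [pow_zero, pow_zero]
    have h : (fun k => ((0 : ℕ) : ℤ) * e k) = 0 := by
      funext k
      simp
    rw [h]
    exact TM2R_one
  | succ t ih =>
    rw [pow_succ, pow_succ]
    have h : (fun k => ((t + 1 : ℕ) : ℤ) * e k) = (fun k => (t : ℤ) * e k) + e := by
      funext k
      simp only [Pi.add_apply]
      push_cast
      ring
    rw [h]
    exact TM2R_mul ih hp

private theorem TM2R_prod {κ : Type} (s : Finset κ) {e : κ → Fin ρ → ℤ}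
    {p : κ → MvPolynomial (Fin n) B} {P : κ → MvPolynomial (Fin n) V}
    (h : ∀ i ∈ s, TM2R b u v (e i) (p i) (P i)) :
    TM2R b u v (∑ i ∈ s, e i) (∏ i ∈ s, p i) (∏ i ∈ s, P i) := by
  classical
  induction s using Finset.induction_on with
  | empty =>
    rw [Finset.sum_empty, Finset.prod_empty, Finset.prod_empty]
    exact TM2R_one
  | insert i s hi ih =>
    rw [Finset.sum_insert hi, Finset.prod_insert hi, Finset.prod_insert hi]
    exact TM2R_mul (h i (Finset.mem_insert_self i s))
      (ih fun j hj => h j (Finset.mem_insert_of_mem hj))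

/-- a multiple of a variable -/
private theorem TM2R_X (l : Fin n) (e : Fin ρ → ℤ) (h : ∀ k, (2 : ℤ) ∣ v l k - e k) :
    TM2R b u v e (X l) (C ((mon u fun k => (v l k - e k) / 2 : Vˣ) : V) * X l) := by
  classical
  constructor
  · intro d hd k
    rw [coeff_X'] at hd
    split_ifs at hd with h1
    · rw [← h1, TM2ex_single]
      exact h k
    · exact absurd rfl hd
  · intro d
    rw [coeff_C_mul, coeff_X', coeff_X']
    split_ifs with h1
    · rw [← h1, TM2ex_single, map_one, mul_one, one_mul]
    · rw [map_zero, mul_zero, zero_mul]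

private theorem TM2R_X0 (l : Fin n) : TM2R b u v (v l) (X l) (X l) := by
  have h := TM2R_X (b := b) (u := u) (v := v) l (v l)
    (fun k => by rw [sub_self]; exact dvd_zero _)
  have h1 : (fun k => (v l k - v l k) / 2) = 0 := by
    funext k
    simp
  rwa [h1, mon_zero, Units.val_one, C_1, one_mul] at h

end

/-! ### substitutions -/

section

variable {B V : Type} [CommRing B] [CommRing V] {n n' ρ : ℕ} {b : B →+* V}
    {u : Fin ρ → Vˣ} {v : Fin n → Fin ρ → ℤ} {v' : Fin n' → Fin ρ → ℤ}
    {w : Fin n → MvPolynomial (Fin n') B} {W : Fin n → MvPolynomial (Fin n') V}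

private theorem TM2_monomial (h : ∀ l, TM2R b u v' (v l) (w l) (W l)) (d : Fin n →₀ ℕ) (c : B) :
    TM2R b u v' (TM2ex v d) (aeval w (monomial d c)) (aeval W (monomial d (b c))) := by
  rw [aeval_monomial, aeval_monomial]
  have h1 := TM2R_mul (TM2R_C (b := b) (u := u) (v := v') c)
    (TM2R_prod (b := b) (u := u) (v := v') Finset.univ fun i _ => TM2R_pow (h i) (d i))
  rw [zero_add] at h1
  have h2 : (∑ i, fun k => ((d i : ℕ) : ℤ) * v i k) = TM2ex v d := by
    funext k
    rw [Finset.sum_apply]
    rfl
  rw [h2] at h1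
  have h3 : (d.prod fun i k => w i ^ k) = ∏ i, w i ^ d i :=
    Finsupp.prod_fintype _ _ fun i => pow_zero _
  have h4 : (d.prod fun i k => W i ^ k) = ∏ i, W i ^ d i :=
    Finsupp.prod_fintype _ _ fun i => pow_zero _
  rw [h3, h4]
  exact h1

private theorem TM2_par (h : ∀ l, TM2R b u v' (v l) (w l) (W l)) (f : MvPolynomial (Fin n) B)
    (hf : Par v f) : Par v' (aeval w f) := by
  intro d hd k
  rw [f.as_sum, map_sum, coeff_sum] at hd
  obtain ⟨x, hx, hx0⟩ := Finset.exists_ne_zero_of_sum_ne_zero hd
  have h1 := (TM2_monomial h x (f.coeff x)).par d hx0 k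
  have h2 : (2 : ℤ) ∣ TM2ex v x k := hf x (mem_support_iff.1 hx) k
  have h3 : (2 : ℤ) ∣ TM2ex v' d k := by
    have h4 := dvd_add h1 h2
    rwa [sub_add_cancel] at h4
  exact h3

private theorem TM2_twP (h : ∀ l, TM2R b u v' (v l) (w l) (W l)) (f : MvPolynomial (Fin n) B)
    (hf : Par v f) : aeval W (twP b u v f) = twP b u v' (aeval w f) := by
  ext d
  rw [coeff_twP]
  have h0 : aeval w f = ∑ x ∈ f.support, aeval w (monomial x (f.coeff x)) := by
    conv_lhs => rw [f.as_sum]
    rw [map_sum]
  rw [h0, coeff_sum, map_sum, Finset.sum_mul]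
  unfold twP
  rw [map_sum, coeff_sum]
  refine Finset.sum_congr rfl fun x hx => ?_
  have h1 := TM2_monomial h x (f.coeff x)
  have h2 : ∀ k, (2 : ℤ) ∣ TM2ex v x k := hf x (mem_support_iff.1 hx)
  have h3 : (monomial x (b (f.coeff x) * ((mon u (fun k => (∑ i, (x i : ℤ) * v i k) / 2) : Vˣ) : V)) :
      MvPolynomial (Fin n) V) =
      ((mon u (fun k => (TM2ex v x k) / 2) : Vˣ) : V) • monomial x (b (f.coeff x)) := by
    rw [smul_monomial, smul_eq_mul, mul_comm]
    rfl
  rw [h3, map_smul, coeff_smul, smul_eq_mul, h1.coe]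
  by_cases h4 : coeff d (aeval w (monomial x (f.coeff x))) = 0
  · rw [h4, map_zero]
    ring
  have h5 : (fun k => (∑ i, (d i : ℤ) * v' i k) / 2) =
      (fun k => TM2ex v x k / 2) + fun k => (TM2ex v' d k - TM2ex v x k) / 2 := by
    funext k
    have h6 := h1.par d h4 k
    have h7 := h2 k
    have h8 : (∑ i, (d i : ℤ) * v' i k) = TM2ex v' d k := rfl
    rw [h8]
    simp only [Pi.add_apply]
    omega
  rw [h5, mon_add, Units.val_mul]
  ring

end

private theorem TM2_iso {V : Type} [CommRing V] {n n' : ℕ}
    (θ : MvPolynomial (Fin n) V ≃+* MvPolynomial (Fin n') V) (F : MvPolynomial (Fin n) V)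
    (G : MvPolynomial (Fin n') V) (h : θ F = G) :
    Nonempty ((MvPolynomial (Fin n) V ⧸ Ideal.span {F}) ≃+*
      (MvPolynomial (Fin n') V ⧸ Ideal.span {G})) := by
  refine ⟨Ideal.quotientEquiv _ _ θ ?_⟩
  rw [Ideal.map_span, Set.image_singleton]
  have h1 : (θ : MvPolynomial (Fin n) V →+* MvPolynomial (Fin n') V) F = G := h
  rw [h1]


/-! ### changes of variables -/

section

variable {A : Type} [CommRing A]

private theorem TM2_totalDegree {n : ℕ} (v : Fin n → MvPolynomial (Fin n) A)
    (hv : ∀ k, (v k).totalDegree ≤ 1) (f : MvPolynomial (Fin n) A) :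
    (aeval v f).totalDegree ≤ f.totalDegree := by
  conv_lhs => rw [f.as_sum]
  rw [map_sum]
  refine totalDegree_finsetSum_le fun d hd => ?_
  rw [aeval_monomial]
  refine (totalDegree_mul _ _).trans ?_
  have h1 : (algebraMap A (MvPolynomial (Fin n) A) (coeff d f)).totalDegree = 0 :=
    totalDegree_C _
  rw [h1, zero_add]
  refine le_trans ?_ (le_totalDegree hd)
  refine (totalDegree_finsetProd _ _).trans (Finset.sum_le_sum fun k _ => ?_)
  refine (totalDegree_pow _ _).trans ?_
  exact (Nat.mul_le_mul_left _ (hv k)).trans (mul_one _).le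

private theorem TM2_tX {n : ℕ} (k : Fin n) : (X k : MvPolynomial (Fin n) A).totalDegree ≤ 1 := by
  rcases subsingleton_or_nontrivial A with h | h
  · have h1 : (X k : MvPolynomial (Fin n) A) = 0 := Subsingleton.elim _ _
    rw [h1, totalDegree_zero]
    exact Nat.zero_le _
  · exact (totalDegree_X k).le

/-- the value of the quadratic part at the sum of two unit vectors -/
private theorem TM2_q {n : ℕ} (i j : Fin n) (hij : i ≠ j) (f : MvPolynomial (Fin n) A) :
    (aeval (fun k => if k = i ∨ k = j then (Polynomial.X : Polynomial A) else 0) f).coeff 2 =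
      f.coeff (Finsupp.single i 2) + f.coeff (Finsupp.single j 2) +
        f.coeff (Finsupp.single i 1 + Finsupp.single j 1) := by
  induction f using MvPolynomial.induction_on' with
  | add p q hp hq =>
    rw [map_add, Polynomial.coeff_add, hp, hq, coeff_add, coeff_add, coeff_add]
    ring
  | monomial d a =>
    rw [aeval_monomial, coeff_monomial, coeff_monomial, coeff_monomial]
    by_cases h : ∃ k, d k ≠ 0 ∧ k ≠ i ∧ k ≠ j
    · obtain ⟨k, h1, h2, h3⟩ := h
      have h4 : (d.prod fun k e => (if k = i ∨ k = j then (Polynomial.X : Polynomial A)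
          else 0) ^ e) = 0 := by
        refine Finset.prod_eq_zero (Finsupp.mem_support_iff.2 h1) ?_
        show (if k = i ∨ k = j then (Polynomial.X : Polynomial A) else 0) ^ (d k) = 0
        rw [if_neg (not_or.2 ⟨h2, h3⟩), zero_pow h1]
      have k1 : ∀ e : ℕ, Finsupp.single i e k = 0 := fun e => Finsupp.single_eq_of_ne h2
      have k2 : ∀ e : ℕ, Finsupp.single j e k = 0 := fun e => Finsupp.single_eq_of_ne h3
      rw [h4, mul_zero, Polynomial.coeff_zero, if_neg, if_neg, if_neg]
      · simp
      · intro h5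
        rw [h5, Finsupp.add_apply, k1, k2] at h1
        exact h1 rfl
      · intro h5
        rw [h5, k2] at h1
        exact h1 rfl
      · intro h5
        rw [h5, k1] at h1
        exact h1 rfl
    · push Not at h
      obtain ⟨p, hp⟩ : ∃ p, p = d i := ⟨_, rfl⟩
      obtain ⟨q, hq⟩ : ∃ q, q = d j := ⟨_, rfl⟩
      have hd : d = Finsupp.single i p + Finsupp.single j q := by
        ext k
        rw [Finsupp.add_apply]
        by_cases h1 : k = i
        · subst h1
          rw [Finsupp.single_eq_same, Finsupp.single_eq_of_ne hij, add_zero, hp]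
        · rw [Finsupp.single_eq_of_ne h1, zero_add]
          by_cases h2 : k = j
          · rw [h2, Finsupp.single_eq_same, hq]
          · rw [Finsupp.single_eq_of_ne h2]
            by_contra h3
            exact h2 (h k h3 h1)
      have h4 : (d.prod fun k e => (if k = i ∨ k = j then (Polynomial.X : Polynomial A)
          else 0) ^ e) = Polynomial.X ^ (p + q) := by
        have k1 : ((Finsupp.single i p).prod fun k e =>
            (if k = i ∨ k = j then (Polynomial.X : Polynomial A) else 0) ^ e) =
            Polynomial.X ^ p := by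
          rw [Finsupp.prod_single_index (h := fun k e =>
            (if k = i ∨ k = j then (Polynomial.X : Polynomial A) else 0) ^ e) (pow_zero _),
            if_pos (Or.inl rfl)]
        have k2 : ((Finsupp.single j q).prod fun k e =>
            (if k = i ∨ k = j then (Polynomial.X : Polynomial A) else 0) ^ e) =
            Polynomial.X ^ q := by
          rw [Finsupp.prod_single_index (h := fun k e =>
            (if k = i ∨ k = j then (Polynomial.X : Polynomial A) else 0) ^ e) (pow_zero _),
            if_pos (Or.inr rfl)]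
        rw [hd, Finsupp.prod_add_index' (fun _ => pow_zero _) (fun _ _ _ => pow_add _ _ _)]
        exact (congrArg₂ (· * ·) k1 k2).trans (pow_add _ _ _).symm
      have e1 : d = Finsupp.single i 2 ↔ p = 2 ∧ q = 0 := by
        constructor
        · intro h5
          rw [hp, hq, h5]
          exact ⟨Finsupp.single_eq_same, Finsupp.single_eq_of_ne hij.symm⟩
        · rintro ⟨rfl, rfl⟩
          rw [hd, Finsupp.single_zero, add_zero]
      have e2 : d = Finsupp.single j 2 ↔ p = 0 ∧ q = 2 := by
        constructor
        · intro h5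
          rw [hp, hq, h5]
          exact ⟨Finsupp.single_eq_of_ne hij, Finsupp.single_eq_same⟩
        · rintro ⟨rfl, rfl⟩
          rw [hd, Finsupp.single_zero, zero_add]
      have e3 : d = Finsupp.single i 1 + Finsupp.single j 1 ↔ p = 1 ∧ q = 1 := by
        constructor
        · intro h5
          rw [hp, hq, h5, Finsupp.add_apply, Finsupp.add_apply, Finsupp.single_eq_same,
            Finsupp.single_eq_same, Finsupp.single_eq_of_ne hij, Finsupp.single_eq_of_ne hij.symm]
          exact ⟨rfl, rfl⟩
        · rintro ⟨rfl, rfl⟩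
          exact hd
      have h6 : (algebraMap A (Polynomial A) a * Polynomial.X ^ (p + q)).coeff 2 =
          if p + q = 2 then a else 0 := by
        show (Polynomial.C a * Polynomial.X ^ (p + q)).coeff 2 = _
        rw [Polynomial.coeff_C_mul_X_pow]
        by_cases h7 : p + q = 2
        · rw [if_pos h7, if_pos h7.symm]
        · rw [if_neg h7, if_neg fun h8 => h7 h8.symm]
      rw [h4, h6, if_congr e1 rfl rfl, if_congr e2 rfl rfl, if_congr e3 rfl rfl]
      by_cases h7 : p + q = 2
      · have h8 : (p = 2 ∧ q = 0) ∨ (p = 0 ∧ q = 2) ∨ (p = 1 ∧ q = 1) := by omega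
        rcases h8 with ⟨rfl, rfl⟩ | ⟨rfl, rfl⟩ | ⟨rfl, rfl⟩ <;> simp
      · rw [if_neg h7, if_neg (by omega), if_neg (by omega), if_neg (by omega)]
        simp

/-- the coefficient of the square of the first variable -/
private theorem TM2_c0 (m : ℕ) (f : MvPolynomial (Fin (m + 1)) A) :
    f.coeff (Finsupp.single 0 2) =
      (aeval (fun k : Fin (m + 1) => if k = 0 then (Polynomial.X : Polynomial A) else 0)
        f).coeff 2 := by
  have h1 : (Polynomial.mapAlgHom (aeval (fun _ : Fin m => (0 : A)))).comp
      (finSuccEquiv A m).toAlgHom =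
      aeval (fun k : Fin (m + 1) => if k = 0 then (Polynomial.X : Polynomial A) else 0) := by
    refine algHom_ext fun k => ?_
    rw [aeval_X, AlgHom.comp_apply]
    refine Fin.cases ?_ (fun j => ?_) k
    · rw [if_pos rfl]
      show Polynomial.mapAlgHom _ (finSuccEquiv A m (X 0)) = _
      rw [finSuccEquiv_X_zero]
      simp
    · rw [if_neg (Fin.succ_ne_zero j)]
      show Polynomial.mapAlgHom _ (finSuccEquiv A m (X j.succ)) = _
      rw [finSuccEquiv_X_succ]
      simp
  rw [← h1]
  show _ = (Polynomial.map ((aeval (fun _ : Fin m => (0 : A)) :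
    MvPolynomial (Fin m) A →ₐ[A] A) : MvPolynomial (Fin m) A →+* A)
      (finSuccEquiv A m f)).coeff 2
  rw [Polynomial.coeff_map]
  have h2 : ∀ p : MvPolynomial (Fin m) A, (aeval (fun _ : Fin m => (0 : A)) :
      MvPolynomial (Fin m) A →ₐ[A] A) p = p.coeff 0 := by
    intro p
    have := aeval_zero' (S₁ := A) p
    rw [this]
    rfl
  have h3 : ((aeval (fun _ : Fin m => (0 : A)) :
      MvPolynomial (Fin m) A →ₐ[A] A) : MvPolynomial (Fin m) A →+* A)
        ((finSuccEquiv A m f).coeff 2) = ((finSuccEquiv A m f).coeff 2).coeff 0 := h2 _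
  rw [h3, finSuccEquiv_coeff_coeff]
  congr 1
  ext i
  refine Fin.cases ?_ (fun j => ?_) i
  · rw [Finsupp.cons_zero, Finsupp.single_eq_same]
  · rw [Finsupp.cons_succ, Finsupp.single_eq_of_ne (Fin.succ_ne_zero j)]
    rfl


end


/-- the automorphism adding a multiple of one variable to another one -/
private noncomputable def TM2_add {V : Type} [CommRing V] {n : ℕ} (i j : Fin n) (hij : i ≠ j)
    (t : V) : MvPolynomial (Fin n) V ≃ₐ[V] MvPolynomial (Fin n) V :=
  AlgEquiv.ofAlgHom (aeval fun k => if k = j then X j + C t * X i else X k)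
    (aeval fun k => if k = j then X j - C t * X i else X k)
    (by
      refine algHom_ext fun k => ?_
      rw [AlgHom.comp_apply, aeval_X, AlgHom.id_apply]
      have hC : ∀ g : Fin n → MvPolynomial (Fin n) V, aeval g (C t) = C t := fun g =>
        (aeval g).commutes t
      by_cases h : k = j
      · rw [if_pos h, map_sub, map_mul, hC, aeval_X, aeval_X, if_pos rfl, if_neg hij, h]
        ring
      · rw [if_neg h, aeval_X, if_neg h])
    (by
      refine algHom_ext fun k => ?_
      rw [AlgHom.comp_apply, aeval_X, AlgHom.id_apply]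
      have hC : ∀ g : Fin n → MvPolynomial (Fin n) V, aeval g (C t) = C t := fun g =>
        (aeval g).commutes t
      by_cases h : k = j
      · rw [if_pos h, map_add, map_mul, hC, aeval_X, aeval_X, if_pos rfl, if_neg hij, h]
        ring
      · rw [if_neg h, aeval_X, if_neg h])

theorem thm_TM2 : St_TM2 := by
  intro B _ n ρ v f hf hpar hunit
  obtain ⟨m, rfl⟩ : ∃ m, n = m + 1 := by
    rcases n with _ | m
    · rcases hunit with ⟨i, -⟩ | ⟨i, -⟩ <;> exact i.elim0
    · exact ⟨m, rfl⟩
  rcases hunit with ⟨i, hi⟩ | ⟨i, j, hij, hi0, hj0, hu⟩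
  · obtain ⟨s, hs⟩ : ∃ s, s = Equiv.swap 0 i := ⟨_, rfl⟩
    have key : ∀ (V : Type) [CommRing V] (b : B →+* V) (u : Fin ρ → Vˣ) (l : Fin (m + 1)),
        TM2R b u (fun l => v (s l)) (v l) (X (s l)) (X (s l)) := by
      intro V _ b u l
      have h := TM2R_X0 (b := b) (u := u) (v := fun l => v (s l)) (s l)
      have h1 : v (s (s l)) = v l := by
        rw [hs, Equiv.swap_apply_self]
      rwa [h1] at h
    have hren : ∀ (R : Type) [CommRing R] (g : MvPolynomial (Fin (m + 1)) R),
        aeval (fun l => (X (s l) : MvPolynomial (Fin (m + 1)) R)) g = rename s g :=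
      fun R _ g => DFunLike.congr_fun (f := aeval (fun l => (X (s l) :
        MvPolynomial (Fin (m + 1)) R))) (g := rename s)
          (algHom_ext fun k => by rw [aeval_X, rename_X]) g
    refine ⟨m, fun l => v (s l), rename s f, (totalDegree_rename_le _ f).trans hf, ?_, ?_, ?_⟩
    · have h := TM2_par (key B (RingHom.id B) 1) f hpar
      rwa [hren] at h
    · have h1 := coeff_rename_mapDomain s (Equiv.injective _) f (Finsupp.single i 2)
      rw [Finsupp.mapDomain_single, hs, Equiv.swap_apply_right] at h1
      rw [hs, h1]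
      exact hi
    · intro V _ b u
      refine TM2_iso (renameEquiv V s).toRingEquiv _ _ ?_
      have h := TM2_twP (key V b u) f hpar
      rw [hren, hren] at h
      exact h
  · rcases subsingleton_or_nontrivial B with hB | hB
    · refine ⟨m, v, f, hf, hpar, isUnit_of_subsingleton _, ?_⟩
      intro V _ b u
      exact ⟨RingEquiv.refl _⟩
    obtain ⟨s, hs⟩ : ∃ s, s = Equiv.swap 0 i := ⟨_, rfl⟩
    have hev : ∀ k, (2 : ℤ) ∣ v i k - v j k := by
      intro k
      have h1 := hpar _ hu.ne_zero k
      have h2 : TM2ex v (Finsupp.single i 1 + Finsupp.single j 1) k = v i k + v j k := by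
        rw [TM2ex_add, Pi.add_apply, TM2ex_single, TM2ex_single]
      have h3 : (2 : ℤ) ∣ TM2ex v (Finsupp.single i 1 + Finsupp.single j 1) k := h1
      rw [h2] at h3
      omega
    have key1 : ∀ (V : Type) [CommRing V] (b : B →+* V) (u : Fin ρ → Vˣ) (l : Fin (m + 1)),
        TM2R b u v (v l) (if l = j then X j + C 1 * X i else X l)
          (if l = j then X j + C ((mon u fun k => (v i k - v j k) / 2 : Vˣ) : V) * X i
            else X l) := by
      intro V _ b u l
      split_ifs with h
      · subst h
        rw [C_1, one_mul]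
        exact TM2R_add (TM2R_X0 l) (TM2R_X i _ hev)
      · exact TM2R_X0 l
    obtain ⟨g, hg⟩ : ∃ g, g = aeval (fun l => if l = j then
      (X j + C 1 * X i : MvPolynomial (Fin (m + 1)) B) else X l) f := ⟨_, rfl⟩
    have hgp : Par v g := by
      rw [hg]
      exact TM2_par (key1 B (RingHom.id B) 1) f hpar
    have key : ∀ (V : Type) [CommRing V] (b : B →+* V) (u : Fin ρ → Vˣ) (l : Fin (m + 1)),
        TM2R b u (fun l => v (s l)) (v l) (X (s l)) (X (s l)) := by
      intro V _ b u l
      have h := TM2R_X0 (b := b) (u := u) (v := fun l => v (s l)) (s l)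
      have h1 : v (s (s l)) = v l := by
        rw [hs, Equiv.swap_apply_self]
      rwa [h1] at h
    have hren : ∀ (R : Type) [CommRing R] (g : MvPolynomial (Fin (m + 1)) R),
        aeval (fun l => (X (s l) : MvPolynomial (Fin (m + 1)) R)) g = rename s g :=
      fun R _ g => DFunLike.congr_fun (f := aeval (fun l => (X (s l) :
        MvPolynomial (Fin (m + 1)) R))) (g := rename s)
          (algHom_ext fun k => by rw [aeval_X, rename_X]) g
    refine ⟨m, fun l => v (s l), rename s g, ?_, ?_, ?_, ?_⟩
    · refine le_trans (totalDegree_rename_le _ _) ?_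
      rw [hg]
      refine (TM2_totalDegree _ (fun k => ?_) f).trans hf
      split_ifs
      · rw [C_1, one_mul]
        exact (totalDegree_add _ _).trans (max_le (TM2_tX j) (TM2_tX i))
      · exact TM2_tX k
    · have h := TM2_par (key B (RingHom.id B) 1) g hgp
      rwa [hren] at h
    · rw [TM2_c0]
      have h1 : ((aeval (fun k : Fin (m + 1) => if k = 0 then (Polynomial.X : Polynomial B)
          else 0)).comp (rename s : MvPolynomial (Fin (m + 1)) B →ₐ[B]
            MvPolynomial (Fin (m + 1)) B)).comp
          (aeval (fun l => if l = j then (X j + C 1 * X i : MvPolynomial (Fin (m + 1)) B)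
            else X l)) =
          aeval (fun k => if k = i ∨ k = j then (Polynomial.X : Polynomial B) else 0) := by
        refine algHom_ext fun k => ?_
        rw [aeval_X, AlgHom.comp_apply, AlgHom.comp_apply, aeval_X]
        have e1 : ∀ l, (aeval (fun k : Fin (m + 1) => if k = 0 then (Polynomial.X : Polynomial B)
          else 0)) (rename s (X l : MvPolynomial (Fin (m + 1)) B)) =
            if l = i then Polynomial.X else 0 := by
          intro l
          rw [rename_X, aeval_X]
          have e2 : s l = 0 ↔ l = i := by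
            rw [hs, Equiv.swap_apply_eq_iff, Equiv.swap_apply_left]
          rw [if_congr e2 rfl rfl]
        by_cases h : k = j
        · rw [if_pos h, C_1, one_mul, map_add, map_add, e1, e1, if_neg hij.symm, if_pos rfl,
            zero_add, if_pos (Or.inr h)]
        · rw [if_neg h, e1]
          by_cases h3 : k = i
          · rw [if_pos h3, if_pos (Or.inl h3)]
          · rw [if_neg h3, if_neg (not_or.2 ⟨h3, h⟩)]
      have h2 := congrArg (fun φ => (φ f).coeff 2) h1
      have h3 : (aeval (fun k : Fin (m + 1) => if k = 0 then (Polynomial.X : Polynomial B)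
          else 0) (rename s g)).coeff 2 =
          (aeval (fun k => if k = i ∨ k = j then (Polynomial.X : Polynomial B) else 0)
            f).coeff 2 := by
        rw [hg]
        exact h2
      rw [h3, TM2_q i j hij, hi0, hj0, zero_add, zero_add]
      exact hu
    · intro V _ b u
      refine TM2_iso ((TM2_add i j hij
        ((mon u fun k => (v i k - v j k) / 2 : Vˣ) : V)).toRingEquiv.trans
          (renameEquiv V s).toRingEquiv) _ _ ?_
      have h := TM2_twP (key1 V b u) f hpar
      rw [← hg] at h
      have h' := TM2_twP (key V b u) g hgp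
      rw [hren, hren] at h'
      have h4 : ((TM2_add i j hij
        ((mon u fun k => (v i k - v j k) / 2 : Vˣ) : V)).toRingEquiv.trans
          (renameEquiv V s).toRingEquiv) (twP b u v f) =
          rename s (aeval (fun l => if l = j then
            (X j + C ((mon u fun k => (v i k - v j k) / 2 : Vˣ) : V) * X i :
              MvPolynomial (Fin (m + 1)) V) else X l) (twP b u v f)) := rfl
      rw [h4, h]
      exact h'

end Pool.Agent.QTG
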