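import Pool.Agent.QTG.StSk

/-!
# QTG, module TWG

Statement and proof: see `St_TWG` in `Pool/Agent/QTG/StSk.lean`.
-/

set_option autoImplicit false
set_option linter.style.haveILetI false

namespace Pool.Agent.QTG

open Function MvPolynomial TensorProduct Pool.Agent.TQF Pool.Agent.Helper67.Bass
  Pool.Agent.Helper11

/-- the coefficient to be inverted -/
private theorem TWG_cases {A : Type} [CommRing A] [IsDomain A] (n : ℕ) (f : MvPolynomial (Fin n) A)
    (hf : f.totalDegree ≤ 2) : ∃ u : A, u ≠ 0 ∧ ∀ (B : Type) [CommRing B] (φ : A →+* B),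
      IsUnit (φ u) → ((∃ i, IsUnit ((MvPolynomial.map φ f).coeff (Finsupp.single i 2))) ∨
        ∃ i j, i ≠ j ∧ (MvPolynomial.map φ f).coeff (Finsupp.single i 2) = 0 ∧
          (MvPolynomial.map φ f).coeff (Finsupp.single j 2) = 0 ∧
          IsUnit ((MvPolynomial.map φ f).coeff (Finsupp.single i 1 + Finsupp.single j 1))) ∨
      ((MvPolynomial.map φ f).totalDegree ≤ 1 ∧
        ∃ i, IsUnit ((MvPolynomial.map φ f).coeff (Finsupp.single i 1))) ∨
      (∃ c, IsUnit c ∧ MvPolynomial.map φ f = C c) ∨ MvPolynomial.map φ f = 0 := by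
  by_cases h1 : ∃ i, f.coeff (Finsupp.single i 2) ≠ 0
  · obtain ⟨i, hi⟩ := h1
    exact ⟨_, hi, fun B _ φ hu => Or.inl (Or.inl ⟨i, by rw [coeff_map]; exact hu⟩)⟩
  push Not at h1
  by_cases h2 : ∃ i j, i ≠ j ∧ f.coeff (Finsupp.single i 1 + Finsupp.single j 1) ≠ 0
  · obtain ⟨i, j, hij, h2⟩ := h2
    refine ⟨_, h2, fun B _ φ hu => Or.inl (Or.inr ⟨i, j, hij, ?_, ?_, ?_⟩)⟩
    · rw [coeff_map, h1, map_zero]
    · rw [coeff_map, h1, map_zero]
    · rw [coeff_map]
      exact hu
  push Not at h2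
  -- total degree at most one
  have hd2 : ∀ d : Fin n →₀ ℕ, d.degree = 2 → f.coeff d = 0 := by
    intro d hd
    by_contra hne
    have hd0 : d ≠ 0 := by rintro rfl; simp at hd
    obtain ⟨i, hi⟩ := Finsupp.support_nonempty_iff.2 hd0
    have hi' : Finsupp.single i 1 ≤ d := by
      rw [Finsupp.single_le_iff]
      exact Nat.one_le_iff_ne_zero.2 (Finsupp.mem_support_iff.1 hi)
    obtain ⟨d', rfl⟩ := exists_add_of_le hi'
    have hd' : d'.degree = 1 := by
      have := Finsupp.degree.map_add (Finsupp.single i 1) d'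
      rw [hd, Finsupp.degree_single] at this
      omega
    have hd0' : d' ≠ 0 := by rintro rfl; simp at hd'
    obtain ⟨j, hj⟩ := Finsupp.support_nonempty_iff.2 hd0'
    have hj' : Finsupp.single j 1 ≤ d' := by
      rw [Finsupp.single_le_iff]
      exact Nat.one_le_iff_ne_zero.2 (Finsupp.mem_support_iff.1 hj)
    obtain ⟨d'', rfl⟩ := exists_add_of_le hj'
    have hd'' : d''.degree = 0 := by
      have := Finsupp.degree.map_add (Finsupp.single j 1) d''
      rw [hd', Finsupp.degree_single] at this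
      omega
    have hz : d'' = 0 := by rwa [Finsupp.degree_eq_zero_iff] at hd''
    subst hz
    rw [add_zero] at hne
    by_cases hij : i = j
    · subst hij
      rw [← Finsupp.single_add] at hne
      exact hne (h1 i)
    · exact hne (h2 i j hij)
  have hdeg1 : f.totalDegree ≤ 1 := by
    rw [MvPolynomial.totalDegree]
    refine Finset.sup_le fun d hd => ?_
    have hle : d.degree ≤ 2 := by
      have := (MvPolynomial.le_totalDegree hd).trans hf
      exact this
    have hne : d.degree ≠ 2 := fun h => (mem_support_iff.1 hd) (hd2 d h)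
    have : d.degree ≤ 1 := by omega
    exact this
  by_cases h3 : ∃ i, f.coeff (Finsupp.single i 1) ≠ 0
  · obtain ⟨i, hi⟩ := h3
    exact ⟨_, hi, fun B _ φ hu => Or.inr (Or.inl ⟨(gen_tdmap _ _).trans hdeg1, i, by
      rw [coeff_map]; exact hu⟩)⟩
  push Not at h3
  have hconst : f = C (f.coeff 0) := by
    rw [← totalDegree_eq_zero_iff_eq_C]
    rw [MvPolynomial.totalDegree_eq_zero_iff]
    intro d hd i
    by_contra hne
    have hle : d.degree ≤ 1 := (MvPolynomial.le_totalDegree hd).trans hdeg1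
    have hi' : Finsupp.single i 1 ≤ d := by
      rw [Finsupp.single_le_iff]
      exact Nat.one_le_iff_ne_zero.2 hne
    obtain ⟨d', rfl⟩ := exists_add_of_le hi'
    have := Finsupp.degree.map_add (Finsupp.single i 1) d'
    rw [Finsupp.degree_single] at this
    have hz : d'.degree = 0 := by omega
    rw [Finsupp.degree_eq_zero_iff] at hz
    subst hz
    rw [add_zero] at hd
    exact (mem_support_iff.1 hd) (h3 i)
  by_cases h4 : f.coeff 0 = 0
  · refine ⟨1, one_ne_zero, fun B _ φ _ => Or.inr (Or.inr (Or.inr ?_))⟩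
    rw [hconst, h4, map_C, map_zero, C_0]
  · refine ⟨_, h4, fun B _ φ hu => Or.inr (Or.inr (Or.inl ⟨φ (f.coeff 0), hu, ?_⟩))⟩
    conv_lhs => rw [hconst]
    rw [map_C]


private theorem TWG_par {A B : Type} [CommRing A] [CommRing B] {n ρ : ℕ} {v : Fin n → Fin ρ → ℤ}
    {f : MvPolynomial (Fin n) A} (h : Par v f) (φ : A →+* B) : Par v (MvPolynomial.map φ f) := by
  intro d hd
  refine h d fun h0 => hd ?_
  rw [coeff_map, h0, map_zero]

private theorem TWG_lau {B B' V : Type} [CommRing B] [CommRing B'] [CommRing V] {ρ : ℕ}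
    (e : B ≃+* B') (b : B' →+* V) (u : Fin ρ → Vˣ) (h : IsLauR b u) :
    IsLauR (b.comp (e : B →+* B')) u where
  inj := by
    have h1 : (eval₂Hom (b.comp (e : B →+* B')) (fun k => (u k : V)) : MvPolynomial (Fin ρ) B →+* V)
        = (eval₂Hom b (fun k => (u k : V))).comp (MvPolynomial.map (e : B →+* B')) := by
      refine MvPolynomial.ringHom_ext (fun r => ?_) fun k => ?_
      · rw [RingHom.comp_apply, map_C, coe_eval₂Hom, coe_eval₂Hom, eval₂_C, eval₂_C]
        rfl
      · rw [RingHom.comp_apply, map_X, coe_eval₂Hom, coe_eval₂Hom, eval₂_X, eval₂_X]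
    rw [h1, RingHom.coe_comp]
    exact h.inj.comp (map_injective _ e.injective)
  frac x := by
    obtain ⟨N, p, hp⟩ := h.frac x
    refine ⟨N, MvPolynomial.map (e.symm : B' →+* B) p, ?_⟩
    rw [hp, eval₂_map]
    have h2 : (b.comp (e : B →+* B')).comp (e.symm : B' →+* B) = b := by
      refine RingHom.ext fun y => ?_
      show b (e (e.symm y)) = b y
      rw [e.apply_symm_apply]
    rw [h2]

/-- the four cases of the normal form -/
private theorem TWG_core (h1 : St_TM1) (h2 : St_TM2) (hF : St_SK4F) (hB : St_SK4B) (hV : St_LAU)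
    (h5 : St_SK5) {A : Type} [CommRing A] [IsDomain A] [Algebra.FiniteType ℤ A] (hA : FinGn A)
    (hK : KroneckerLeOne (FractionRing A)) (n ρ : ℕ) (v : Fin n → Fin ρ → ℤ)
    (f : MvPolynomial (Fin n) A) (hf : f.totalDegree ≤ 2) (hpar : Par v f)
    (hc : ((∃ i, IsUnit (f.coeff (Finsupp.single i 2))) ∨ ∃ i j, i ≠ j ∧
      f.coeff (Finsupp.single i 2) = 0 ∧ f.coeff (Finsupp.single j 2) = 0 ∧
        IsUnit (f.coeff (Finsupp.single i 1 + Finsupp.single j 1))) ∨
      (f.totalDegree ≤ 1 ∧ ∃ i, IsUnit (f.coeff (Finsupp.single i 1))) ∨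
      (∃ c, IsUnit c ∧ f = C c) ∨ f = 0) :
    ∃ s : A, s ≠ 0 ∧ ∀ (V : Type) [CommRing V] (b : Localization.Away s →+* V) (u : Fin ρ → Vˣ),
      IsLauR b u → FinGn (MvPolynomial (Fin n) V ⧸
        Ideal.span {twP b u v (MvPolynomial.map (algebraMap A (Localization.Away s)) f)}) := by
  haveI : IsNoetherianRing A := Algebra.FiniteType.isNoetherianRing ℤ A
  have hN : ∀ s : A, IsNoetherianRing (Localization.Away s) := fun s => inferInstance
  have hFV : ∀ s : A, FinGn (Localization.Away s) := fun s => FinGn.away s hA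
  rcases hc with hc | ⟨hd, i, hi⟩ | ⟨c, hc, rfl⟩ | rfl
  · obtain ⟨m, v', f', hf', hpar', hunit, hiso⟩ := h2 A n ρ v f hf hpar hc
    obtain ⟨q, c, hq, hiso'⟩ := h1 A m ρ v' f' hf' hpar' hunit
    haveI : Module.Finite A (SAlg q c) := hF A m ρ q c
    obtain ⟨s, hs, hfin⟩ := all_NC A (FractionRing A) hK (SAlg q c)
    refine ⟨s, hs, fun V _ b u hL => ?_⟩
    haveI := hN s
    obtain ⟨hVN, hVF⟩ := hV (Localization.Away s) V ρ b u hL
    haveI := hVN
    have h3 := hB A (Localization.Away s) m ρ q c hfin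
    have h4 := h5 (Localization.Away s) V m ρ (q.map (algebraMap A (Localization.Away s))) c
      (hq.map _) b u hL h3
    have h6 := all_FinQ V m (tw b u c (q.map (algebraMap A (Localization.Away s))))
      ((thm_T0 _).1 (hVF (hFV s))) h4
    have h7 := thm_T1 _ _ _ h6
    obtain ⟨e1⟩ := hiso V (b.comp (algebraMap A (Localization.Away s))) u
    obtain ⟨e2⟩ := hiso' V (b.comp (algebraMap A (Localization.Away s))) u
    rw [twP_map]
    exact FinGn.of_equiv (e1.trans e2).symm h7
  · refine ⟨1, one_ne_zero, fun V _ b u hL => ?_⟩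
    haveI := hN 1
    obtain ⟨hVN, hVF⟩ := hV (Localization.Away (1 : A)) V ρ b u hL
    obtain ⟨m, ⟨e⟩⟩ := thm_Lin V n
      (twP b u v (MvPolynomial.map (algebraMap A (Localization.Away (1 : A))) f))
      ((totalDegree_twP_le _ _ _ _).trans ((gen_tdmap _ _).trans hd)) ⟨i, by
        rw [coeff_twP, coeff_map]
        exact ((hi.map _).map b).mul (Units.isUnit _)⟩
    exact FinGn.of_equiv e.symm ((hVF (hFV 1)).mvPolynomial (Fin m))
  · refine ⟨1, one_ne_zero, fun V _ b u hL => ?_⟩
    have h3 : twP b u v (MvPolynomial.map (algebraMap A (Localization.Away (1 : A)))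
        (C c : MvPolynomial (Fin n) A)) =
        C (b (algebraMap A (Localization.Away (1 : A)) c) *
          (mon u (fun k => (∑ i, (((0 : Fin n →₀ ℕ) i : ℕ) : ℤ) * v i k) / 2) : Vˣ)) := by
      refine MvPolynomial.ext _ _ fun d => ?_
      rw [coeff_twP, map_C, coeff_C, coeff_C]
      by_cases hd : 0 = d
      · subst hd
        rw [if_pos rfl, if_pos rfl]
      · rw [if_neg hd, if_neg hd, map_zero, zero_mul]
    have h4 : Ideal.span {twP b u v (MvPolynomial.map (algebraMap A (Localization.Away (1 : A)))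
        (C c : MvPolynomial (Fin n) A))} = ⊤ := by
      rw [Ideal.span_singleton_eq_top, h3]
      exact (((hc.map _).map b).mul (Units.isUnit _)).map C
    haveI : Subsingleton (MvPolynomial (Fin n) V ⧸
        Ideal.span {twP b u v (MvPolynomial.map (algebraMap A (Localization.Away (1 : A)))
        (C c : MvPolynomial (Fin n) A))}) := Ideal.Quotient.subsingleton_iff.2 h4
    exact FinGn.of_subsingleton _
  · refine ⟨1, one_ne_zero, fun V _ b u hL => ?_⟩
    haveI := hN 1
    obtain ⟨hVN, hVF⟩ := hV (Localization.Away (1 : A)) V ρ b u hL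
    have h3 : twP b u v (MvPolynomial.map (algebraMap A (Localization.Away (1 : A)))
        (0 : MvPolynomial (Fin n) A)) = 0 := by
      refine MvPolynomial.ext _ _ fun d => ?_
      rw [coeff_twP, map_zero, coeff_zero, map_zero, zero_mul, coeff_zero]
    have h4 : Ideal.span {twP b u v (MvPolynomial.map (algebraMap A (Localization.Away (1 : A)))
        (0 : MvPolynomial (Fin n) A))} = ⊥ := by
      rw [h3, Ideal.span_singleton_eq_bot]
    rw [h4]
    exact FinGn.of_equiv (RingEquiv.quotientBot _).symm ((hVF (hFV 1)).mvPolynomial (Fin n))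

private theorem TWG_step (h1 : St_TM1) (h2 : St_TM2) (hF : St_SK4F) (hB : St_SK4B) (hV : St_LAU)
    (h5 : St_SK5) {A K A1 A2 : Type} [CommRing A] [IsDomain A] [Algebra.FiniteType ℤ A] [Field K]
    [Algebra A K] [IsFractionRing A K] (hK : KroneckerLeOne K) [CommRing A1] [IsDomain A1]
    [Algebra A A1] [CommRing A2] [IsDomain A2] [Algebra A A2] [Algebra A1 A2]
    [IsScalarTower A A1 A2] (p : A) (hp : p ≠ 0) [IsLocalization.Away p A1] (hg1 : FinGn A1)
    (u0 : A) (hu : u0 ≠ 0) [IsLocalization.Away (algebraMap A A1 u0) A2] (n ρ : ℕ)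
    (v : Fin n → Fin ρ → ℤ) (f : MvPolynomial (Fin n) A) (hf : f.totalDegree ≤ 2) (hpar : Par v f)
    (hc : ∀ (B : Type) [CommRing B] (φ : A →+* B),
      IsUnit (φ u0) → ((∃ i, IsUnit ((MvPolynomial.map φ f).coeff (Finsupp.single i 2))) ∨
        ∃ i j, i ≠ j ∧ (MvPolynomial.map φ f).coeff (Finsupp.single i 2) = 0 ∧
          (MvPolynomial.map φ f).coeff (Finsupp.single j 2) = 0 ∧
          IsUnit ((MvPolynomial.map φ f).coeff (Finsupp.single i 1 + Finsupp.single j 1))) ∨
      ((MvPolynomial.map φ f).totalDegree ≤ 1 ∧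
        ∃ i, IsUnit ((MvPolynomial.map φ f).coeff (Finsupp.single i 1))) ∨
      (∃ c, IsUnit c ∧ MvPolynomial.map φ f = C c) ∨ MvPolynomial.map φ f = 0) :
    ∃ x : A, x ≠ 0 ∧
      ∀ (B1 : Type) [CommRing B1] [Algebra A B1] [IsLocalization.Away x B1] (V : Type) [CommRing V]
        (b : B1 →+* V) (u : Fin ρ → Vˣ), IsLauR b u →
        FinGn (MvPolynomial (Fin n) V ⧸
          Ideal.span {twP b u v (MvPolynomial.map (algebraMap A B1) f)}) := by
  haveI : Algebra.FiniteType ℤ A1 := gen_ft p
  have hinj1 := (gen_dom (B := A1) p hp).2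
  have hu1 : algebraMap A A1 u0 ≠ 0 := (map_ne_zero_iff _ hinj1).2 hu
  haveI : Algebra.FiniteType ℤ A2 := gen_ft (algebraMap A A1 u0)
  have hK1 : KroneckerLeOne (FractionRing A1) := gen_kron (B := A1) p hp hK
  have hK2 : KroneckerLeOne (FractionRing A2) := gen_kron (B := A2) (algebraMap A A1 u0) hu1 hK1
  have hg2 : FinGn A2 := FinGn.away (algebraMap A A1 u0) hg1
  have hunit : IsUnit (algebraMap A A2 u0) := by
    rw [IsScalarTower.algebraMap_apply A A1 A2]
    exact IsLocalization.Away.algebraMap_isUnit _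
  obtain ⟨s, hs, hfin⟩ := TWG_core h1 h2 hF hB hV h5 hg2 hK2 n ρ v
    (MvPolynomial.map (algebraMap A A2) f) ((gen_tdmap _ _).trans hf) (TWG_par hpar _)
    (hc A2 (algebraMap A A2) hunit)
  obtain ⟨x', hx', hloc'⟩ := thm_Tr A A1 A2 p (algebraMap A A1 u0) hp hu1 inferInstance
    inferInstance
  obtain ⟨x, hx, hloc⟩ := thm_Tr A A2 (Localization.Away s) x' s hx' hs hloc' inferInstance
  refine ⟨x, hx, fun B1 _ _ _ V _ b u hL => ?_⟩
  haveI := hloc
  let e : Localization.Away s ≃ₐ[A] B1 :=
    IsLocalization.algEquiv (Submonoid.powers x) (Localization.Away s) B1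
  have h3 := hfin V (b.comp ((e : Localization.Away s ≃+* B1) : Localization.Away s →+* B1)) u
    (TWG_lau (e : Localization.Away s ≃+* B1) b u hL)
  have h4 : twP (b.comp ((e : Localization.Away s ≃+* B1) : Localization.Away s →+* B1)) u v
      (MvPolynomial.map (algebraMap A2 (Localization.Away s))
        (MvPolynomial.map (algebraMap A A2) f)) =
      twP b u v (MvPolynomial.map (algebraMap A B1) f) := by
    rw [MvPolynomial.map_map, twP_map, twP_map]
    have h5 : (b.comp ((e : Localization.Away s ≃+* B1) : Localization.Away s →+* B1)).comp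
        ((algebraMap A2 (Localization.Away s)).comp (algebraMap A A2)) =
        b.comp (algebraMap A B1) := by
      refine RingHom.ext fun a => ?_
      show b (e (algebraMap A2 (Localization.Away s) (algebraMap A A2 a))) =
        b (algebraMap A B1 a)
      rw [← IsScalarTower.algebraMap_apply A A2 (Localization.Away s), e.commutes]
    rw [h5]
  rw [h4] at h3
  exact h3

theorem thm_TWG (h1 : St_TM1) (h2 : St_TM2) (hF : St_SK4F) (hB : St_SK4B) (hV : St_LAU)
    (h5 : St_SK5) : St_TWG := by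
  intro A K _ _ _ _ _ _ hK n ρ v f hf hpar
  obtain ⟨u0, hu0, hu⟩ := TWG_cases n f hf
  obtain ⟨p, hp0, hp⟩ := exists_pid A K hK
  obtain ⟨hd1, hinj1⟩ := gen_dom (B := Localization.Away p) p hp0
  have hu1 : algebraMap A (Localization.Away p) u0 ≠ 0 := (map_ne_zero_iff _ hinj1).2 hu0
  obtain ⟨hd2, hinj2⟩ := gen_dom
    (B := Localization.Away (algebraMap A (Localization.Away p) u0)) _ hu1
  have hg1 : FinGn (Localization.Away p) := FinGn.of_pid (Localization.Away p)
  exact TWG_step h1 h2 hF hB hV h5 hK (A1 := Localization.Away p)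
    (A2 := Localization.Away (algebraMap A (Localization.Away p) u0)) p hp0 hg1 u0 hu0 n ρ v f hf
    hpar hu

end Pool.Agent.QTG
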