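import Pool.Agent.QTG.QC2
import Pool.Agent.QTG.SK0
import Pool.Agent.QTG.SKL
import Pool.Agent.QTG.SK1
import Pool.Agent.QTG.SK2
import Pool.Agent.QTG.SK3
import Pool.Agent.QTG.SK4F
import Pool.Agent.QTG.SK4S
import Pool.Agent.QTG.SK4B
import Pool.Agent.QTG.LAU
import Pool.Agent.QTG.SK5A
import Pool.Agent.QTG.SK5B
import Pool.Agent.QTG.SK5
import Pool.Agent.QTG.TM1
import Pool.Agent.QTG.TM2
import Pool.Agent.QTG.TWG
import Pool.Agent.QTG.QF2a
import Pool.Agent.TQF.StQ2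

/-!
# QTG: the chain of all modules
-/

set_option autoImplicit false

namespace Pool.Agent.QTG

theorem all_SK3 : St_SK3 := thm_SK3 thm_SK0 thm_SKL (thm_SK1 thm_SKL) thm_SK2

theorem all_SK5 : St_SK5 :=
  thm_SK5 all_SK3 thm_SK4F thm_SK4S thm_LAU (thm_SK5A thm_SK4F) thm_SK5B

theorem all_TWG : St_TWG :=
  thm_TWG thm_TM1 thm_TM2 thm_SK4F (thm_SK4B thm_SK4F) thm_LAU all_SK5

theorem all_QF2 : St_QF2 := thm_QF2a thm_QC2 all_TWG

/-- the twisted fibre theorem in the form of `Pool/Agent/TQF/StQ2.lean` -/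
theorem thm_QF2 : Pool.Agent.TQF.St_QF2 := all_QF2

end Pool.Agent.QTG
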