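import Mathlib

/-!
# QTG: choice of coset representatives
-/

set_option autoImplicit false
set_option linter.style.haveILetI false

namespace Pool.Agent.QTG

variable {ι : Type} [AddCommGroup ι]

/-- representatives of the cosets of `M`, symmetric with respect to `c ↦ γ - c` -/
theorem cos_sym (M : AddSubgroup ι) (γ : ι) (h2 : ∀ x : ι, 2 • x ∈ M → x ∈ M) :
    ∃ (γ' : ι) (r : ι ⧸ M → ι), (γ' : ι ⧸ M) = γ ∧ (∀ c, (r c : ι ⧸ M) = c) ∧ r 0 = 0 ∧
      ∀ c, r c + r ((γ : ι ⧸ M) - c) = γ' := by
  classical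
  let Q := ι ⧸ M
  letI : LinearOrder Q := linearOrderOfSTO (WellOrderingRel : Q → Q → Prop)
  have h2' : ∀ c c' : Q, c + c = γ → c' + c' = γ → c = c' := by
    intro c c' h h'
    obtain ⟨x, rfl⟩ := QuotientAddGroup.mk_surjective c
    obtain ⟨x', rfl⟩ := QuotientAddGroup.mk_surjective c'
    have h3 : ((2 • (x - x') : ι) : Q) = 0 := by
      rw [two_smul]
      have : (x - x') + (x - x') = (x + x) - (x' + x') := by abel
      rw [this]
      show ((x : Q) + x) - ((x' : Q) + x') = 0
      rw [h, h', sub_self]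
    have h4 := h2 _ ((QuotientAddGroup.eq_zero_iff _).1 h3)
    have h5 : ((x - x' : ι) : Q) = 0 := (QuotientAddGroup.eq_zero_iff _).2 h4
    exact sub_eq_zero.1 h5
  have hout : ∀ c : Q, ((Quotient.out c : ι) : Q) = c := fun c => Quotient.out_eq' c
  let γ' : ι := if (γ : Q) = 0 then 0 else
    if h : ∃ c : Q, c + c = γ then h.choose.out + h.choose.out else γ
  have hγ' : (γ' : Q) = γ := by
    by_cases h0 : (γ : Q) = 0
    · simp only [γ', if_pos h0, h0]; rfl
    · by_cases h : ∃ c : Q, c + c = γ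
      · have : γ' = h.choose.out + h.choose.out := by simp only [γ', if_neg h0, dif_pos h]
        rw [this]
        show ((h.choose.out : ι) : Q) + ((h.choose.out : ι) : Q) = γ
        rw [hout]
        exact h.choose_spec
      · simp only [γ', if_neg h0, dif_neg h]
  have hγ2 : ∀ c : Q, (γ : Q) ≠ 0 → c + c = γ → c.out + c.out = γ' := by
    intro c h0 hc
    have h : ∃ c : Q, c + c = γ := ⟨c, hc⟩
    have : γ' = h.choose.out + h.choose.out := by simp only [γ', if_neg h0, dif_pos h]
    rw [this, h2' c _ hc h.choose_spec]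
  let r : Q → ι := fun c => if c = 0 then 0 else if c = γ then γ' else if c + c = γ then c.out else
    if c < γ - c then c.out else γ' - (Quotient.out ((γ : Q) - c))
  have r0 : r 0 = 0 := by simp [r]
  have rγ : r γ = γ' := by
    by_cases h0 : (γ : Q) = 0
    · simp only [r, γ', if_pos h0]
    · simp only [r, if_neg h0, if_true]
  refine ⟨γ', r, hγ', ?_, r0, ?_⟩
  · intro c
    by_cases c0 : c = 0
    · subst c0; rw [r0]; rfl
    by_cases c1 : c = γ
    · subst c1; rw [rγ]; exact hγ'
    by_cases c2 : c + c = γ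
    · have : r c = c.out := by simp only [r, if_neg c0, if_neg c1, if_pos c2]
      rw [this]; exact hout c
    by_cases c3 : c < γ - c
    · have : r c = c.out := by simp only [r, if_neg c0, if_neg c1, if_neg c2, if_pos c3]
      rw [this]; exact hout c
    · have : r c = γ' - (Quotient.out ((γ : Q) - c)) := by
        simp only [r, if_neg c0, if_neg c1, if_neg c2, if_neg c3]
      rw [this]
      show (γ' : Q) - ((Quotient.out ((γ : Q) - c) : ι) : Q) = c
      rw [hγ', hout]; abel
  · intro c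
    by_cases c0 : c = 0
    · subst c0
      have : (γ : Q) - 0 = γ := sub_zero _
      rw [r0, zero_add]
      show r ((γ : Q) - 0) = γ'
      rw [this, rγ]
    by_cases c1 : c = γ
    · subst c1
      show r γ + r ((γ : Q) - γ) = γ'
      rw [sub_self, rγ, r0, add_zero]
    have h0 : (γ : Q) - c ≠ 0 := fun h => c1 (sub_eq_zero.1 h).symm
    have h1 : (γ : Q) - c ≠ γ := fun h => c0 (by
      have := sub_eq_self.1 h
      exact this)
    by_cases c2 : c + c = γ
    · have e : (γ : Q) - c = c := by rw [← c2]; abel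
      have : r c = c.out := by simp only [r, if_neg c0, if_neg c1, if_pos c2]
      show r c + r ((γ : Q) - c) = γ'
      rw [e, this]
      refine hγ2 c ?_ c2
      intro hγ0
      apply c0
      apply h2' c 0 c2
      rw [hγ0, add_zero]
    have c2' : ((γ : Q) - c) + ((γ : Q) - c) ≠ γ := by
      intro h
      apply c2
      have e : c + c = γ + γ - (((γ : Q) - c) + ((γ : Q) - c)) := by abel
      rw [e, h]; abel
    have e3 : (γ : Q) - ((γ : Q) - c) = c := by abel
    have hne : c ≠ (γ : Q) - c := by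
      intro h
      apply c2
      nth_rewrite 2 [h]
      abel
    by_cases c3 : c < (γ : Q) - c
    · have h4 : r c = c.out := by simp only [r, if_neg c0, if_neg c1, if_neg c2, if_pos c3]
      have h5 : r ((γ : Q) - c) = γ' - (Quotient.out ((γ : Q) - ((γ : Q) - c))) := by
        have c3' : ¬ ((γ : Q) - c < (γ : Q) - ((γ : Q) - c)) := by
          rw [e3]; exact not_lt.2 (le_of_lt c3)
        simp only [r, if_neg h0, if_neg h1, if_neg c2', if_neg c3']
      show r c + r ((γ : Q) - c) = γ'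
      rw [h4, h5, e3]; abel
    · have c3'' : (γ : Q) - c < c := lt_of_le_of_ne (not_lt.1 c3) (Ne.symm hne)
      have h4 : r c = γ' - (Quotient.out ((γ : Q) - c)) := by
        simp only [r, if_neg c0, if_neg c1, if_neg c2, if_neg c3]
      have h5 : r ((γ : Q) - c) = Quotient.out ((γ : Q) - c) := by
        have c3' : ((γ : Q) - c < (γ : Q) - ((γ : Q) - c)) := by
          rw [e3]; exact c3''
        simp only [r, if_neg h0, if_neg h1, if_neg c2', if_pos c3']
      show r c + r ((γ : Q) - c) = γ'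
      rw [h4, h5]; abel

/-- two systems of representatives -/
theorem cos_two (M : AddSubgroup ι) (γ : ι) :
    ∃ (γ' : ι) (r r' : ι ⧸ M → ι), (γ' : ι ⧸ M) = γ ∧ (∀ c, (r c : ι ⧸ M) = c) ∧
      (∀ c, (r' c : ι ⧸ M) = c) ∧ r 0 = 0 ∧ r' 0 = 0 ∧
      ∀ c, r c + r' ((γ : ι ⧸ M) - c) = γ' := by
  classical
  let Q := ι ⧸ M
  have hout : ∀ c : Q, ((Quotient.out c : ι) : Q) = c := fun c => Quotient.out_eq' c
  let γ' : ι := if (γ : Q) = 0 then 0 else γ
  have hγ' : (γ' : Q) = γ := by
    by_cases h0 : (γ : Q) = 0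
    · simp only [γ', if_pos h0, h0]; rfl
    · simp only [γ', if_neg h0]
  let r : Q → ι := fun c => if c = 0 then 0 else if c = γ then γ' else c.out
  have r0 : r 0 = 0 := by simp [r]
  have rγ : r γ = γ' := by
    by_cases h0 : (γ : Q) = 0
    · simp only [r, γ', if_pos h0]
    · simp only [r, if_neg h0, if_true]
  have hr : ∀ c, (r c : Q) = c := by
    intro c
    by_cases c0 : c = 0
    · subst c0; rw [r0]; rfl
    by_cases c1 : c = γ
    · subst c1; rw [rγ]; exact hγ'
    · have : r c = c.out := by simp only [r, if_neg c0, if_neg c1]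
      rw [this]; exact hout c
  refine ⟨γ', r, fun c => γ' - r ((γ : Q) - c), hγ', hr, ?_, r0, ?_, ?_⟩
  · intro c
    show (γ' : Q) - (r ((γ : Q) - c) : Q) = c
    rw [hγ', hr]; abel
  · show γ' - r ((γ : Q) - 0) = 0
    have : (γ : Q) - 0 = γ := sub_zero _
    rw [this, rγ, sub_self]
  · intro c
    show r c + (γ' - r ((γ : Q) - ((γ : Q) - c))) = γ'
    have : (γ : Q) - ((γ : Q) - c) = c := by abel
    rw [this]; abel

/-- exponents of degree at most two -/
theorem exp_le_two {n : ℕ} (d : Fin n →₀ ℕ) (hd : d.degree ≤ 2) :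
    d = 0 ∨ (∃ i, d = Finsupp.single i 1) ∨
      ∃ i j, d = Finsupp.single i 1 + Finsupp.single j 1 := by
  classical
  by_cases h0 : d = 0
  · exact Or.inl h0
  obtain ⟨i, hi⟩ : ∃ i, d i ≠ 0 := by
    by_contra h
    push Not at h
    exact h0 (Finsupp.ext h)
  have h1 : Finsupp.single i 1 ≤ d := by
    rw [Finsupp.single_le_iff]; omega
  obtain ⟨e, he⟩ := exists_add_of_le h1
  have hde : d.degree = 1 + e.degree := by
    rw [he, map_add, Finsupp.degree_single]
  by_cases he0 : e = 0
  · right; left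
    exact ⟨i, by rw [he, he0, add_zero]⟩
  obtain ⟨j, hj⟩ : ∃ j, e j ≠ 0 := by
    by_contra h
    push Not at h
    exact he0 (Finsupp.ext h)
  have h2 : Finsupp.single j 1 ≤ e := by
    rw [Finsupp.single_le_iff]; omega
  obtain ⟨e', he'⟩ := exists_add_of_le h2
  have hde' : e.degree = 1 + e'.degree := by
    rw [he', map_add, Finsupp.degree_single]
  have h3 : e' = 0 := by
    rw [← Finsupp.degree_eq_zero_iff]; omega
  right; right
  exact ⟨i, j, by rw [he, he', h3, add_zero]⟩

/-- after a change of the weights by elements of `M` the coefficients have degree zero -/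
theorem untw_sym (M : AddSubgroup ι) {n : ℕ} (w : Fin n → ι) (γ : ι)
    (h2 : ∀ x : ι, 2 • x ∈ M → x ∈ M) (S : Set (Fin n →₀ ℕ)) (hS : ∀ d ∈ S, d.degree ≤ 2)
    (hM : ∀ d ∈ S, γ - ∑ i, d i • w i ∈ M) :
    ∃ (x : Fin n → ι) (x0 : ι), (∀ i, x i ∈ M) ∧ x0 ∈ M ∧
      ∀ d ∈ S, γ - ∑ i, d i • w i = x0 - ∑ i, d i • x i := by
  classical
  obtain ⟨γ', r, hγ', hr, hr0, hrr⟩ := cos_sym M γ h2
  have hx : ∀ i, w i - r (w i : ι ⧸ M) ∈ M := by
    intro i
    rw [← QuotientAddGroup.eq_zero_iff]
    show (w i : ι ⧸ M) - (r (w i : ι ⧸ M) : ι ⧸ M) = 0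
    rw [hr, sub_self]
  have hx0 : γ - γ' ∈ M := by
    rw [← QuotientAddGroup.eq_zero_iff]
    show (γ : ι ⧸ M) - (γ' : ι ⧸ M) = 0
    rw [hγ', sub_self]
  refine ⟨fun i => w i - r (w i : ι ⧸ M), γ - γ', hx, hx0, ?_⟩
  intro d hd
  have key : γ' = ∑ i, d i • r (w i : ι ⧸ M) := by
    have h1 := hM d hd
    have h1' : (γ : ι ⧸ M) = ∑ i, d i • (w i : ι ⧸ M) := by
      rw [← sub_eq_zero]
      have := (QuotientAddGroup.eq_zero_iff _).2 h1
      rw [← this]
      show (γ : ι ⧸ M) - _ = QuotientAddGroup.mk' M (γ - ∑ i, d i • w i)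
      rw [map_sub, map_sum]
      rfl
    rcases exp_le_two d (hS d hd) with rfl | ⟨i, rfl⟩ | ⟨i, j, rfl⟩
    · simp only [Finsupp.coe_zero, Pi.zero_apply, zero_smul, Finset.sum_const_zero] at h1' ⊢
      have := hrr 0
      rw [h1', sub_zero, hr0, add_zero] at this
      exact this.symm
    · have e : ∀ (G : Type) [AddCommGroup G] (v : Fin n → G),
          ∑ k, (Finsupp.single i 1 : Fin n →₀ ℕ) k • v k = v i := by
        intro G _ v
        rw [Finset.sum_eq_single i]
        · simp
        · intro k _ hk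
          rw [Finsupp.single_eq_of_ne hk, zero_smul]
        · intro h; exact absurd (Finset.mem_univ i) h
      rw [e] at h1' ⊢
      have := hrr 0
      rw [hr0, zero_add, sub_zero, h1'] at this
      exact this.symm
    · have e : ∀ (G : Type) [AddCommGroup G] (v : Fin n → G),
          ∑ k, (Finsupp.single i 1 + Finsupp.single j 1 : Fin n →₀ ℕ) k • v k = v i + v j := by
        intro G _ v
        simp only [Finsupp.coe_add, Pi.add_apply, add_smul, Finset.sum_add_distrib]
        have e1 : ∀ i : Fin n, ∑ k, (Finsupp.single i 1 : Fin n →₀ ℕ) k • v k = v i := by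
          intro i
          rw [Finset.sum_eq_single i]
          · simp
          · intro k _ hk
            rw [Finsupp.single_eq_of_ne hk, zero_smul]
          · intro h; exact absurd (Finset.mem_univ i) h
        rw [e1, e1]
      rw [e] at h1' ⊢
      have := hrr (w i : ι ⧸ M)
      have e3 : (γ : ι ⧸ M) - (w i : ι ⧸ M) = (w j : ι ⧸ M) := by rw [h1']; abel
      rw [e3] at this
      exact this.symm
  simp only [smul_sub, Finset.sum_sub_distrib]
  rw [← key]; abel

/-- the same in the bilinear case -/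
theorem untw_bil (M : AddSubgroup ι) {n : ℕ} (w : Fin n → ι) (γ : ι) (σ : Set (Fin n))
    (S : Set (Fin n →₀ ℕ)) (hS : ∀ d ∈ S, d.degree ≤ 2)
    (hσ : ∀ i j, Finsupp.single i 1 + Finsupp.single j 1 ∈ S → (i ∈ σ ↔ j ∉ σ))
    (hM : ∀ d ∈ S, γ - ∑ i, d i • w i ∈ M) :
    ∃ (x : Fin n → ι) (x0 : ι), (∀ i, x i ∈ M) ∧ x0 ∈ M ∧
      ∀ d ∈ S, γ - ∑ i, d i • w i = x0 - ∑ i, d i • x i := by
  classical
  obtain ⟨γ', r, r', hγ', hr, hr', hr0, hr0', hrr⟩ := cos_two M γ
  have hrr2 : ∀ c, r' c + r ((γ : ι ⧸ M) - c) = γ' := by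
    intro c
    have := hrr ((γ : ι ⧸ M) - c)
    have e : (γ : ι ⧸ M) - ((γ : ι ⧸ M) - c) = c := by abel
    rw [e] at this
    rw [add_comm]; exact this
  let w' : Fin n → ι := fun i => if i ∈ σ then r (w i : ι ⧸ M) else r' (w i : ι ⧸ M)
  have hw'1 : ∀ i, i ∈ σ → w' i = r (w i : ι ⧸ M) := fun i hi => if_pos hi
  have hw'2 : ∀ i, i ∉ σ → w' i = r' (w i : ι ⧸ M) := fun i hi => if_neg hi
  have hw' : ∀ i, (w' i : ι ⧸ M) = w i := by
    intro i
    by_cases hi : i ∈ σ
    · rw [hw'1 i hi, hr]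
    · rw [hw'2 i hi, hr']
  have hx : ∀ i, w i - w' i ∈ M := by
    intro i
    rw [← QuotientAddGroup.eq_zero_iff]
    show (w i : ι ⧸ M) - (w' i : ι ⧸ M) = 0
    rw [hw', sub_self]
  have hx0 : γ - γ' ∈ M := by
    rw [← QuotientAddGroup.eq_zero_iff]
    show (γ : ι ⧸ M) - (γ' : ι ⧸ M) = 0
    rw [hγ', sub_self]
  refine ⟨fun i => w i - w' i, γ - γ', hx, hx0, ?_⟩
  intro d hd
  have key : γ' = ∑ i, d i • w' i := by
    have h1 := hM d hd
    have h1' : (γ : ι ⧸ M) = ∑ i, d i • (w i : ι ⧸ M) := by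
      rw [← sub_eq_zero]
      have := (QuotientAddGroup.eq_zero_iff _).2 h1
      rw [← this]
      show (γ : ι ⧸ M) - _ = QuotientAddGroup.mk' M (γ - ∑ i, d i • w i)
      rw [map_sub, map_sum]
      rfl
    have e1 : ∀ (G : Type) [AddCommGroup G] (v : Fin n → G) (i : Fin n),
        ∑ k, (Finsupp.single i 1 : Fin n →₀ ℕ) k • v k = v i := by
      intro G _ v i
      rw [Finset.sum_eq_single i]
      · simp
      · intro k _ hk
        rw [Finsupp.single_eq_of_ne hk, zero_smul]
      · intro h; exact absurd (Finset.mem_univ i) h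
    rcases exp_le_two d (hS d hd) with rfl | ⟨i, rfl⟩ | ⟨i, j, rfl⟩
    · simp only [Finsupp.coe_zero, Pi.zero_apply, zero_smul, Finset.sum_const_zero] at h1' ⊢
      have := hrr 0
      rw [h1', sub_zero, hr0, hr0', add_zero] at this
      exact this.symm
    · rw [e1] at h1' ⊢
      by_cases hi : i ∈ σ
      · have := hrr2 0
        rw [hr0', zero_add, sub_zero, h1'] at this
        rw [hw'1 i hi]; exact this.symm
      · have := hrr 0
        rw [hr0, zero_add, sub_zero, h1'] at this
        rw [hw'2 i hi]; exact this.symm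
    · have e : ∀ (G : Type) [AddCommGroup G] (v : Fin n → G),
          ∑ k, (Finsupp.single i 1 + Finsupp.single j 1 : Fin n →₀ ℕ) k • v k = v i + v j := by
        intro G _ v
        simp only [Finsupp.coe_add, Pi.add_apply, add_smul, Finset.sum_add_distrib]
        rw [e1, e1]
      rw [e] at h1' ⊢
      have e3 : (γ : ι ⧸ M) - (w i : ι ⧸ M) = (w j : ι ⧸ M) := by rw [h1']; abel
      have hij := hσ i j hd
      by_cases hi : i ∈ σ
      · have := hrr (w i : ι ⧸ M)
        rw [e3] at this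
        rw [hw'1 i hi, hw'2 j (hij.1 hi)]; exact this.symm
      · have hj : j ∈ σ := by
          by_contra hj
          exact hi (hij.2 hj)
        have := hrr2 (w i : ι ⧸ M)
        rw [e3] at this
        rw [hw'2 i hi, hw'1 j hj]; exact this.symm
  simp only [smul_sub, Finset.sum_sub_distrib]
  rw [← key]; abel

end Pool.Agent.QTG
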