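import Pool.Agent.Helper67.Bass.Lin

/-!
# QTG: elimination in systems of linear equations with constant terms
-/

set_option autoImplicit false
set_option linter.style.haveILetI false
set_option linter.unusedSectionVars false

namespace Pool.Agent.QTG

open Function MvPolynomial Pool.Agent.Helper11 Pool.Agent.Helper67.Bass

section pivot

variable {A : Type} [CommRing A]

/-- the ideal generated by `I` and the linear equations `ε k + ∑ φ k j X_j` -/
noncomputable def LE {κ σ : Type} [Fintype σ] (I : Ideal A) (φ : κ → σ → A) (ε : κ → A) :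
    Ideal (MvPolynomial σ A) :=
  I.map C ⊔ Ideal.span (Set.range fun k => C (ε k) + ∑ j, C (φ k j) * X j)

theorem LE_zero {κ σ : Type} [Fintype σ] (I : Ideal A) (φ : κ → σ → A) (ε : κ → A)
    (h : ∀ k j, φ k j ∈ I) : LE I φ ε = (I ⊔ Ideal.span (Set.range ε)).map C := by
  unfold LE
  rw [Ideal.map_sup, Ideal.map_span]
  have key : ∀ k, ∑ j, C (φ k j) * X j ∈ I.map (C : A →+* MvPolynomial σ A) := fun k =>
    Ideal.sum_mem _ (fun j _ => Ideal.mul_mem_right _ _ (Ideal.mem_map_of_mem C (h k j)))
  apply le_antisymm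
  · rw [sup_le_iff]
    refine ⟨le_sup_left, ?_⟩
    rw [Ideal.span_le]
    rintro _ ⟨k, rfl⟩
    exact add_mem (Ideal.mem_sup_right (Ideal.subset_span ⟨_, ⟨k, rfl⟩, rfl⟩))
      (Ideal.mem_sup_left (key k))
  · rw [sup_le_iff]
    refine ⟨le_sup_left, ?_⟩
    rw [Ideal.span_le]
    rintro _ ⟨_, ⟨k, rfl⟩, rfl⟩
    have : C (ε k) = (C (ε k) + ∑ j, C (φ k j) * X j) - ∑ j, C (φ k j) * X j := by
      rw [add_sub_cancel_right]
    rw [SetLike.mem_coe, this]
    exact sub_mem (Ideal.mem_sup_right (Ideal.subset_span ⟨k, rfl⟩)) (Ideal.mem_sup_left (key k))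

theorem finGn_LE_zero [IsNoetherianRing A] {κ σ : Type} [Fintype σ] (I : Ideal A) (φ : κ → σ → A)
    (ε : κ → A) (h : ∀ k j, φ k j ∈ I) (hI : FinGn (A ⧸ (I ⊔ Ideal.span (Set.range ε)))) :
    FinGn (MvPolynomial σ A ⧸ LE I φ ε) := by
  rw [LE_zero I φ ε h]
  exact FinGn.of_equiv (quotientEquivQuotientMvPolynomial (σ := σ)
    (I ⊔ Ideal.span (Set.range ε))).toRingEquiv (hI.mvPolynomial σ)

variable {κ σ : Type} [Fintype σ] [DecidableEq σ]

/-- elimination of one variable -/
def elm (φ : κ → σ → A) (k0 : κ) (j0 : σ) : κ → {l : σ // l ≠ j0} → A :=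
  fun k l => φ k0 j0 * φ k l - φ k j0 * φ k0 l

/-- elimination of one variable, constant terms -/
def elc (φ : κ → σ → A) (ε : κ → A) (k0 : κ) (j0 : σ) : κ → A :=
  fun k => φ k0 j0 * ε k - φ k j0 * ε k0

theorem finGn_LE_pivot [IsNoetherianRing A] (I : Ideal A) (φ : κ → σ → A) (ε : κ → A) (k0 : κ)
    (j0 : σ) (h1 : FinGn (MvPolynomial σ A ⧸ LE (I ⊔ Ideal.span {φ k0 j0}) φ ε))
    (h2 : FinGn (MvPolynomial {l : σ // l ≠ j0} A ⧸ LE I (elm φ k0 j0) (elc φ ε k0 j0))) :
    FinGn (MvPolynomial σ A ⧸ LE I φ ε) := by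
  classical
  set s := φ k0 j0 with hs
  set S := {l : σ // l ≠ j0} with hS
  set T := MvPolynomial σ A ⧸ LE I φ ε with hT
  set T' := MvPolynomial S A ⧸ LE I (elm φ k0 j0) (elc φ ε k0 j0) with hT'
  let mk : MvPolynomial σ A →+* T := Ideal.Quotient.mk _
  let mk' : MvPolynomial S A →+* T' := Ideal.Quotient.mk _
  have hrow : ∀ k, mk (C (ε k) + ∑ j, C (φ k j) * X j) = 0 := fun k =>
    Ideal.Quotient.eq_zero_iff_mem.2 (Ideal.mem_sup_right (Ideal.subset_span ⟨k, rfl⟩))
  have hrow' : ∀ k, mk' (C (elc φ ε k0 j0 k) + ∑ l, C (elm φ k0 j0 k l) * X l) = 0 := fun k =>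
    Ideal.Quotient.eq_zero_iff_mem.2 (Ideal.mem_sup_right (Ideal.subset_span ⟨k, rfl⟩))
  have hIk : ∀ a ∈ I, mk (C a) = 0 := fun a ha =>
    Ideal.Quotient.eq_zero_iff_mem.2 (Ideal.mem_sup_left (Ideal.mem_map_of_mem C ha))
  have hIk' : ∀ a ∈ I, mk' (C a) = 0 := fun a ha =>
    Ideal.Quotient.eq_zero_iff_mem.2 (Ideal.mem_sup_left (Ideal.mem_map_of_mem C ha))
  have hsplit : ∀ (B : Type) [AddCommMonoid B] (f : σ → B),
      ∑ j, f j = f j0 + ∑ l : S, f l := by
    intro B _ f
    rw [← Finset.add_sum_erase Finset.univ f (Finset.mem_univ j0)]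
    congr 1
    rw [Finset.sum_subtype (Finset.univ.erase j0) (p := fun l => l ≠ j0) (by simp) f]
  -- the map `g`
  let g0 : MvPolynomial S A →+* T := mk.comp (rename (Subtype.val : S → σ)).toRingHom
  have hg0C : ∀ a, g0 (C a) = mk (C a) := fun a => by
    show mk (rename Subtype.val (C a)) = _
    rw [rename_C]
  have hg0X : ∀ l : S, g0 (X l) = mk (X l.1) := fun l => by
    show mk (rename Subtype.val (X l)) = _
    rw [rename_X]
  have hg0ker : LE I (elm φ k0 j0) (elc φ ε k0 j0) ≤ RingHom.ker g0 := by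
    unfold LE
    rw [sup_le_iff]
    constructor
    · rw [Ideal.map_le_iff_le_comap]
      intro a ha
      show g0 (C a) = 0
      rw [hg0C, hIk a ha]
    · rw [Ideal.span_le]
      rintro _ ⟨k, rfl⟩
      show g0 (C (elc φ ε k0 j0 k) + ∑ l, C (elm φ k0 j0 k l) * X l) = 0
      rw [map_add, map_sum, hg0C]
      have e1 : ∀ l : S, g0 (C (elm φ k0 j0 k l) * X l) =
          mk (C s) * mk (C (φ k l) * X l.1) - mk (C (φ k j0)) * mk (C (φ k0 l) * X l.1) := by
        intro l
        rw [map_mul, hg0C, hg0X, elm]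
        simp only [map_sub, map_mul]
        ring
      have e0 : mk (C (elc φ ε k0 j0 k)) = mk (C s) * mk (C (ε k)) -
          mk (C (φ k j0)) * mk (C (ε k0)) := by
        rw [elc]
        simp only [map_sub, map_mul]
        rfl
      rw [Finset.sum_congr rfl (fun l _ => e1 l), Finset.sum_sub_distrib, ← Finset.mul_sum,
        ← Finset.mul_sum, e0]
      have e2 := hrow k
      have e3 := hrow k0
      rw [map_add, map_sum, hsplit] at e2 e3
      have e4 : ∑ l : S, mk (C (φ k l) * X l.1) = - mk (C (φ k j0) * X j0) - mk (C (ε k)) := by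
        linear_combination e2
      have e5 : ∑ l : S, mk (C (φ k0 l) * X l.1) = - mk (C (φ k0 j0) * X j0) - mk (C (ε k0)) := by
        linear_combination e3
      rw [e4, e5, map_mul, map_mul]
      ring
  let g : T' →+* T := Ideal.Quotient.lift _ g0 hg0ker
  have hgC : ∀ a, g (mk' (C a)) = mk (C a) := fun a =>
    (Ideal.Quotient.lift_mk _ _ _).trans (hg0C a)
  have hgX : ∀ l : S, g (mk' (X l)) = mk (X l.1) := fun l =>
    (Ideal.Quotient.lift_mk _ _ _).trans (hg0X l)
  -- the retraction after inverting `s`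
  let L := Localization.Away (mk' (C s))
  let al : T' →+* L := algebraMap T' L
  have hunit : IsUnit (al (mk' (C s))) := IsLocalization.Away.algebraMap_isUnit _
  obtain ⟨w, hw⟩ := isUnit_iff_exists_inv.1 hunit
  let v : σ → L := fun j => if h : j = j0 then
    - w * (al (mk' (C (ε k0))) + ∑ l : S, al (mk' (C (φ k0 l) * X l)))
    else al (mk' (X ⟨j, h⟩))
  have hv0 : v j0 = - w * (al (mk' (C (ε k0))) + ∑ l : S, al (mk' (C (φ k0 l) * X l))) := by
    simp [v]
  have hvl : ∀ l : S, v l = al (mk' (X l)) := by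
    rintro ⟨l, hl⟩
    simp [v, hl]
  let h0 : MvPolynomial σ A →+* L := eval₂Hom ((al.comp mk').comp C) v
  have hh0C : ∀ a, h0 (C a) = al (mk' (C a)) := fun a => by
    simp [h0]
  have hh0X : ∀ j, h0 (X j) = v j := fun j => by simp [h0]
  have hh0ker : LE I φ ε ≤ RingHom.ker h0 := by
    unfold LE
    rw [sup_le_iff]
    constructor
    · rw [Ideal.map_le_iff_le_comap]
      intro a ha
      show h0 (C a) = 0
      rw [hh0C, hIk' a ha, map_zero]
    · rw [Ideal.span_le]
      rintro _ ⟨k, rfl⟩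
      show h0 (C (ε k) + ∑ j, C (φ k j) * X j) = 0
      rw [map_add, map_sum, hsplit, map_mul, hh0C, hh0C, hh0X, hv0]
      have e1 : ∀ l : S, h0 (C (φ k l) * X l.1) = al (mk' (C (φ k l) * X l)) := by
        intro l
        rw [map_mul, hh0C, hh0X, hvl, map_mul, map_mul]
      rw [Finset.sum_congr rfl (fun l _ => e1 l)]
      have e2 := congrArg al (hrow' k)
      rw [map_add, map_add, map_sum, map_sum, map_zero] at e2
      have e3 : ∀ l : S, al (mk' (C (elm φ k0 j0 k l) * X l)) =
          al (mk' (C s)) * al (mk' (C (φ k l) * X l)) -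
          al (mk' (C (φ k j0))) * al (mk' (C (φ k0 l) * X l)) := by
        intro l
        rw [elm]
        simp only [map_sub, map_mul]
        ring
      have e0 : al (mk' (C (elc φ ε k0 j0 k))) = al (mk' (C s)) * al (mk' (C (ε k))) -
          al (mk' (C (φ k j0))) * al (mk' (C (ε k0))) := by
        rw [elc]
        simp only [map_sub, map_mul]
        rfl
      rw [Finset.sum_congr rfl (fun l _ => e3 l), Finset.sum_sub_distrib, ← Finset.mul_sum,
        ← Finset.mul_sum, e0] at e2
      apply hunit.mul_left_cancel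
      rw [mul_zero]
      linear_combination e2 - (al (mk' (C (φ k j0))) *
        (al (mk' (C (ε k0))) + ∑ l : S, al (mk' (C (φ k0 l) * X l)))) * hw
  let hh : T →+* L := Ideal.Quotient.lift _ h0 hh0ker
  have hhg : hh.comp g = al := by
    apply Ideal.Quotient.ringHom_ext
    apply MvPolynomial.ringHom_ext
    · intro a
      show hh (g (mk' (C a))) = al (mk' (C a))
      rw [hgC]
      exact (Ideal.Quotient.lift_mk _ _ _).trans (hh0C a)
    · intro l
      show hh (g (mk' (X l))) = al (mk' (X l))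
      rw [hgX]
      exact (Ideal.Quotient.lift_mk _ _ _).trans ((hh0X l.1).trans (hvl l))
  -- the two conditions
  have c2 : ∀ t' : T', g t' = 0 → ∃ m : ℕ, (mk' (C s)) ^ m * t' = 0 := by
    intro t' ht'
    have h3 : al t' = 0 := by rw [← hhg, RingHom.comp_apply, ht', map_zero]
    obtain ⟨⟨_, m, rfl⟩, hm⟩ := (IsLocalization.map_eq_zero_iff
      (Submonoid.powers (mk' (C s))) L t').1 h3
    exact ⟨m, hm⟩
  have c1 : ∀ t : T, ∃ (m : ℕ) (t' : T'), (mk (C s)) ^ m * t = g t' := by
    intro t
    obtain ⟨f, rfl⟩ := Ideal.Quotient.mk_surjective t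
    show ∃ (m : ℕ) (t' : T'), (mk (C s)) ^ m * mk f = g t'
    induction f using MvPolynomial.induction_on with
    | C a => exact ⟨0, mk' (C a), by rw [pow_zero, one_mul, hgC]⟩
    | add p q hp hq =>
      obtain ⟨m, t, ht⟩ := hp
      obtain ⟨n, r, hr⟩ := hq
      refine ⟨m + n, (mk' (C s)) ^ n * t + (mk' (C s)) ^ m * r, ?_⟩
      rw [map_add, map_add, map_mul, map_mul, map_pow, map_pow, hgC, ← ht, ← hr]
      ring
    | mul_X p j hp =>
      obtain ⟨m, t, ht⟩ := hp
      by_cases hj : j = j0
      · subst hj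
        refine ⟨m + 1, t * mk' (- (C (ε k0) + ∑ l : S, C (φ k0 l) * X l)), ?_⟩
        have e3 := hrow k0
        rw [map_add, map_sum, hsplit] at e3
        have e4 : g (mk' (C (ε k0) + ∑ l : S, C (φ k0 l) * X l)) =
            mk (C (ε k0)) + ∑ l : S, mk (C (φ k0 l) * X l.1) := by
          rw [map_add, map_add, hgC, map_sum, map_sum]
          congr 1
          refine Finset.sum_congr rfl (fun l _ => ?_)
          rw [map_mul, map_mul, hgC, hgX, map_mul]
        have e5 : mk (C (φ k0 j) * X j) = mk (C s) * mk (X j) := map_mul _ _ _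
        have e6 : mk (p * X j) = mk p * mk (X j) := map_mul _ _ _
        rw [e5] at e3
        rw [map_mul g, map_neg, map_neg, e4, ← ht, e6]
        linear_combination (mk (C s) ^ m * mk p) * e3
      · refine ⟨m, t * mk' (X ⟨j, hj⟩), ?_⟩
        rw [map_mul, map_mul, hgX, ← ht]
        ring
  refine FinGn.of_away (s := mk (C s)) (V := Localization.Away (mk (C s))) ?_
    (finGn_of_almost_iso g (mk' (C s)) (mk (C s)) (hgC s) c1 c2 h2)
  have e1 : Ideal.span {mk (C s)} = (Ideal.span {C s}).map mk := by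
    rw [Ideal.map_span, Set.image_singleton]
  rw [e1]
  refine FinGn.of_equiv (DoubleQuot.quotQuotEquivQuotSup (LE I φ ε) (Ideal.span {C s})).symm ?_
  have e2 : LE I φ ε ⊔ Ideal.span {C s} = LE (I ⊔ Ideal.span {s}) φ ε := by
    unfold LE
    rw [Ideal.map_sup, Ideal.map_span, Set.image_singleton]
    ac_rfl
  rw [e2]
  exact h1

end pivot

theorem finGn_quot_unit {A : Type} [CommRing A] (I : Ideal A) (a : A) (ha : IsUnit a)
    (haI : a ∈ I) : FinGn (A ⧸ I) := by
  rw [Ideal.eq_top_of_isUnit_mem I haI ha]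
  haveI : Subsingleton (A ⧸ (⊤ : Ideal A)) := Ideal.Quotient.subsingleton_iff.2 rfl
  exact FinGn.of_subsingleton _

/-- generic linear systems -/
theorem generic_linear (n : ℕ) : ∀ (σ : Type) [Fintype σ] [DecidableEq σ], Fintype.card σ = n →
    ∀ (B : Type) [CommRing B] [IsDomain B] (κ : Type) (φ : κ → σ → B) (ε : κ → B),
      ∃ s : B, s ≠ 0 ∧ ∀ (B' : Type) [CommRing B'] [IsNoetherianRing B'] (g : B →+* B'),
        IsUnit (g s) → FinGn B' →
        FinGn (MvPolynomial σ B' ⧸ LE ⊥ (fun k j => g (φ k j)) (fun k => g (ε k))) := by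
  induction n with
  | zero =>
    intro σ _ _ hσ B _ _ κ φ ε
    have : IsEmpty σ := Fintype.card_eq_zero_iff.1 hσ
    by_cases h : ∀ k, ε k = 0
    · refine ⟨1, one_ne_zero, ?_⟩
      intro B' _ _ g _ hB'
      apply finGn_LE_zero _ _ _ (fun k j => isEmptyElim j)
      have : (⊥ ⊔ Ideal.span (Set.range fun k => g (ε k)) : Ideal B') = ⊥ := by
        rw [bot_sup_eq, Ideal.span_eq_bot]
        rintro _ ⟨k, rfl⟩
        show g (ε k) = 0
        rw [h k, map_zero]
      rw [this]
      exact FinGn.of_equiv (RingEquiv.quotientBot B').symm hB'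
    · push Not at h
      obtain ⟨k, hk⟩ := h
      refine ⟨ε k, hk, ?_⟩
      intro B' _ _ g hg hB'
      apply finGn_LE_zero _ _ _ (fun k j => isEmptyElim j)
      exact finGn_quot_unit _ (g (ε k)) hg (Ideal.mem_sup_right (Ideal.subset_span ⟨k, rfl⟩))
  | succ n ih =>
    intro σ _ _ hσ B _ _ κ φ ε
    by_cases hφ : ∀ k j, φ k j = 0
    · by_cases h : ∀ k, ε k = 0
      · refine ⟨1, one_ne_zero, ?_⟩
        intro B' _ _ g _ hB'
        apply finGn_LE_zero _ _ _ (fun k j => by
          show g (φ k j) ∈ _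
          rw [hφ k j, map_zero]; exact zero_mem _)
        have : (⊥ ⊔ Ideal.span (Set.range fun k => g (ε k)) : Ideal B') = ⊥ := by
          rw [bot_sup_eq, Ideal.span_eq_bot]
          rintro _ ⟨k, rfl⟩
          show g (ε k) = 0
          rw [h k, map_zero]
        rw [this]
        exact FinGn.of_equiv (RingEquiv.quotientBot B').symm hB'
      · push Not at h
        obtain ⟨k, hk⟩ := h
        refine ⟨ε k, hk, ?_⟩
        intro B' _ _ g hg hB'
        apply finGn_LE_zero _ _ _ (fun k j => by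
          show g (φ k j) ∈ _
          rw [hφ k j, map_zero]; exact zero_mem _)
        exact finGn_quot_unit _ (g (ε k)) hg (Ideal.mem_sup_right (Ideal.subset_span ⟨k, rfl⟩))
    · push Not at hφ
      obtain ⟨k0, j0, hkj⟩ := hφ
      have hcard : Fintype.card {l : σ // l ≠ j0} = n := by
        rw [Fintype.card_subtype_compl, Fintype.card_subtype_eq, hσ]; rfl
      obtain ⟨s, hs, H⟩ := ih {l : σ // l ≠ j0} hcard B κ (elm φ k0 j0) (elc φ ε k0 j0)
      refine ⟨φ k0 j0 * s, mul_ne_zero hkj hs, ?_⟩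
      intro B' _ _ g hg hB'
      rw [map_mul] at hg
      have hg1 := isUnit_of_mul_isUnit_left hg
      have hg2 := isUnit_of_mul_isUnit_right hg
      refine finGn_LE_pivot ⊥ _ _ k0 j0 ?_ ?_
      · apply finGn_quot_unit _ (C (g (φ k0 j0))) (hg1.map C)
        exact Ideal.mem_sup_left (Ideal.mem_map_of_mem C
          (Ideal.mem_sup_right (Ideal.mem_span_singleton_self _)))
      · have := H B' g hg2 hB'
        have e1 : (fun k j => g (elm φ k0 j0 k j)) =
            elm (fun k j => g (φ k j)) k0 j0 := by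
          funext k j
          unfold elm
          rw [map_sub, map_mul, map_mul]
        have e2 : (fun k => g (elc φ ε k0 j0 k)) =
            elc (fun k j => g (φ k j)) (fun k => g (ε k)) k0 j0 := by
          funext k
          unfold elc
          rw [map_sub, map_mul, map_mul]
        rwa [e1, e2] at this

/-- a hypersurface of degree one over `R` -/
theorem finGn_row {R : Type} [CommRing R] [IsNoetherianRing R] {κ : Type} [Fintype κ]
    [DecidableEq κ] (L : κ → R) (ε : R)
    (h1 : ∀ S : Finset κ, FinGn (R ⧸ Ideal.span (L '' S)))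
    (h2 : FinGn (R ⧸ (Ideal.span (Set.range L) ⊔ Ideal.span {ε}))) :
    FinGn (MvPolynomial κ R ⧸ Ideal.span {C ε + ∑ k, C (L k) * X k}) := by
  classical
  let ψ : Unit → κ → R := fun _ k => L k
  let ε' : Unit → R := fun _ => ε
  let J : Finset κ → Ideal R := fun S => Ideal.span (L '' S)
  have key : ∀ (n : ℕ) (S : Finset κ), (Finset.univ \ S).card = n →
      FinGn (MvPolynomial κ R ⧸ LE (J S) ψ ε') := by
    intro n
    induction n with
    | zero =>
      intro S hS
      have hS' : ∀ k, k ∈ S := by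
        intro k
        rw [Finset.card_eq_zero, Finset.sdiff_eq_empty_iff_subset] at hS
        exact hS (Finset.mem_univ k)
      apply finGn_LE_zero (J S) ψ ε' (fun _ k => Ideal.subset_span ⟨k, hS' k, rfl⟩)
      have e1 : J S = Ideal.span (Set.range L) := by
        show Ideal.span (L '' S) = _
        congr 1
        ext x
        constructor
        · rintro ⟨k, _, rfl⟩; exact ⟨k, rfl⟩
        · rintro ⟨k, rfl⟩; exact ⟨k, hS' k, rfl⟩
      have e2 : Set.range ε' = {ε} := by
        ext x
        constructor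
        · rintro ⟨_, rfl⟩; rfl
        · rintro rfl; exact ⟨(), rfl⟩
      rw [e1, e2]
      exact h2
    | succ n ih =>
      intro S hS
      obtain ⟨k0, hk0⟩ : ∃ k0, k0 ∈ Finset.univ \ S := by
        rw [← Finset.Nonempty, ← Finset.card_pos, hS]; omega
      have hk0S : k0 ∉ S := (Finset.mem_sdiff.1 hk0).2
      apply finGn_LE_pivot (J S) ψ ε' () k0
      · have e : J S ⊔ Ideal.span {ψ () k0} = J (insert k0 S) := by
          show Ideal.span _ ⊔ Ideal.span {L k0} = Ideal.span (L '' ((insert k0 S : Finset κ)))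
          rw [Finset.coe_insert, Set.image_insert_eq, Ideal.span_insert,
            sup_comm (Ideal.span {L k0})]
        rw [e]
        apply ih
        have : (Finset.univ \ insert k0 S) = (Finset.univ \ S).erase k0 := by
          ext x; simp only [Finset.mem_sdiff, Finset.mem_univ, Finset.mem_insert,
            Finset.mem_erase, true_and]; tauto
        rw [this, Finset.card_erase_of_mem hk0, hS]; rfl
      · apply finGn_LE_zero
        · intro _ l
          have : elm ψ () k0 () l = 0 := by unfold elm; ring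
          rw [this]; exact zero_mem _
        · have : Ideal.span (Set.range (elc ψ ε' () k0)) = ⊥ := by
            rw [Ideal.span_eq_bot]
            rintro _ ⟨k, rfl⟩
            unfold elc
            ring
          rw [this, sup_bot_eq]
          exact h1 S
  have h3 := key _ ∅ rfl
  have h4 : LE (J ∅) ψ ε' = Ideal.span {C ε + ∑ k, C (L k) * X k} := by
    unfold LE
    have : J ∅ = ⊥ := by simp [J]
    rw [this, Ideal.map_bot, bot_sup_eq]
    congr 1
    ext x
    constructor
    · rintro ⟨_, rfl⟩; rfl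
    · rintro rfl; exact ⟨(), rfl⟩
  rwa [h4] at h3

/-- generic hypersurfaces `ε(z) + ∑ L_k(z) y_k`, with `ε`, `L_k` of degree one in `z` -/
theorem generic_bilinear (B : Type) [CommRing B] [IsDomain B] (κ τ : Type) [Fintype κ]
    [DecidableEq κ] [Fintype τ] [DecidableEq τ] (c : Option κ → B) (φ : Option κ → τ → B) :
    ∃ s : B, s ≠ 0 ∧ ∀ (B' : Type) [CommRing B'] [IsNoetherianRing B'] (g : B →+* B'),
      IsUnit (g s) → FinGn B' →
      FinGn (MvPolynomial κ (MvPolynomial τ B') ⧸
        Ideal.span {C (C (g (c none)) + ∑ j, C (g (φ none j)) * X j) +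
          ∑ k, C (C (g (c (some k))) + ∑ j, C (g (φ (some k) j)) * X j) * X k}) := by
  classical
  have H : ∀ S : Finset (Option κ), ∃ s : B, s ≠ 0 ∧ ∀ (B' : Type) [CommRing B']
      [IsNoetherianRing B'] (g : B →+* B'), IsUnit (g s) → FinGn B' →
      FinGn (MvPolynomial τ B' ⧸ Ideal.span
        ((fun k => C (g (c k)) + ∑ j, C (g (φ k j)) * X j) '' S)) := by
    intro S
    obtain ⟨s, hs, h⟩ := generic_linear (Fintype.card τ) τ rfl B {k : Option κ // k ∈ S}
      (fun k => φ k) (fun k => c k)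
    refine ⟨s, hs, ?_⟩
    intro B' _ _ g hg hB'
    have h1 := h B' g hg hB'
    have h2 : LE ⊥ (fun (k : {k : Option κ // k ∈ S}) j => g (φ k j)) (fun k => g (c k)) =
        Ideal.span ((fun k => C (g (c k)) + ∑ j, C (g (φ k j)) * X j) '' S) := by
      unfold LE
      rw [Ideal.map_bot, bot_sup_eq]
      congr 1
      ext x
      constructor
      · rintro ⟨k, rfl⟩; exact ⟨k, k.2, rfl⟩
      · rintro ⟨k, hk, rfl⟩; exact ⟨⟨k, hk⟩, rfl⟩
    rwa [h2] at h1
  choose s hs H using H
  refine ⟨∏ S, s S, Finset.prod_ne_zero_iff.2 (fun S _ => hs S), ?_⟩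
  intro B' _ _ g hg hB'
  have hgS : ∀ S, IsUnit (g (s S)) := by
    intro S
    rw [map_prod, IsUnit.prod_univ_iff] at hg
    exact hg S
  apply finGn_row (R := MvPolynomial τ B')
    (fun k => C (g (c (some k))) + ∑ j, C (g (φ (some k) j)) * X j)
    (C (g (c none)) + ∑ j, C (g (φ none j)) * X j)
  · intro S
    have h := H (S.map ⟨some, Option.some_injective κ⟩) B' g (hgS _) hB'
    have e : (fun k => C (g (c k)) + ∑ j, C (g (φ k j)) * X j : Option κ → MvPolynomial τ B') ''
        ((S.map ⟨some, Option.some_injective κ⟩ : Finset (Option κ)) : Set (Option κ)) =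
        (fun k => C (g (c (some k))) + ∑ j, C (g (φ (some k) j)) * X j) '' S := by
      rw [Finset.coe_map, Set.image_image]
      rfl
    rwa [e] at h
  · have h := H Finset.univ B' g (hgS _) hB'
    have e : (fun k => C (g (c k)) + ∑ j, C (g (φ k j)) * X j : Option κ → MvPolynomial τ B') ''
        ((Finset.univ : Finset (Option κ)) : Set (Option κ)) =
        insert (C (g (c none)) + ∑ j, C (g (φ none j)) * X j)
          (Set.range fun k => C (g (c (some k))) + ∑ j, C (g (φ (some k) j)) * X j) := by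
      rw [Finset.coe_univ, Set.image_univ]
      ext x
      constructor
      · rintro ⟨k, rfl⟩
        cases k with
        | none => exact Set.mem_insert _ _
        | some k => exact Set.mem_insert_of_mem _ ⟨k, rfl⟩
      · rintro (rfl | ⟨k, rfl⟩)
        · exact ⟨none, rfl⟩
        · exact ⟨some k, rfl⟩
    rw [e, Ideal.span_insert, sup_comm] at h
    exact h

end Pool.Agent.QTG
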