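import Pool.Agent.QTG.StSk
import Pool.Agent.TQF.QC

/-!
# QTG, module QC2

Statement and proof: see `St_QC2` in `Pool/Agent/QTG/StSk.lean`.
-/

set_option autoImplicit false

namespace Pool.Agent.QTG

open Function MvPolynomial TensorProduct Pool.Agent.TQF Pool.Agent.Helper67.Bass
  Pool.Agent.Helper11

/-- a section which is compatible with the reflection `x ↦ γ - x` -/
theorem QC2_section {ι : Type} [AddCommGroup ι] (Γ : AddSubgroup ι) (γ ω : ι)
    (h : γ - ω - ω ∈ Γ → γ = ω + ω) :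
    ∃ r : ι → ι, (∀ x, x - r x ∈ Γ) ∧ (∀ x y, x - y ∈ Γ → r x = r y) ∧ r ω = ω ∧
      ∀ x, γ - x - x ∉ Γ → r x + r (γ - x) = γ := by
  classical
  obtain ⟨o, h1, h2, h3, h4⟩ := QC_section Γ ω (γ - ω) (by
    intro h1
    have h2 := h (by
      have h3 := Γ.neg_mem h1
      rwa [neg_sub] at h3)
    rw [h2]
    abel)
  refine ⟨fun x => if WellOrderingRel (o x) (o (γ - x)) then o x else γ - o (γ - x), ?_, ?_, ?_, ?_⟩
  · intro x
    show x - (if WellOrderingRel (o x) (o (γ - x)) then o x else γ - o (γ - x)) ∈ Γ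
    split_ifs with h5
    · exact h1 x
    · have h6 := Γ.neg_mem (h1 (γ - x))
      have h7 : -(γ - x - o (γ - x)) = x - (γ - o (γ - x)) := by abel
      rwa [h7] at h6
  · intro x y hxy
    have h5 : o x = o y := h2 x y hxy
    have h6 : o (γ - x) = o (γ - y) := by
      refine h2 _ _ ?_
      have h7 := Γ.neg_mem hxy
      have h8 : -(x - y) = γ - x - (γ - y) := by abel
      rwa [h8] at h7
    show (if WellOrderingRel (o x) (o (γ - x)) then o x else γ - o (γ - x)) =
      (if WellOrderingRel (o y) (o (γ - y)) then o y else γ - o (γ - y))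
    rw [h5, h6]
  · show (if WellOrderingRel (o ω) (o (γ - ω)) then o ω else γ - o (γ - ω)) = ω
    rw [h3, h4]
    split_ifs
    · rfl
    · abel
  · intro x hx
    have h5 : γ - (γ - x) = x := by abel
    show (if WellOrderingRel (o x) (o (γ - x)) then o x else γ - o (γ - x)) +
      (if WellOrderingRel (o (γ - x)) (o (γ - (γ - x))) then o (γ - x) else
        γ - o (γ - (γ - x))) = γ
    rw [h5]
    have hne : o x ≠ o (γ - x) := by
      intro h6
      apply hx
      have h7 := Γ.sub_mem (h1 (γ - x)) (h1 x)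
      have h8 : γ - x - o (γ - x) - (x - o x) = γ - x - x + (o x - o (γ - x)) := by abel
      rwa [h8, h6, sub_self, add_zero] at h7
    rcases trichotomous_of WellOrderingRel (o x) (o (γ - x)) with h6 | h6 | h6
    · rw [if_pos h6, if_neg (asymm_of WellOrderingRel h6)]
      abel
    · exact absurd h6 hne
    · rw [if_neg (asymm_of WellOrderingRel h6), if_pos h6]
      abel

theorem thm_QC2 : St_QC2 := by
  intro ι _ ρ n m hm γ ω α
  classical
  let L : (Fin ρ → ℤ) →ₗ[ℤ] ι := Fintype.linearCombination ℤ m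
  have hL : ∀ ζ, L ζ = ∑ k, ζ k • m k := fun ζ => Fintype.linearCombination_apply ℤ m ζ
  have hinj : Injective L := hm.fintypeLinearCombination_injective
  let Γ : AddSubgroup ι := (L : (Fin ρ → ℤ) →+ ι).range
  have hΓ : ∀ x, x ∈ Γ ↔ ∃ ζ, L ζ = x := fun x => Iff.rfl
  -- the modified degree
  obtain ⟨γ', hγ, hγ2⟩ : ∃ γ' : ι, γ - γ' ∈ Γ ∧ (γ' - ω - ω ∈ Γ → γ' = ω + ω) := by
    by_cases h1 : γ - (ω + ω) ∈ Γ
    · exact ⟨ω + ω, h1, fun _ => rfl⟩
    · refine ⟨γ, by rw [sub_self]; exact Γ.zero_mem, fun h2 => absurd ?_ h1⟩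
      rwa [← sub_sub]
  obtain ⟨r, hr1, hr2, hr3, hr4⟩ := QC2_section Γ γ' ω hγ2
  obtain ⟨w, hw⟩ := (hΓ _).1 hγ
  let e : Option (Fin n) → ι := fun i =>
    if γ' - wt ω α i - wt ω α i ∈ Γ then γ' - wt ω α i - wt ω α i
    else (r (wt ω α i) - wt ω α i) + (r (wt ω α i) - wt ω α i)
  have he : ∀ i, e i ∈ Γ := by
    intro i
    show (if γ' - wt ω α i - wt ω α i ∈ Γ then γ' - wt ω α i - wt ω α i
      else (r (wt ω α i) - wt ω α i) + (r (wt ω α i) - wt ω α i)) ∈ Γ
    split_ifs with h1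
    · exact h1
    · have h2 := Γ.neg_mem (hr1 (wt ω α i))
      rw [neg_sub] at h2
      exact Γ.add_mem h2 h2
  have hv0 : ∀ i, ∃ ζ, L ζ = e i := fun i => (hΓ _).1 (he i)
  choose v hv using hv0
  -- the key identity
  have hkey : ∀ i j, γ' - wt ω α i - wt ω α j ∈ Γ →
      e i + e j = (γ' - wt ω α i - wt ω α j) + (γ' - wt ω α i - wt ω α j) := by
    intro i j hij
    have hsw : γ' - wt ω α i - wt ω α i ∈ Γ ↔ γ' - wt ω α j - wt ω α j ∈ Γ := by
      have h0 : ∀ a b : ι, γ' - a - b ∈ Γ → γ' - a - a ∈ Γ → γ' - b - b ∈ Γ := by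
        intro a b h1 h2
        have h3 := Γ.sub_mem (Γ.add_mem h1 h1) h2
        have h4 : γ' - a - b + (γ' - a - b) - (γ' - a - a) = γ' - b - b := by abel
        rwa [h4] at h3
      refine ⟨h0 _ _ hij, h0 _ _ ?_⟩
      rwa [sub_right_comm]
    by_cases h1 : γ' - wt ω α i - wt ω α i ∈ Γ
    · have h2 : e i = γ' - wt ω α i - wt ω α i := if_pos h1
      have h3 : e j = γ' - wt ω α j - wt ω α j := if_pos (hsw.1 h1)
      rw [h2, h3]
      abel
    · have h2 : e i = (r (wt ω α i) - wt ω α i) + (r (wt ω α i) - wt ω α i) := if_neg h1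
      have h3 : e j = (r (wt ω α j) - wt ω α j) + (r (wt ω α j) - wt ω α j) :=
        if_neg (fun h => h1 (hsw.2 h))
      have h4 : r (γ' - wt ω α i) = r (wt ω α j) := hr2 _ _ hij
      have h5 := hr4 _ h1
      rw [h4] at h5
      rw [h2, h3, ← h5]
      abel
  refine ⟨w, v, ?_, ?_⟩
  · apply hinj
    rw [hv, map_zero]
    show (if γ' - ω - ω ∈ Γ then γ' - ω - ω else (r ω - ω) + (r ω - ω)) = 0
    split_ifs with h1
    · rw [hγ2 h1]
      abel
    · rw [hr3]
      abel
  · intro i j ζ hζ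
    rw [← hL] at hζ
    have h1 : γ' - wt ω α i - wt ω α j ∈ Γ := by
      have h2 : γ - wt ω α i - wt ω α j ∈ Γ := ⟨ζ, hζ⟩
      have h3 := Γ.sub_mem h2 hγ
      have h4 : γ - wt ω α i - wt ω α j - (γ - γ') = γ' - wt ω α i - wt ω α j := by abel
      rwa [h4] at h3
    have h2 := hkey i j h1
    have h3 : ζ + ζ = w + w + v i + v j := by
      apply hinj
      rw [map_add, map_add, map_add, map_add, hw, hv, hv, hζ, add_assoc (γ - γ' + (γ - γ')), h2]
      abel
    intro k
    have h4 := congrFun h3 k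
    simp only [Pi.add_apply] at h4
    linarith

end Pool.Agent.QTG
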