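import Pool.Agent.TQF.StQ
import Pool.Agent.TQF.StN

/-!
# QTG, definitions: skew Laurent rings and twisted quadratic data

The aim is `thm_QF2` (`QF2.lean`): the generic stratum of a homogeneous prime `P` with
`KroneckerLeOne (K0 𝒜 π)` for ARBITRARY weights (Theorem QF of `Pool/Agent/TQF/StQ.lean` without the
condition on `S`, `T`).
-/

set_option autoImplicit false

namespace Pool.Agent.QTG

open Function MvPolynomial Pool.Agent.TQF Pool.Agent.Helper67.Bass

/-! ### skew Laurent rings -/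

/-- `T` is the skew Laurent polynomial ring `R[τ, τ⁻¹; σ]`: `τ r = σ(r) τ`, and every element of `T` is a
unique finite sum `∑ r_k τ ^ k` -/
structure IsSkL {R T : Type} [Ring R] [Ring T] (σ : R ≃+* R) (j : R →+* T) (τ : Tˣ) : Prop where
  comm : ∀ r, (τ : T) * j r = j (σ r) * τ
  uniq : ∀ c : ℤ →₀ R, (c.sum fun k r => j r * ((τ ^ k : Tˣ) : T)) = 0 → c = 0
  span : ∀ t : T, ∃ c : ℤ →₀ R, t = c.sum fun k r => j r * ((τ ^ k : Tˣ) : T)

/-- `T` is the universal ring with a homomorphism `j` from `R` and pairwise commuting units `τ k` such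
that `τ_k r = σ_k(r) τ_k` (iterated skew Laurent ring) -/
structure IsSkU {R T : Type} [Ring R] [Ring T] {ρ : ℕ} (σ : Fin ρ → R ≃+* R) (j : R →+* T)
    (τ : Fin ρ → Tˣ) : Prop where
  comm : ∀ k r, (τ k : T) * j r = j (σ k r) * τ k
  tcomm : ∀ k l, τ k * τ l = τ l * τ k
  gen : ∀ t : T, t ∈ Subring.closure (Set.range j ∪ Set.range (fun k => (τ k : T)) ∪
    Set.range (fun k => (((τ k)⁻¹ : Tˣ) : T)))
  lift : ∀ (T' : Type) [Ring T'] (j' : R →+* T') (τ' : Fin ρ → T'ˣ),
    (∀ k r, (τ' k : T') * j' r = j' (σ k r) * τ' k) → (∀ k l, τ' k * τ' l = τ' l * τ' k) →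
    ∃ φ : T →+* T', (∀ r, φ (j r) = j' r) ∧ ∀ k, φ (τ k) = τ' k

/-! ### twists -/

/-- `∏ u_k ^ z_k` -/
def mon {V : Type} [CommRing V] {ρ : ℕ} (u : Fin ρ → Vˣ) (z : Fin ρ → ℤ) : Vˣ := ∏ k, u k ^ z k

/-- the polynomial `∑ b(c_d) u ^ ((∑ d_i v_i) / 2) y ^ d` of `f = ∑ c_d y ^ d` (integer division) -/
noncomputable def twP {B V : Type} [CommRing B] [CommRing V] {n ρ : ℕ} (b : B →+* V)
    (u : Fin ρ → Vˣ) (v : Fin n → Fin ρ → ℤ) (f : MvPolynomial (Fin n) B) :
    MvPolynomial (Fin n) V :=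
  ∑ d ∈ f.support, monomial d (b (f.coeff d) * (mon u (fun k => (∑ i, (d i : ℤ) * v i k) / 2) : Vˣ))

/-- parity: all exponents `∑ d_i v_i` occurring in `twP` are even -/
def Par {B : Type} [CommRing B] {n ρ : ℕ} (v : Fin n → Fin ρ → ℤ) (f : MvPolynomial (Fin n) B) :
    Prop :=
  ∀ d, f.coeff d ≠ 0 → ∀ k, (2 : ℤ) ∣ ∑ i, (d i : ℤ) * v i k

/-- the twisted quadratic data `λ_a u ^ (c_a / 2)`, `γ_ab u ^ ((c_a + c_b) / 2)` (integer division) -/
def tw {B V : Type} [CommRing B] [CommRing V] {m ρ : ℕ} (b : B →+* V) (u : Fin ρ → Vˣ)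
    (c : Fin (m + 1) → Fin ρ → ℤ) (q : QD B m) : QD V m where
  lam a := b (q.lam a) * (mon u (fun k => c a k / 2) : Vˣ)
  gam a a' := b (q.gam a a') * (mon u (fun k => (c a k + c a' k) / 2) : Vˣ)

/-- parity for quadratic data -/
def ParQ {B : Type} [CommRing B] {m ρ : ℕ} (c : Fin (m + 1) → Fin ρ → ℤ) (q : QD B m) : Prop :=
  (∀ a, q.lam a ≠ 0 → ∀ k, (2 : ℤ) ∣ c a k) ∧
    ∀ a a', q.gam a a' ≠ 0 → ∀ k, (2 : ℤ) ∣ c a k + c a' k

theorem mon_zero {V : Type} [CommRing V] {ρ : ℕ} (u : Fin ρ → Vˣ) : mon u 0 = 1 := by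
  simp [mon]

theorem mon_add {V : Type} [CommRing V] {ρ : ℕ} (u : Fin ρ → Vˣ) (z z' : Fin ρ → ℤ) :
    mon u (z + z') = mon u z * mon u z' := by
  unfold mon
  rw [← Finset.prod_mul_distrib]
  exact Finset.prod_congr rfl fun k _ => by rw [Pi.add_apply, zpow_add]

theorem mon_neg {V : Type} [CommRing V] {ρ : ℕ} (u : Fin ρ → Vˣ) (z : Fin ρ → ℤ) :
    mon u (-z) = (mon u z)⁻¹ := by
  rw [eq_inv_iff_mul_eq_one, ← mon_add, neg_add_cancel, mon_zero]

theorem mon_sub {V : Type} [CommRing V] {ρ : ℕ} (u : Fin ρ → Vˣ) (z z' : Fin ρ → ℤ) :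
    mon u (z - z') = mon u z * (mon u z')⁻¹ := by
  rw [sub_eq_add_neg, mon_add, mon_neg]

theorem mon_single {V : Type} [CommRing V] {ρ : ℕ} (u : Fin ρ → Vˣ) (k : Fin ρ) (t : ℤ) :
    mon u (Pi.single k t) = u k ^ t := by
  unfold mon
  rw [Finset.prod_eq_single k]
  · rw [Pi.single_eq_same]
  · intro l _ hl
    rw [Pi.single_eq_of_ne hl, zpow_zero]
  · intro h
    exact absurd (Finset.mem_univ k) h

theorem coeff_twP {B V : Type} [CommRing B] [CommRing V] {n ρ : ℕ} (b : B →+* V)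
    (u : Fin ρ → Vˣ) (v : Fin n → Fin ρ → ℤ) (f : MvPolynomial (Fin n) B) (d : Fin n →₀ ℕ) :
    (twP b u v f).coeff d =
      b (f.coeff d) * (mon u (fun k => (∑ i, (d i : ℤ) * v i k) / 2) : Vˣ) := by
  classical
  unfold twP
  rw [coeff_sum]
  simp only [coeff_monomial]
  rw [Finset.sum_ite_eq']
  split
  · rfl
  · next h =>
    rw [notMem_support_iff.1 h, map_zero, zero_mul]

theorem twP_map {A B V : Type} [CommRing A] [CommRing B] [CommRing V] {n ρ : ℕ} (φ : A →+* B)
    (b : B →+* V) (u : Fin ρ → Vˣ) (v : Fin n → Fin ρ → ℤ) (f : MvPolynomial (Fin n) A) :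
    twP b u v (MvPolynomial.map φ f) = twP (b.comp φ) u v f := by
  ext d
  rw [coeff_twP, coeff_twP, coeff_map]
  rfl

theorem totalDegree_twP_le {B V : Type} [CommRing B] [CommRing V] {n ρ : ℕ} (b : B →+* V)
    (u : Fin ρ → Vˣ) (v : Fin n → Fin ρ → ℤ) (f : MvPolynomial (Fin n) B) :
    (twP b u v f).totalDegree ≤ f.totalDegree := by
  refine Finset.sup_mono fun d hd => ?_
  rw [mem_support_iff] at hd ⊢
  rw [coeff_twP] at hd
  intro h
  exact hd (by rw [h, map_zero, zero_mul])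

theorem tw_map {A B V : Type} [CommRing A] [CommRing B] [CommRing V] {m ρ : ℕ} (φ : A →+* B)
    (b : B →+* V) (u : Fin ρ → Vˣ) (c : Fin (m + 1) → Fin ρ → ℤ) (q : QD A m) :
    tw b u c (q.map φ) = tw (b.comp φ) u c q := rfl

theorem ParQ.map {A B : Type} [CommRing A] [CommRing B] {m ρ : ℕ} (φ : A →+* B)
    {c : Fin (m + 1) → Fin ρ → ℤ} {q : QD A m} (h : ParQ c q) : ParQ c (q.map φ) :=
  ⟨fun a ha => h.1 a fun h0 => ha (by show φ (q.lam a) = 0; rw [h0, map_zero]),
    fun a a' ha => h.2 a a' fun h0 => ha (by show φ (q.gam a a') = 0; rw [h0, map_zero])⟩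

/-! ### the algebra `S₀` -/

/-- the grading group -/
abbrev GG (ρ : ℕ) : Type := Fin ρ → ZMod 2

/-- the class of `z` modulo two -/
def cl {ρ : ℕ} (z : Fin ρ → ℤ) : GG ρ := fun k => (z k : ZMod 2)

/-- generators: `e_a` and `π_g` -/
abbrev SGen (m ρ : ℕ) : Type := Fin (m + 1) ⊕ GG ρ

section

variable {B : Type} [CommRing B] {m ρ : ℕ}

/-- the generator `e_a` of the free algebra -/
def fe (B : Type) [CommRing B] {m ρ : ℕ} (a : Fin (m + 1)) : FreeAlgebra B (SGen m ρ) :=
  FreeAlgebra.ι B (Sum.inl a)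

/-- the generator `π_g` of the free algebra -/
def fp (B : Type) [CommRing B] {m ρ : ℕ} (g : GG ρ) : FreeAlgebra B (SGen m ρ) :=
  FreeAlgebra.ι B (Sum.inr g)

/-- the defining relations of `SAlg q c` -/
inductive SRel (q : QD B m) (c : Fin (m + 1) → Fin ρ → ℤ) :
    FreeAlgebra B (SGen m ρ) → FreeAlgebra B (SGen m ρ) → Prop
  | sq (a : Fin (m + 1)) : SRel q c (fe B a * fe B a + q.lam a • fe B a +
      algebraMap B _ (q.gam a a)) 0
  | mul (a a' : Fin (m + 1)) (h : a ≠ a') : SRel q c (fe B a * fe B a' + fe B a' * fe B a +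
      q.lam a • fe B a' + q.lam a' • fe B a + algebraMap B _ (q.gam a a' + q.gam a' a)) 0
  | idem (g : GG ρ) : SRel q c (fp B g * fp B g) (fp B g)
  | orth (g g' : GG ρ) (h : g ≠ g') : SRel q c (fp B g * fp B g') 0
  | sum : SRel q c (∑ g, fp B g) 1
  | shift (a : Fin (m + 1)) (g : GG ρ) : SRel q c (fe B a * fp B g)
      (fp B (g + cl (c a)) * fe B a)

/-- the Clifford type algebra of `q` with operators `e_a` of degree `c_a` modulo two and the projections
`π_g` to the part of degree `g` -/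
abbrev SAlg (q : QD B m) (c : Fin (m + 1) → Fin ρ → ℤ) : Type := RingQuot (SRel q c)

/-- the generator `e_a` -/
def SAlg.e (q : QD B m) (c : Fin (m + 1) → Fin ρ → ℤ) (a : Fin (m + 1)) : SAlg q c :=
  RingQuot.mkAlgHom B (SRel q c) (fe B a)

/-- the projection `π_g` -/
def SAlg.p (q : QD B m) (c : Fin (m + 1) → Fin ρ → ℤ) (g : GG ρ) : SAlg q c :=
  RingQuot.mkAlgHom B (SRel q c) (fp B g)

/-- the basis vector `ε_k` of `GG ρ` -/
def bv {ρ : ℕ} (k : Fin ρ) : GG ρ := Pi.single k 1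

/-- elements `e_a`, `p_g` of a `B`-algebra satisfying the relations of `SAlg q c` -/
structure SRep {E : Type} [Ring E] [Algebra B E] (q : QD B m) (c : Fin (m + 1) → Fin ρ → ℤ)
    (e : Fin (m + 1) → E) (p : GG ρ → E) : Prop where
  sq : ∀ a, e a * e a + q.lam a • e a + algebraMap B E (q.gam a a) = 0
  mul : ∀ a a', a ≠ a' → e a * e a' + e a' * e a + q.lam a • e a' + q.lam a' • e a +
    algebraMap B E (q.gam a a' + q.gam a' a) = 0
  idem : ∀ g, p g * p g = p g
  orth : ∀ g g', g ≠ g' → p g * p g' = 0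
  sum : ∑ g, p g = 1
  shift : ∀ a g, e a * p g = p (g + cl (c a)) * e a

theorem SAlg.rep (q : QD B m) (c : Fin (m + 1) → Fin ρ → ℤ) :
    SRep q c (SAlg.e q c) (SAlg.p q c) where
  sq a := by
    have h := RingQuot.mkAlgHom_rel B (SRel.sq (q := q) (c := c) a)
    rw [map_add, map_add, map_mul, map_smul, map_zero, AlgHom.commutes] at h
    exact h
  mul a a' haa := by
    have h := RingQuot.mkAlgHom_rel B (SRel.mul (q := q) (c := c) a a' haa)
    rw [map_add, map_add, map_add, map_add, map_mul, map_mul, map_smul, map_smul, map_zero,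
      AlgHom.commutes] at h
    exact h
  idem g := by
    have h := RingQuot.mkAlgHom_rel B (SRel.idem (q := q) (c := c) g)
    rw [map_mul] at h
    exact h
  orth g g' hg := by
    have h := RingQuot.mkAlgHom_rel B (SRel.orth (q := q) (c := c) g g' hg)
    rw [map_mul, map_zero] at h
    exact h
  sum := by
    have h := RingQuot.mkAlgHom_rel B (SRel.sum (q := q) (c := c))
    rw [map_sum, map_one] at h
    exact h
  shift a g := by
    have h := RingQuot.mkAlgHom_rel B (SRel.shift (q := q) (c := c) a g)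
    rw [map_mul, map_mul] at h
    exact h

/-- the universal property of `SAlg q c` -/
theorem SAlg.lift {E : Type} [Ring E] [Algebra B E] {q : QD B m} {c : Fin (m + 1) → Fin ρ → ℤ}
    {e : Fin (m + 1) → E} {p : GG ρ → E} (h : SRep q c e p) :
    ∃ φ : SAlg q c →ₐ[B] E, (∀ a, φ (SAlg.e q c a) = e a) ∧ ∀ g, φ (SAlg.p q c g) = p g := by
  have hL : ∀ x, FreeAlgebra.lift B (Sum.elim e p) (FreeAlgebra.ι B x) = Sum.elim e p x := fun x =>
    FreeAlgebra.lift_ι_apply _ _
  refine ⟨RingQuot.liftAlgHom B ⟨FreeAlgebra.lift B (Sum.elim e p), ?_⟩, fun a => ?_, fun g => ?_⟩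
  · intro x y hxy
    cases hxy with
    | sq a =>
      rw [map_add, map_add, map_mul, map_smul, map_zero, AlgHom.commutes]
      unfold fe
      rw [hL]
      exact h.sq a
    | mul a a' haa =>
      rw [map_add, map_add, map_add, map_add, map_mul, map_mul, map_smul, map_smul, map_zero,
        AlgHom.commutes]
      unfold fe
      rw [hL, hL]
      exact h.mul a a' haa
    | idem g =>
      rw [map_mul]
      unfold fp
      rw [hL]
      exact h.idem g
    | orth g g' hg =>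
      rw [map_mul, map_zero]
      unfold fp
      rw [hL, hL]
      exact h.orth g g' hg
    | sum =>
      rw [map_sum, map_one]
      unfold fp
      simp only [hL]
      exact h.sum
    | shift a g =>
      rw [map_mul, map_mul]
      unfold fe fp
      rw [hL, hL, hL]
      exact h.shift a g
  · unfold SAlg.e fe
    rw [RingQuot.liftAlgHom_mkAlgHom_apply, hL]
    rfl
  · unfold SAlg.p fp
    rw [RingQuot.liftAlgHom_mkAlgHom_apply, hL]
    rfl

/-- two ring homomorphisms out of `SAlg q c` agree if they agree on `B`, `e_a`, `p_g` -/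
theorem SAlg.ext {E : Type} [Ring E] {q : QD B m} {c : Fin (m + 1) → Fin ρ → ℤ}
    {φ ψ : SAlg q c →+* E} (h1 : ∀ b : B, φ (algebraMap B _ b) = ψ (algebraMap B _ b))
    (h2 : ∀ a, φ (SAlg.e q c a) = ψ (SAlg.e q c a))
    (h3 : ∀ g, φ (SAlg.p q c g) = ψ (SAlg.p q c g)) : φ = ψ := by
  refine RingHom.ext fun x => ?_
  obtain ⟨x, rfl⟩ := RingQuot.mkAlgHom_surjective B (SRel q c) x
  induction x using FreeAlgebra.induction with
  | grade0 b => rw [AlgHom.commutes]; exact h1 b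
  | grade1 x =>
    rcases x with a | g
    · exact h2 a
    · exact h3 g
  | mul x y hx hy => rw [map_mul, map_mul, map_mul, hx, hy]
  | add x y hx hy => rw [map_add, map_add, map_add, hx, hy]

/-- `SAlg q c` is generated by `B`, `e_a`, `p_g` -/
theorem SAlg.ind {q : QD B m} {c : Fin (m + 1) → Fin ρ → ℤ} (Q : SAlg q c → Prop)
    (h1 : ∀ b : B, Q (algebraMap B _ b)) (h2 : ∀ a, Q (SAlg.e q c a)) (h3 : ∀ g, Q (SAlg.p q c g))
    (hm : ∀ x y, Q x → Q y → Q (x * y)) (ha : ∀ x y, Q x → Q y → Q (x + y)) (x : SAlg q c) :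
    Q x := by
  obtain ⟨x, rfl⟩ := RingQuot.mkAlgHom_surjective B (SRel q c) x
  induction x using FreeAlgebra.induction with
  | grade0 b => rw [AlgHom.commutes]; exact h1 b
  | grade1 x =>
    rcases x with a | g
    · exact h2 a
    · exact h3 g
  | mul x y hx hy => rw [map_mul]; exact hm _ _ hx hy
  | add x y hx hy => rw [map_add]; exact ha _ _ hx hy

end

/-! ### Laurent polynomial rings -/

/-- `V` is the Laurent polynomial ring over `B` in the units `u_k` -/
structure IsLauR {B V : Type} [CommRing B] [CommRing V] {ρ : ℕ} (b : B →+* V) (u : Fin ρ → Vˣ) :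
    Prop where
  inj : Injective (eval₂Hom b (fun k => (u k : V)) : MvPolynomial (Fin ρ) B →+* V)
  frac : ∀ x : V, ∃ (N : ℕ) (p : MvPolynomial (Fin ρ) B),
    x * (∏ k, (u k : V)) ^ N = eval₂ b (fun k => (u k : V)) p

end Pool.Agent.QTG
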