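import Pool.Agent.QTG.SkDefs
import Pool.Agent.TQF.All

/-!
# QTG, statements: skew Laurent rings and the twisted fibre theorem

Conventions as in `Pool/Agent/TQF`: `modC R` is the exact structure of finitely generated LEFT modules,
`IsNoetherianRing R` means left noetherian, `Ideal R` are left ideals.
-/

set_option autoImplicit false

namespace Pool.Agent.QTG

open Function MvPolynomial TensorProduct Pool.Agent.TQF Pool.Agent.Helper67.Bass
  Pool.Agent.Helper11

/-- **QC2** (1 h). Rescaling exponents, general case.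
Proof. Let `Γ` be the subgroup generated by the `m k`, `[x]` the class of `x` in `ι ⧸ Γ`, and `rp x` for
`x ∈ Γ` the coordinate vector (unique by independence; additive: an additive equivalence
`Γ ≃ (Fin ρ → ℤ)`). Put `γ' = 2 ω` if `γ - 2 ω ∈ Γ` and `γ' = γ` otherwise; in both cases
`γ - γ' ∈ Γ`; `w = rp (γ - γ')`. A class `c` is called self-paired if `2 c = [γ]`. Let
`o : ι ⧸ Γ → ι` be a section (`[o c] = c`) with `o [ω] = ω`, and `o ([γ] - [ω]) = γ' - ω` if
`[ω]` is not self-paired (`Quotient.out` and `Function.update`; `[γ'] = [γ]`). Choose a linear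
order on `ι ⧸ Γ` (e.g. by `exists_wellOrder` or `linearOrderOfSTO`; any relation which decides
between `c` and `[γ] - c`), and put `r c = o c` if
`c < [γ] - c`, and `r c = γ' - o ([γ] - c)` otherwise. Then `[r c] = c`, `r c + r ([γ] - c) = γ'` for
`c` not self-paired, and `r [ω] = ω` if `[ω]` is not self-paired.
Put `v i = rp (γ' - 2 wt i)` if `[wt i]` is self-paired and `v i = 2 rp (r [wt i] - wt i)` otherwise.
`v none = 0`: if `[ω]` is self-paired then `γ - 2 ω ∈ Γ`, `γ' = 2 ω`; otherwise `r [ω] = ω`.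
Verification: let `γ - wt i - wt j = ∑ ζ_k m_k`, so `[wt i] + [wt j] = [γ]`. If `[wt i]` is
self-paired then `[wt j] = [wt i]` is, and `2 ζ = rp (2 γ - 2 wt i - 2 wt j) =
2 rp (γ - γ') + rp (γ' - 2 wt i) + rp (γ' - 2 wt j)`. Otherwise `[wt j] = [γ] - [wt i]` is not
self-paired and `rp (γ - wt i - wt j) = rp (γ - γ') + rp (r [wt i] - wt i) + rp (r [wt j] - wt j)`.
-/
def St_QC2 : Prop :=
  ∀ (ι : Type) [AddCommGroup ι] (ρ n : ℕ) (m : Fin ρ → ι), LinearIndependent ℤ m →
    ∀ (γ ω : ι) (α : Fin n → ι), ∃ (w : Fin ρ → ℤ) (v : Option (Fin n) → Fin ρ → ℤ), v none = 0 ∧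
      ∀ (i j : Option (Fin n)) (ζ : Fin ρ → ℤ),
        ∑ k, ζ k • m k = γ - wt ω α i - wt ω α j → ∀ k, 2 * ζ k = 2 * w k + v i k + v j k

/-! ### skew Laurent rings -/

/-- **SK0** (1 h). Existence. Proof. `T = SkewMonoidAlgebra R (Multiplicative ℤ)`
(`Mathlib/Algebra/SkewMonoidAlgebra/Basic.lean`) for the action of `Multiplicative ℤ` on `R` through the
powers of `σ` (a `MulSemiringAction` from the homomorphism `zpowersHom (R ≃+* R) σ` into `RingAut R`);
`j r = single 1 r`, `τ = single (ofAdd 1) 1` with inverse `single (ofAdd (-1)) 1`. Then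
`j r * τ ^ k = single (ofAdd k) r`, and the sum in `uniq`, `span` is the element with coefficients
`c`. -/
def St_SK0 : Prop :=
  ∀ (R : Type) [Ring R] (σ : R ≃+* R), ∃ (T : Type) (_ : Ring T) (j : R →+* T) (τ : Tˣ),
    IsSkL σ j τ

/-- **SKL** (1.5 h). Universal property and uniqueness. Proof. By `uniq` and `span` every element of
`T` is `∑ j (c k) τ ^ k` for a unique `c : ℤ →₀ R` (apply `uniq` to differences; the sum is additive
in `c`); put `φ = ∑ j' (c k) τ' ^ k`. It is additive, and multiplicative because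
`τ ^ k * j r = j (σ ^ k r) * τ ^ k` for all `k : ℤ` (also for negative `k`:
`τ⁻¹ * j r = j (σ.symm r) * τ⁻¹`), the same in `T'`; check on products of two monomials. The second
part: `T` is generated by `j r`, `τ`, `τ⁻¹` (`span`), and `φ τ⁻¹` is the inverse of `φ τ`. -/
def St_SKL : Prop :=
  ∀ (R T : Type) [Ring R] [Ring T] (σ : R ≃+* R) (j : R →+* T) (τ : Tˣ), IsSkL σ j τ →
    ∀ (T' : Type) [Ring T'],
      (∀ (j' : R →+* T') (τ' : T'ˣ), (∀ r, (τ' : T') * j' r = j' (σ r) * τ') →
        ∃ φ : T →+* T', (∀ r, φ (j r) = j' r) ∧ φ τ = τ') ∧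
      ∀ φ ψ : T →+* T', (∀ r, φ (j r) = ψ (j r)) → φ τ = ψ τ → φ = ψ

/-- **SK1** (2 h). Two out of three generation for skew Laurent rings.
Proof. For `N ∈ LMod R` let `Ind N = ℤ →₀ N` (thought of as `⊕ τ ^ k ⊗ N`), with
`j r • single k x = single k (σ⁻ᵏ(r) • x)`, `τ • single k x = single (k+1) x`; a `T`-module by the
uniqueness of the expansion (or: `Ind N = T ⊗[R] N`, if that is easier for the non commutative ring
`R`; or `Module.compHom` along the homomorphism `T →+* Module.End ℤ (ℤ →₀ N)`, which one obtains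
from `St_SKL`, given as a hypothesis). `Ind N` is finitely generated over `T` by the `single 0 x`, and
`N ↦ Ind N` respects short exact sequences and zero objects, so if `U` is a finite generating set for
`R`, a two out of three class `P` over `T` which contains the `Ind N`, `N ∈ U`, contains all `Ind N`
(`EC.T3.comap`). Let `M` be a finitely generated `T`-module, generated by the finite set `X`.
For `j : ℕ` let `F_j`, `F'_j ⊆ M` be the `R`-submodules generated by the `τ ^ l x`, `x ∈ X`, with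
`0 ≤ l ≤ j`, resp. `1 ≤ l ≤ j` (`M` is an `R`-module via `j`). They are finitely generated,
`F_j = F_0 + F'_j`, `τ⁻¹ F'_j ⊆ F_(j-1) ⊆ F_j`. Consider the `T`-linear maps
`Ind F'_j → Ind F_j`, `τ ^ k ⊗ n ↦ τ ^ k ⊗ n - τ ^ (k+1) ⊗ τ⁻¹ n`, and `Ind F_j → M`,
`τ ^ k ⊗ n ↦ τ ^ k n`. The second one is surjective and the composition is zero. The first one is
injective (look at the smallest `k` in the support). Exactness in the middle for suitable `j`: the
submodules `F_0 ∩ F'_j` of the noetherian `R`-module `F_0` increase with `j`; choose `j` such that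
`F_0 ∩ F'_i = F_0 ∩ F'_j` for all `i ≥ j`. Let `∑_{a ≤ k ≤ b} τ ^ k ⊗ n_k` be in the kernel
of the second map; induct on `b - a`. Modulo the image of the first map one may replace
`τ ^ k ⊗ n'`, `n' ∈ F'_j`, by `τ ^ (k+1) ⊗ τ⁻¹ n'`; so, starting with `k = a`, one may assume
`n_k ∈ F_0` for `a ≤ k < b`. If `a < b` then `n_a = - ∑_{k > a} τ ^ (k-a) n_k` lies in
`F_0 ∩ F'_(b-a+j) = F_0 ∩ F'_j`, and `τ ^ a ⊗ n_a` can be replaced by `τ ^ (a+1) ⊗ τ⁻¹ n_a`, which
makes `b - a` smaller. If `a = b` then `n_a = 0`. So `0 → Ind F'_j → Ind F_j → M → 0` is exact and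
`P M` by `coker`. -/
def St_SK1 : Prop :=
  ∀ (R T : Type) [Ring R] [Ring T] [IsNoetherianRing R] (σ : R ≃+* R) (j : R →+* T) (τ : Tˣ),
    IsSkL σ j τ → (modC R).FinG → (modC T).FinG

/-- **SK2** (1.5 h). Hilbert's basis theorem. Proof. Let `I` be a left ideal of `T`. Let `T₊` be the
set of the elements `∑_{k ≥ 0} j (c k) τ ^ k`, `I₊ = I ∩ T₊`; `I` is generated by `I₊` (multiply by a
power of `τ` on the left). For `n : ℕ` let `L_n ⊆ R` be the left ideal of the `r` such that some
`t ∈ I₊` is `j r τ ^ n +` terms with exponents `0 ≤ k < n`. Since `τ j(r) τ ^ n = j(σ r) τ ^ (n+1)` one has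
`σ L_n ⊆ L_(n+1)`; so the left ideals `L'_n = σ⁻ⁿ L_n` increase; they are equal to `L'_N` for
`n ≥ N`. Choose finitely many generators of `L_0, …, L_N` and elements of `I₊` with these leading
coefficients. They generate `I₊` (as a left ideal of `T`): induction on the degree `n` of `t ∈ I₊`;
for `n > N` the leading coefficient lies in `L_n = σ ^ (n-N) L_N`, so it is the leading coefficient
of a combination of the `τ ^ (n-N) t_i` with the generators `t_i` of degree `N` (coefficients in `j R`);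
subtract. (Alternatively: `IsNoetherianRing` via `SkewPolynomial`, if Mathlib has a basis theorem for
skew polynomials.) -/
def St_SK2 : Prop :=
  ∀ (R T : Type) [Ring R] [Ring T] [IsNoetherianRing R] (σ : R ≃+* R) (j : R →+* T) (τ : Tˣ),
    IsSkL σ j τ → IsNoetherianRing T

/-- **SK3** (1.5 h), with the hypotheses `St_SK0`, `St_SKL`, `St_SK1`, `St_SK2`: iterated skew
Laurent rings. Proof by induction on `ρ` (for all `R`). `ρ = 0`: `T = R`. Step `ρ + 1`: let
`T1, j1, τ1` be the skew Laurent ring of `R, σ 0` (`St_SK0`). For `k : Fin ρ` the automorphism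
`σ k.succ` extends to an automorphism `σ' k` of `T1` with `σ' k (j1 r) = j1 (σ k.succ r)`,
`σ' k τ1 = τ1` (`St_SKL`: `τ1 j1(σ_k r) = j1(σ_0 σ_k r) τ1 = j1(σ_k σ_0 r) τ1`; the inverse is
obtained in the same way from `(σ k.succ).symm`; use the uniqueness part for `RingEquiv.ofRingHom` and
for `σ' k (σ' l x) = σ' l (σ' k x)`). `T1` is noetherian and `FinG` by `St_SK2`, `St_SK1`; by
induction there are `T, j', τ'` for `T1, σ'`. Take `j = j'.comp j1` and
`τ = Fin.cons (Units.map j' τ1) τ'`. The properties `comm`, `tcomm`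
(`τ'_k j'(τ1) = j'(σ'_k τ1) τ'_k = j'(τ1) τ'_k`), `gen` (by `span` for `T1`) are clear. `lift`: given
`j'' : R → T'`, `τ''`, first lift to `φ1 : T1 → T'` by `St_SKL` for `j'', τ'' 0`; then
`τ''_(k+1) φ1(t) = φ1(σ'_k t) τ''_(k+1)` for all `t ∈ T1` (both `t ↦ τ''⁻¹ φ1(σ'_k t) τ''` and `φ1` are
ring homomorphisms which agree on `j1 R` and `τ1`), so `lift` for `T` applies. -/
def St_SK3 : Prop :=
  ∀ (ρ : ℕ) (R : Type) [Ring R] [IsNoetherianRing R] (σ : Fin ρ → R ≃+* R),
    (∀ k l x, σ k (σ l x) = σ l (σ k x)) → (modC R).FinG →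
    ∃ (T : Type) (_ : Ring T) (j : R →+* T) (τ : Fin ρ → Tˣ), IsSkU σ j τ ∧ (modC T).FinG

/-! ### the algebra `SAlg q c` -/

/-- **SK4F** (45 min). Proof. `Lam q` is a finite `B`-module (`thm_LamF`,
`Pool/Agent/TQF/NLamF.lean`); the `e_a` satisfy its relations, which gives
`Lam q →ₐ[B] SAlg q c` (`RingQuot.liftAlgHom`). Let `W` be the `B`-submodule of `SAlg q c` generated
by the products `p_g * x`, `x` in the image of `Lam q`; it is finitely generated. It contains `1 = ∑ p_g`
and is stable under left multiplication by `p_g` (`idem`, `orth`) and by `e_a`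
(`e_a p_g = p_(g + cl (c a)) e_a`), so it is everything (`SAlg.ind` applied to
`Q x := ∀ y ∈ W, x * y ∈ W`). -/
def St_SK4F : Prop :=
  ∀ (B : Type) [CommRing B] (m ρ : ℕ) (q : QD B m) (c : Fin (m + 1) → Fin ρ → ℤ),
    Module.Finite B (SAlg q c)

/-- **SK4S** (45 min). Proof. `SAlg.lift` applied to `e_a` and `g ↦ p_(g + ε_k)` (`Finset.sum_equiv` for
`sum`), which is an involution (`bv k + bv k = 0` in characteristic two); use `SAlg.ext`. -/
def St_SK4S : Prop :=
  ∀ (B : Type) [CommRing B] (m ρ : ℕ) (q : QD B m) (c : Fin (m + 1) → Fin ρ → ℤ),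
    ∃ σ : Fin ρ → SAlg q c ≃+* SAlg q c, (∀ k l x, σ k (σ l x) = σ l (σ k x)) ∧
      (∀ k x, σ k (σ k x) = x) ∧ (∀ k (r : B), σ k (algebraMap B _ r) = algebraMap B _ r) ∧
      (∀ k a, σ k (SAlg.e q c a) = SAlg.e q c a) ∧
      ∀ k g, σ k (SAlg.p q c g) = SAlg.p q c (g + bv k)

/-- **SK4B** (1.5 h), with the hypothesis `St_SK4F`: base change. Proof. Let `q' = q.map _`,
`L = B' ⊗[B] SAlg q c`. `SAlg.lift` (over `B'`) gives `θ : SAlg q' c →ₐ[B'] L`, `e_a ↦ 1 ⊗ e_a`,
`p_g ↦ 1 ⊗ p_g`; `SAlg.lift` (over `B`, with `SAlg q' c` as a `B`-algebra via `B → B'`) and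
`Algebra.TensorProduct.lift` give `ψ : L →+* SAlg q' c`, `b' ⊗ x ↦ b' x`; `ψ (θ x) = x` by
`SAlg.ext` (in fact they are inverse to each other). For `N ∈ LMod L` let `F N` be `N` with
`x • n = θ x • n` (`Module.compHom`); it is finitely generated since `L` is finite over `B'`, and `F`
respects short exact sequences. Every `M ∈ LMod (SAlg q' c)` is isomorphic (as the same group) to
`F N` with `N = M`, `y • m = ψ y • m`. Take the image of a finite generating set; `EC.T3.comap`,
`LMod.t3_iso`. (If `θ`, `ψ` are shown to be inverse to each other: transport of `FinG` along a ring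
isomorphism is in `Pool/Agent/TQF/NLocM.lean`, or `thm_Nil`.) -/
def St_SK4B : Prop :=
  ∀ (B B' : Type) [CommRing B] [CommRing B'] [Algebra B B'] (m ρ : ℕ) (q : QD B m)
    (c : Fin (m + 1) → Fin ρ → ℤ), (modC (B' ⊗[B] SAlg q c)).FinG →
      (modC (SAlg (q.map (algebraMap B B')) c)).FinG

/-! ### Morita equivalence -/

/-- **LAU** (45 min). Proof. `V` is the localisation of `MvPolynomial (Fin ρ) B` away from `∏ X_k`, for
the algebra structure given by `eval₂Hom b u` (`IsLocalization.Away.of_...` or the three axioms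
directly; the kernel condition from `inj`, surjectivity from `frac`). A localisation of a noetherian ring
is noetherian; `FinGn.mvPolynomial`, `FinGn.away` (`Pool/Agent/Helper67/Bass/Away.lean`). -/
def St_LAU : Prop :=
  ∀ (B V : Type) [CommRing B] [IsNoetherianRing B] [CommRing V] (ρ : ℕ) (b : B →+* V)
    (u : Fin ρ → Vˣ), IsLauR b u → IsNoetherianRing V ∧ (FinGn B → FinGn V)

/-- the homomorphism from `V` to the centre of `T` -/
structure IsKap {B V T : Type} [CommRing B] [CommRing V] [Ring T] {m ρ : ℕ} (q : QD B m)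
    (c : Fin (m + 1) → Fin ρ → ℤ) (j : SAlg q c →+* T) (τ : Fin ρ → Tˣ) (b : B →+* V)
    (u : Fin ρ → Vˣ) (κ : V →+* T) : Prop where
  base : ∀ r : B, κ (b r) = j (algebraMap B _ r)
  unit : ∀ k, κ (u k) = τ k * τ k
  central : ∀ v t, κ v * t = t * κ v
  fin : ∃ X : Finset T, ∀ t, ∃ v : T → V, t = ∑ x ∈ X, κ (v x) * x

/-- **SK5A** (1.5 h), with the hypothesis `St_SK4F`. Proof. The elements `j (algebraMap r)` and
`τ k * τ k` of `T` are central (they commute with `j x`, `τ l` and `(τ l)⁻¹`, which generate `T`: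
`gen`; `τ_k τ_k j x = j (σ_k (σ_k x)) τ_k τ_k`). So there is a homomorphism
`MvPolynomial (Fin ρ) B → Subring.center T` (`eval₂Hom`), and it extends to `V`: `V` is the
localisation of `MvPolynomial (Fin ρ) B` away from `∏ X_k` (`IsLauR`; as in `St_LAU`),
`IsLocalization.Away.lift`. For `fin` let `W` be the set of all finite sums
`∑ κ (v_i) * (τ ^ ε_i * j x_i)` with `ε_i ∈ {0, 1} ^ ρ` and `x_i` in a finite generating set of the
`B`-module `SAlg q c` (`St_SK4F`); it contains `1` and is stable under left multiplication by `j x`,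
`τ k` and `(τ k)⁻¹ = κ (u_k⁻¹) τ k`, so it is everything. (The products `τ ^ ε` are products of the
pairwise commuting `τ k`, e.g. `(List.ofFn fun k => (τ k) ^ (ε k)).prod` or `Finset.noncommProd`, or
argue by `gen` with the `V`-submodule, finite at each step.) -/
def St_SK5A : Prop :=
  ∀ (B V T : Type) [CommRing B] [CommRing V] [Ring T] (m ρ : ℕ) (q : QD B m)
    (c : Fin (m + 1) → Fin ρ → ℤ) (σ : Fin ρ → SAlg q c ≃+* SAlg q c), (∀ k x, σ k (σ k x) = x) →
    (∀ k (r : B), σ k (algebraMap B _ r) = algebraMap B _ r) →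
    ∀ (j : SAlg q c →+* T) (τ : Fin ρ → Tˣ), IsSkU σ j τ → ∀ (b : B →+* V) (u : Fin ρ → Vˣ),
      IsLauR b u → ∃ κ : V →+* T, IsKap q c j τ b u κ

/-- **SK5B** (3 h). Morita equivalence between `T`-modules and modules with twisted operators.
Let `E_a` be the operators of objects of `cC (tw b u c q)`: with `λ_a, γ_ab` the data of `q`,
`E_a² + λ_a u^(c_a/2) E_a + γ_aa u^(c_a) = 0`,
`E_a E_b + E_b E_a + λ_a u^(c_a/2) E_b + λ_b u^(c_b/2) E_a + (γ_ab + γ_ba) u^((c_a+c_b)/2) = 0`.
Write `τ^z = ∏ τ_k ^ z_k` (commuting units; `τ^z τ^z' = τ^(z+z')`, `τ^(2z) = κ (u^z)`, `τ^z` commutes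
with `j e_a`, `τ^z j(p_g) = j(p_(g + cl z)) τ^z`).
(1) `Ψ : LMod T → CMod (tw b u c q)`. `N` is a `V`-module through `κ` (`Module.compHom`), finitely
generated by `fin`; `Ψ N = {x | j(p_0) x = x}`, a `V`-submodule (finitely generated, as `V` is
noetherian, or as it is a direct summand), and `E_a = τ^(c_a) j(e_a)`, which maps `Ψ N` to itself:
`p_0 τ^(c_a) e_a = τ^(c_a) p_(cl c_a) e_a = τ^(c_a) e_a p_0`. The relations follow from those of `q`
(parity: `λ_a ≠ 0` implies `c_a` even, so `λ_a u^(c_a/2) E_a = λ_a τ^(2 c_a) e_a`, and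
`γ_ab + γ_ba ≠ 0` implies `c_a + c_b` even). `Ψ` respects short exact sequences (`x ↦ j(p_0) x` is a
projection) and zero objects.
(2) `Θ : CMod (tw b u c q) → LMod T`. Let `M` be given. `Θ M` is the group of all functions
`x : (Fin ρ → ℤ) → M` with `x (z + 2 w) = u^(-w) • x z` for all `z, w` (think of
`∑_g τ^z x(z)`, one `z` for each class `g` modulo `2`). Operators: `(b • x)(z) = b • x z`,
`(e_a x)(z) = E_a (x (z + c_a))`, `(p_g x)(z) = x z` if `cl z = g` and `0` otherwise,
`(τ_k x)(z) = x (z - ε_k)`, which is invertible. They satisfy the relations of `SAlg q c` (`SRep`, e.g.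
`(e_a e_a x)(z) = E_a² x(z + 2 c_a) = E_a² u^(-c_a) x(z)` and, `c_a` being even,
`λ_a E_a x(z + c_a) = λ_a u^(-c_a/2) E_a x(z)`), so they define
`SAlg q c → End Θ M` (`SAlg.lift`), and `τ_k e_a = e_a τ_k`, `τ_k p_g = p_(g + ε_k) τ_k`,
`τ_k τ_l = τ_l τ_k`, so `IsSkU.lift` gives `T → End Θ M`, i.e. the module structure. Note that `κ v`
acts as `v` (`κ` is determined on `B` and the `u_k`, and `V` is generated by them and the `u_k⁻¹`:
use `frac` of `IsLauR`). Finitely generated: as a `V`-module `Θ M` embeds into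
`M ^ ({0, 1} ^ ρ)` by restriction (`V` noetherian), and finitely generated over `V` implies finitely
generated over `T`.
(3) `Ψ (Θ M) ≅ M` by `x ↦ x 0`: an element of `Ψ (Θ M)` is supported on the even `z`, so it is
determined by `x 0`; for `y ∈ M` the function `z ↦ u^(-z/2) y` for even `z`, `0` otherwise, is a
preimage; `(τ^(c_a) e_a x)(0) = (e_a x)(-c_a) = E_a (x 0)`.
(4) Take the image under `Ψ` of a finite generating set of `modC T`; `EC.T3.comap`, `CMod.t3_iso`. -/
def St_SK5B : Prop :=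
  ∀ (B V T : Type) [CommRing B] [CommRing V] [IsNoetherianRing V] [Ring T] (m ρ : ℕ) (q : QD B m)
    (c : Fin (m + 1) → Fin ρ → ℤ) (σ : Fin ρ → SAlg q c ≃+* SAlg q c), ParQ c q →
    (∀ k (r : B), σ k (algebraMap B _ r) = algebraMap B _ r) →
    (∀ k a, σ k (SAlg.e q c a) = SAlg.e q c a) →
    (∀ k g, σ k (SAlg.p q c g) = SAlg.p q c (g + bv k)) →
    ∀ (j : SAlg q c →+* T) (τ : Fin ρ → Tˣ), IsSkU σ j τ → ∀ (b : B →+* V) (u : Fin ρ → Vˣ),
      IsLauR b u → ∀ κ : V →+* T, IsKap q c j τ b u κ → (modC T).FinG → (cC (tw b u c q)).FinG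

/-- **SK5** (30 min), with the hypotheses `St_SK3`, `St_SK4F`, `St_SK4S`, `St_LAU`, `St_SK5A`,
`St_SK5B`: assembly. (`SAlg q c` is left noetherian, as it is a finite module over the noetherian ring
`B`.) -/
def St_SK5 : Prop :=
  ∀ (B V : Type) [CommRing B] [IsNoetherianRing B] [CommRing V] (m ρ : ℕ) (q : QD B m)
    (c : Fin (m + 1) → Fin ρ → ℤ), ParQ c q → ∀ (b : B →+* V) (u : Fin ρ → Vˣ), IsLauR b u →
      (modC (SAlg q c)).FinG → (cC (tw b u c q)).FinG

/-! ### the normal form -/

/-- **TM2** (2 h). Reduction of the normal form to the case of a unit coefficient of the square of the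
first variable. Proof. `n = m + 1` (`n = 0` is impossible). First alternative: rename the variables by
the swap `s` of `0` and `i` (`renameEquiv`), `v' = v ∘ s`; `twP b u v' (rename s f) =
rename s (twP b u v f)` (compare coefficients). Second alternative: `f.coeff (e_i + e_j) ≠ 0` (if it
is zero and a unit, then `B`, `V` are trivial; then everything is trivial, take `f' = f`), so
`v_i + v_j` is even, also `δ = (v_i - v_j) / 2` is exact. Let `f'` be obtained from `f` by the
substitution `y_j ↦ y_j + y_i`. The automorphism `y_j ↦ y_j + u^δ y_i` of `V[y]`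
(inverse `y_j ↦ y_j - u^δ y_i`) maps `twP b u v f` to `twP b u v f'`: check this on a monomial of
degree `≤ 2` all of whose exponents `∑ d_l v_l` are even (or: for every monomial `y^d` with even
exponents, `twP b u v` is compatible with products of a polynomial with even exponents; the
substitution changes `∑ d_l v_l` by multiples of `v_i - v_j`). `Par v f'`, total degree
`≤ 2`, and the coefficient of `y_i ^ 2` in `f'` is `f.coeff (2 e_i) + f.coeff (e_i + e_j) +
f.coeff (2 e_j) = f.coeff (e_i + e_j)`. Then use the first case for `f'`. See `Mon` in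
`Pool/Agent/TQF/TMon.lean` for the untwisted version. -/
def St_TM2 : Prop :=
  ∀ (B : Type) [CommRing B] (n ρ : ℕ) (v : Fin n → Fin ρ → ℤ) (f : MvPolynomial (Fin n) B),
    f.totalDegree ≤ 2 → Par v f →
    ((∃ i, IsUnit (f.coeff (Finsupp.single i 2))) ∨ ∃ i j, i ≠ j ∧
      f.coeff (Finsupp.single i 2) = 0 ∧ f.coeff (Finsupp.single j 2) = 0 ∧
      IsUnit (f.coeff (Finsupp.single i 1 + Finsupp.single j 1))) →
    ∃ (m : ℕ) (v' : Fin (m + 1) → Fin ρ → ℤ) (f' : MvPolynomial (Fin (m + 1)) B),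
      f'.totalDegree ≤ 2 ∧ Par v' f' ∧ IsUnit (f'.coeff (Finsupp.single 0 2)) ∧
      ∀ (V : Type) [CommRing V] (b : B →+* V) (u : Fin ρ → Vˣ), Nonempty
        ((MvPolynomial (Fin n) V ⧸ Ideal.span {twP b u v f}) ≃+*
          (MvPolynomial (Fin (m + 1)) V ⧸ Ideal.span {twP b u v' f'}))

/-- **TM1** (2 h). The normal form when the square of the first variable has a unit coefficient `β`.
Proof. For `a : Fin (m + 1)` let `v'' a = 0` if `a = 0` (the constant) and `v'' a = v a` otherwise
(the variable `X_a`, `a = succ _`, of `f`), `c a = v'' a - v 0`. Let `ε_a` be `0` for `a = 0` and the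
unit vector of the variable `X_a` of `f` otherwise. Define `q.lam a = β⁻¹ f.coeff (e_0 + ε_a)`,
`q.gam a a' = β⁻¹ f.coeff (ε_a + ε_a')` for `a ≤ a'` and `0` for `a > a'`. So
`f = β (X_0² + ∑ λ_a y_a X_0 + ∑ γ_aa' y_a y_a')` with `y_0 = 1`, `y_a = X_a`. `ParQ c q`: if
`λ_a ≠ 0` then `v_0 + v''_a` is even by `Par`, so `c_a` is even; if `γ_aa' ≠ 0` then `v''_a + v''_a'`
is even (if `β⁻¹ x ≠ 0` then `x ≠ 0`). Under
`finSuccEquiv V m : MvPolynomial (Fin (m+1)) V ≃ (MvPolynomial (Fin m) V)[X]` the image of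
`twP b u v f` is `b(β) u^(v_0) (X ^ 2 + C (tw b u c q).l X + C (tw b u c q).g)`: compare
coefficients (`coeff_twP`; the exponents are `(v_0 + v''_a)/2 = v_0 + c_a/2` and
`(v''_a + v''_a')/2 = v_0 + (c_a + c_a')/2`), or expand `f` as a sum of monomials of degree `≤ 2`. See
`TMon_core` and what follows in `Pool/Agent/TQF/TMon.lean` for the untwisted version. -/
def St_TM1 : Prop :=
  ∀ (B : Type) [CommRing B] (m ρ : ℕ) (v : Fin (m + 1) → Fin ρ → ℤ)
    (f : MvPolynomial (Fin (m + 1)) B), f.totalDegree ≤ 2 → Par v f →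
    IsUnit (f.coeff (Finsupp.single 0 2)) →
    ∃ (q : QD B m) (c : Fin (m + 1) → Fin ρ → ℤ), ParQ c q ∧
      ∀ (V : Type) [CommRing V] (b : B →+* V) (u : Fin ρ → Vˣ), Nonempty
        ((MvPolynomial (Fin (m + 1)) V ⧸ Ideal.span {twP b u v f}) ≃+*
          (Polynomial (MvPolynomial (Fin m) V) ⧸ Ideal.span {(Polynomial.X ^ 2 +
            Polynomial.C (tw b u c q).l * Polynomial.X +
            Polynomial.C (tw b u c q).g : Polynomial (MvPolynomial (Fin m) V))}))

/-! ### assembly -/

/-- **TWG** (1.5 h), with the hypotheses `St_TM1`, `St_TM2`, `St_SK4F`, `St_SK4B`, `St_LAU`, `St_SK5`: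
the generic twisted quadric. Proof. As `thm_Gen` in `Pool/Agent/TQF/AsmT.lean` (`gen_core`,
`gen_cases`, `gen_step`, `gen_kron`, `gen_ft`, `gen_dom` there; `thm_T0`, `thm_T1`, `thm_Lin`,
`all_FinQ`, `all_NC`, `thm_Tr` are available). Let `u0 ≠ 0` be one of the coefficients of `f`: the coefficient
of some `y_i²` if one is not zero; otherwise that of some `y_i y_j`, `i ≠ j`; otherwise that of some
`y_i`; otherwise the constant coefficient (`f = 0` is trivial: `x = 1`). Let `A2` be a localisation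
of `A` in which `u0` is invertible and which is `FinGn` (`exists_pid`). For the image `f2` of
`f` in `A2[y]`: in the first two cases `St_TM2`, `St_TM1` give `m, q, c` over `A2`, `ParQ c q`; `SAlg q c`
is a finite `A2`-algebra (`St_SK4F`), by `all_NC` there is `s ∈ A2`, `s ≠ 0`, such that
`(modC (A2[1/s] ⊗ SAlg q c)).FinG`, so `(modC (SAlg (q.map _) c)).FinG` (`St_SK4B`),
and for `V` Laurent over `A2[1/s]`: `(cC (tw b u c (q.map _))).FinG` by `St_SK5`, `V` noetherian and
`FinGn` by `St_LAU`, so `(qC _ _).FinG` by `all_FinQ`, and `St_T1` and the isomorphism of the normal form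
(`tw_map`, `twP_map`) give the claim. The other cases: `thm_Lin` for `twP b u v f` over `V`
(`totalDegree_twP_le`, `coeff_twP`); a unit constant: the quotient is the zero ring. Let `x ∈ A` be
such that `A2[1/s]` is a localisation of `A` away from `x` (`thm_Tr`). For another localisation `B1`
of `A` away from `x` use the isomorphism `B1 ≅ A2[1/s]` over `A` (`IsLocalization.algEquiv`): compose
`b` with it (`IsLauR` is preserved, `twP_map`). -/
def St_TWG : Prop :=
  ∀ (A K : Type) [CommRing A] [IsDomain A] [Algebra.FiniteType ℤ A] [Field K] [Algebra A K]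
    [IsFractionRing A K], KroneckerLeOne K → ∀ (n ρ : ℕ) (v : Fin n → Fin ρ → ℤ)
    (f : MvPolynomial (Fin n) A), f.totalDegree ≤ 2 → Par v f → ∃ x : A, x ≠ 0 ∧
      ∀ (B1 : Type) [CommRing B1] [Algebra A B1] [IsLocalization.Away x B1] (V : Type) [CommRing V]
        (b : B1 →+* V) (u : Fin ρ → Vˣ), IsLauR b u →
        FinGn (MvPolynomial (Fin n) V ⧸
          Ideal.span {twP b u v (MvPolynomial.map (algebraMap A B1) f)})

/-- **QF2** (1.5 h), with the hypotheses `St_QC2`, `St_TWG`: the generic stratum of a homogeneous prime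
with residue field of Kronecker dimension at most one, arbitrary weights.
Proof. As `thm_QF` in `Pool/Agent/TQF/QF.lean`. Take the data of `thm_QS` (`Pool/Agent/TQF/QS.lean`) and
`w, v` of `St_QC2`. For `d` with `π (f.coeff d) ≠ 0` one has `d = e_i + e_j` with
`i, j ∈ Option (Fin n)`, `e_none = 0`, and `f.coeff d` is homogeneous of degree `γ - wt i - wt j`; it is
`β_d u ^ ζ_d` with `β_d ∈ B0` and `2 ζ_d = 2 w + v i + v j = 2 w + ∑ d_l v_l` (`v none = 0`), so
`ζ_d = w + (∑ d_l v_l) / 2` and `∑ d_l v_l` is even. Put `β_d = 0` if `π (f.coeff d) = 0`. Let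
`f0 = ∑ β_d y ^ d` over `B0` (support inside `f.support`); `Par v f0`. By `St_TWG` with
`A = B0.toSubring` (a finitely generated domain), `K = K0 𝒜 π` its fraction field (see
`Pool/Agent/TQF/QG.lean` or the proof of `thm_QF` for the instances), there is `x`; let `s` be the
element of the last part of `thm_QS` for `s0 = x`, `B1 = aw B0 x` (a localisation of `B0` away from
`x`: `isLocAway`), `V = aw π.range (π s)`, `b` the inclusion (`Lau.le`), `u k` the units of `V`
(`Lau.mem`, `Lau.inv`); `IsLauR b u` from `Lau.inj`, `Lau.frac`. The image of `f` in `V[y]` is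
`u^w * twP b u v (map _ f0)` (compare coefficients), so it generates the same ideal. -/
def St_QF2 : Prop :=
  ∀ (ι : Type) [AddCommGroup ι] [DecidableEq ι] [Module.IsTorsionFree ℤ ι] (A : Type) [CommRing A]
    [Algebra.FiniteType ℤ A] (𝒜 : ι → AddSubgroup A) [GradedRing 𝒜] (K : Type) [Field K]
    (π : A →+* K), (RingHom.ker π).IsHomogeneous 𝒜 → KroneckerLeOne (K0 𝒜 π) →
    ∀ (n : ℕ) (f : MvPolynomial (Fin n) A) (γ ω : ι) (α : Fin n → ι),
      f.totalDegree ≤ 2 → Hom2 𝒜 f γ ω α →
      ∃ s : A, SetLike.IsHomogeneousElem 𝒜 s ∧ π s ≠ 0 ∧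
        FinGn (MvPolynomial (Fin n) (aw π.range (π s) ⟨s, rfl⟩) ⧸
          Ideal.span {MvPolynomial.map (awHom π s) f})

end Pool.Agent.QTG
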